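import Pool.Agent.Lib.MP_17a322_nt.TB.Defs

/-!
Leading parts of products and determinants, and bounds for values.
-/

universe u

namespace Pool.Agent.Lib.MP_17a322_nt.TB

open MvPolynomial Height
open Pool.Agent.Lib.MP_17a322_nt.VA
open Pool.Agent.Lib.MP_17a322_nt.SL

section

variable {q p : ℕ} {R : Type*} [CommRing R]

theorem R1_wt_add (τ : Fin q → ℝ) (m m' : Fin q × Fin p →₀ ℕ) :
    wt τ (m + m') = wt τ m + wt τ m' := by
  unfold wt
  rw [← Finset.sum_add_distrib]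
  refine Finset.sum_congr rfl fun i _ => ?_
  rw [Finsupp.add_apply]
  push_cast
  ring

theorem R1_wt_zero (τ : Fin q → ℝ) : wt τ (0 : Fin q × Fin p →₀ ℕ) = 0 := by
  unfold wt
  simp

theorem R1_coeff (τ : Fin q → ℝ) (h : ℝ) (f : MvPolynomial (Fin q × Fin p) R)
    (m : Fin q × Fin p →₀ ℕ) :
    coeff m (partWt τ h f) = if wt τ m = h then coeff m f else 0 := by
  classical
  unfold partWt
  rw [coeff_sum]
  simp only [coeff_monomial]
  rw [Finset.sum_ite_eq']
  by_cases h1 : wt τ m = h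
  · by_cases h2 : coeff m f = 0
    · rw [if_pos h1, h2]
      split_ifs <;> rfl
    · rw [if_pos h1, if_pos]
      exact Finset.mem_filter.2 ⟨mem_support_iff.2 h2, h1⟩
  · rw [if_neg h1, if_neg]
    intro h2
    exact h1 (Finset.mem_filter.1 h2).2

theorem R1_mul {τ : Fin q → ℝ} {h h' : ℝ} {f f₁ : MvPolynomial (Fin q × Fin p) R}
    (hp : ∀ m ∈ f.support, wt τ m ≤ h) (hp' : ∀ m ∈ f₁.support, wt τ m ≤ h') :
    (∀ m ∈ (f * f₁).support, wt τ m ≤ h + h') ∧
      partWt τ (h + h') (f * f₁) = partWt τ h f * partWt τ h' f₁ := by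
  classical
  constructor
  · intro m hm
    rw [mem_support_iff, coeff_mul] at hm
    obtain ⟨y, hy, hy0⟩ := Finset.exists_ne_zero_of_sum_ne_zero hm
    have h1 : wt τ y.1 ≤ h := hp _ (mem_support_iff.2 (left_ne_zero_of_mul hy0))
    have h2 : wt τ y.2 ≤ h' := hp' _ (mem_support_iff.2 (right_ne_zero_of_mul hy0))
    rw [← Finset.HasAntidiagonal.mem_antidiagonal.1 hy, R1_wt_add]
    exact add_le_add h1 h2
  · ext m
    rw [R1_coeff, coeff_mul, coeff_mul]
    by_cases hm : wt τ m = h + h'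
    · rw [if_pos hm]
      refine Finset.sum_congr rfl fun y hy => ?_
      rw [R1_coeff, R1_coeff]
      have h1 : wt τ y.1 + wt τ y.2 = h + h' := by
        rw [← R1_wt_add, Finset.HasAntidiagonal.mem_antidiagonal.1 hy, hm]
      by_cases h2 : coeff y.1 f = 0
      · rw [h2, zero_mul]
        split_ifs <;> simp
      by_cases h3 : coeff y.2 f₁ = 0
      · rw [h3, mul_zero]
        split_ifs <;> simp
      have h4 : wt τ y.1 ≤ h := hp _ (mem_support_iff.2 h2)
      have h5 : wt τ y.2 ≤ h' := hp' _ (mem_support_iff.2 h3)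
      rw [if_pos (by linarith), if_pos (by linarith)]
    · rw [if_neg hm]
      refine (Finset.sum_eq_zero fun y hy => ?_).symm
      rw [R1_coeff, R1_coeff]
      by_cases h2 : wt τ y.1 = h
      · by_cases h3 : wt τ y.2 = h'
        · exfalso
          apply hm
          rw [← Finset.HasAntidiagonal.mem_antidiagonal.1 hy, R1_wt_add, h2, h3]
        · rw [if_neg h3, mul_zero]
      · rw [if_neg h2, zero_mul]

theorem R1_C (τ : Fin q → ℝ) (c : R) :
    (∀ m ∈ (C c : MvPolynomial (Fin q × Fin p) R).support, wt τ m ≤ 0) ∧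
      partWt τ 0 (C c : MvPolynomial (Fin q × Fin p) R) = C c := by
  classical
  constructor
  · intro m hm
    rw [mem_support_iff, coeff_C] at hm
    by_cases h : 0 = m
    · rw [← h, R1_wt_zero]
    · rw [if_neg h] at hm
      exact absurd rfl hm
  · ext m
    rw [R1_coeff, coeff_C]
    by_cases h : 0 = m
    · rw [← h, R1_wt_zero, if_pos rfl]
    · rw [if_neg h]
      split_ifs <;> rfl

theorem R1_prod {ι : Type*} {τ : Fin q → ℝ} (s : Finset ι) (h : ι → ℝ)
    (f : ι → MvPolynomial (Fin q × Fin p) R) (hp : ∀ i ∈ s, ∀ m ∈ (f i).support, wt τ m ≤ h i) :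
    (∀ m ∈ (∏ i ∈ s, f i).support, wt τ m ≤ ∑ i ∈ s, h i) ∧
      partWt τ (∑ i ∈ s, h i) (∏ i ∈ s, f i) = ∏ i ∈ s, partWt τ (h i) (f i) := by
  classical
  induction s using Finset.induction_on with
  | empty =>
    rw [Finset.prod_empty, Finset.sum_empty, Finset.prod_empty]
    have h1 := R1_C (p := p) τ (1 : R)
    rw [C_1] at h1
    exact h1
  | insert a s ha ih =>
    rw [Finset.prod_insert ha, Finset.sum_insert ha, Finset.prod_insert ha]
    obtain ⟨h1, h2⟩ := ih fun i hi => hp i (Finset.mem_insert_of_mem hi)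
    obtain ⟨h3, h4⟩ := R1_mul (hp a (Finset.mem_insert_self a s)) h1
    exact ⟨h3, by rw [h4, h2]⟩

theorem R1_sum {ι : Type*} {τ : Fin q → ℝ} (s : Finset ι) (h : ℝ)
    (f : ι → MvPolynomial (Fin q × Fin p) R) (hp : ∀ i ∈ s, ∀ m ∈ (f i).support, wt τ m ≤ h) :
    (∀ m ∈ (∑ i ∈ s, f i).support, wt τ m ≤ h) ∧
      partWt τ h (∑ i ∈ s, f i) = ∑ i ∈ s, partWt τ h (f i) := by
  classical
  constructor
  · intro m hm
    rw [mem_support_iff, coeff_sum] at hm
    obtain ⟨i, hi, hi0⟩ := Finset.exists_ne_zero_of_sum_ne_zero hm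
    exact hp i hi m (mem_support_iff.2 hi0)
  · ext m
    rw [R1_coeff, coeff_sum, coeff_sum]
    simp only [R1_coeff]
    split_ifs
    · rfl
    · rw [Finset.sum_const_zero]

theorem R1_unit {τ : Fin q → ℝ} (u : ℤˣ) {h : ℝ} {f : MvPolynomial (Fin q × Fin p) R}
    (hp : ∀ m ∈ f.support, wt τ m ≤ h) :
    (∀ m ∈ (u • f).support, wt τ m ≤ h) ∧ partWt τ h (u • f) = u • partWt τ h f := by
  classical
  rcases Int.units_eq_one_or u with rfl | rfl
  · rw [one_smul, one_smul]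
    exact ⟨hp, rfl⟩
  · have h1 : ((-1 : ℤˣ) • f) = -f := by
      rw [Units.neg_smul, one_smul]
    have h2 : ((-1 : ℤˣ) • partWt τ h f) = -partWt τ h f := by
      rw [Units.neg_smul, one_smul]
    rw [h1, h2]
    constructor
    · intro m hm
      refine hp m ?_
      rw [mem_support_iff, coeff_neg] at hm
      exact mem_support_iff.2 (neg_ne_zero.1 hm)
    · ext m
      rw [R1_coeff, coeff_neg, coeff_neg, R1_coeff]
      split_ifs
      · rfl
      · rw [neg_zero]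

/-- The leading part of a determinant. -/
theorem R1_det {k : ℕ} {τ : Fin q → ℝ}
    (M : Matrix (Fin k) (Fin k) (MvPolynomial (Fin q × Fin p) R))
    (h : Fin k → ℝ) (hM : ∀ i l, ∀ m ∈ (M i l).support, wt τ m ≤ h i) :
    (∀ m ∈ M.det.support, wt τ m ≤ ∑ i, h i) ∧
      partWt τ (∑ i, h i) M.det = (Matrix.of fun i l => partWt τ (h i) (M i l)).det := by
  rw [Matrix.det_apply, Matrix.det_apply]
  have h1 : ∀ σ : Equiv.Perm (Fin k), (∀ m ∈ (∏ i, M (σ i) i).support, wt τ m ≤ ∑ i, h i) ∧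
      partWt τ (∑ i, h i) (∏ i, M (σ i) i) = ∏ i, partWt τ (h (σ i)) (M (σ i) i) := by
    intro σ
    have h2 := R1_prod (τ := τ) Finset.univ (fun i => h (σ i)) (fun i => M (σ i) i)
      fun i _ => hM (σ i) i
    rw [Equiv.sum_comp σ h] at h2
    exact h2
  have h3 := R1_sum (τ := τ) (Finset.univ : Finset (Equiv.Perm (Fin k))) (∑ i, h i)
    (fun σ => Equiv.Perm.sign σ • ∏ i, M (σ i) i)
    fun σ _ => (R1_unit (Equiv.Perm.sign σ) (h1 σ).1).1
  refine ⟨h3.1, ?_⟩
  rw [h3.2]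
  refine Finset.sum_congr rfl fun σ _ => ?_
  rw [(R1_unit (Equiv.Perm.sign σ) (h1 σ).1).2, (h1 σ).2]
  rfl

end

section

theorem R1_detbd {F : Type*} [Field F] (v : AbsoluteValue F ℝ) {n : ℕ}
    (M : Matrix (Fin n) (Fin n) F) (b : Fin n → ℝ) (hM : ∀ i l, v (M i l) ≤ b i) :
    v M.det ≤ (n.factorial : ℝ) * ∏ i, b i := by
  rw [Matrix.det_apply]
  refine (v.sum_le _ _).trans ?_
  have h1 : ∀ σ ∈ (Finset.univ : Finset (Equiv.Perm (Fin n))),
      v (Equiv.Perm.sign σ • ∏ i, M (σ i) i) ≤ ∏ i, b i := by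
    intro σ _
    rw [v.map_units_int_smul, map_prod, ← Equiv.prod_comp σ b]
    exact Finset.prod_le_prod (fun i _ => v.nonneg _) fun i _ => hM _ _
  refine (Finset.sum_le_sum h1).trans ?_
  rw [Finset.sum_const, Finset.card_univ, Fintype.card_perm, Fintype.card_fin, nsmul_eq_mul]

/-- Cramer's rule with bounds. -/
theorem R1_cramer {F : Type*} [Field F] (v : AbsoluteValue F ℝ) {n : ℕ}
    (M : Matrix (Fin n) (Fin n) F) (b : Fin n → ℝ) (hb : ∀ i, 0 < b i)
    (hM : ∀ i l, v (M i l) ≤ b i) (Z : Fin n → F) (l : Fin n) :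
    v M.det * v (Z l) ≤
      (n.factorial : ℝ) * (∏ i, b i) * ∑ i, v (∑ k, M i k * Z k) / b i := by
  classical
  have h1 : M.det * Z l = ∑ i, M.adjugate l i * ∑ k, M i k * Z k := by
    have h2 : M.adjugate.mulVec (M.mulVec Z) = M.det • Z := by
      rw [Matrix.mulVec_mulVec, Matrix.adjugate_mul, Matrix.smul_mulVec, Matrix.one_mulVec]
    have h3 := congrFun h2 l
    rw [Pi.smul_apply, smul_eq_mul] at h3
    rw [← h3]
    rfl
  rw [← map_mul, h1]
  refine (v.sum_le _ _).trans ?_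
  rw [Finset.mul_sum]
  refine Finset.sum_le_sum fun i _ => ?_
  rw [map_mul]
  have h4 : v (M.adjugate l i) ≤ (n.factorial : ℝ) * ((∏ k, b k) / b i) := by
    rw [Matrix.adjugate_apply]
    have h5 := R1_detbd v (M.updateRow i (Pi.single l 1)) (Function.update b i 1) ?_
    · have h6 : ∏ k, Function.update b i 1 k = (∏ k, b k) / b i := by
        rw [Finset.prod_update_of_mem (Finset.mem_univ i), one_mul, eq_div_iff (hb i).ne',
          Finset.sdiff_singleton_eq_erase, mul_comm]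
        exact Finset.mul_prod_erase _ _ (Finset.mem_univ i)
      rw [h6] at h5
      exact h5
    · intro k m
      by_cases hk : k = i
      · subst hk
        rw [Matrix.updateRow_self, Function.update_self]
        by_cases hm : m = l
        · subst hm
          rw [Pi.single_eq_same, map_one]
        · rw [Pi.single_eq_of_ne hm, map_zero]
          exact zero_le_one
      · rw [Matrix.updateRow_ne hk, Function.update_of_ne hk]
        exact hM k m
  have h7 : (n.factorial : ℝ) * (∏ k, b k) * (v (∑ k, M i k * Z k) / b i) =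
      (n.factorial : ℝ) * ((∏ k, b k) / b i) * v (∑ k, M i k * Z k) := by ring
  rw [h7]
  exact mul_le_mul_of_nonneg_right h4 (v.nonneg _)

variable {K : Type u} [Field K] {N q p : ℕ}

theorem R1_form (v : AbsoluteValue K ℝ) {D : ℕ} {f : MvPolynomial (Fin (N + 1)) K}
    (hf : f.IsHomogeneous D) :
    ∃ C : ℝ, 0 ≤ C ∧ ∀ x : Fin (N + 1) → K, v (aeval x f) ≤ C * (⨆ i, v (x i)) ^ D := by
  classical
  refine ⟨∑ μ ∈ f.support, v (coeff μ f), Finset.sum_nonneg fun μ _ => v.nonneg _, ?_⟩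
  intro x
  rw [aeval_eq_eval, eval_eq']
  refine (v.sum_le _ _).trans ?_
  rw [Finset.sum_mul]
  refine Finset.sum_le_sum fun μ hμ => ?_
  rw [map_mul]
  refine mul_le_mul_of_nonneg_left ?_ (v.nonneg _)
  have h1 : ∑ i, μ i = D := by
    have h2 := hf (mem_support_iff.1 hμ)
    rw [Finsupp.weight_apply, Finsupp.sum_fintype _ _ fun _ => by simp] at h2
    simpa using h2
  rw [map_prod, ← h1, ← Finset.prod_pow_eq_pow_sum]
  refine Finset.prod_le_prod (fun i _ => v.nonneg _) fun i _ => ?_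
  rw [map_pow]
  exact pow_le_pow_left₀ (v.nonneg _) (Finite.le_ciSup_of_le (f := fun i => v (x i)) i le_rfl) _

variable {A : AV K N}

theorem R1_x_pos {L : Type u} [Field L] [Algebra K L] (v : AbsoluteValue L ℝ) (P : A.Pts L) :
    0 < ⨆ i, v (A.x P i) := by
  obtain ⟨i, hi⟩ := Function.ne_iff.1 (show A.x P ≠ 0 from P.1.rep_nonzero)
  exact (v.pos hi).trans_le (Finite.le_ciSup_of_le (f := fun i => v (A.x P i)) i le_rfl)

theorem R1_z_pos {L : Type u} [Field L] (v : AbsoluteValue L ℝ) {n : ℕ} {Z : Fin n → L}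
    (hZ : Z ≠ 0) : 0 < ⨆ l, v (Z l) := by
  obtain ⟨i, hi⟩ := Function.ne_iff.1 hZ
  exact (v.pos hi).trans_le (Finite.le_ciSup_of_le (f := fun l => v (Z l)) i le_rfl)

/-- The degrees of the coefficients. -/
theorem R1_WH_iff (T : Tor A q p) {D : ℕ}
    {b : MvPolynomial (Fin q × Fin p) (MvPolynomial (Fin (N + 1)) K)} :
    T.WH D b ↔ ∀ m, (∀ δ, δ + ∑ i, T.k i.1 * m i = D → (coeff m b).IsHomogeneous δ) ∧
      (D < ∑ i, T.k i.1 * m i → coeff m b = 0) := by
  constructor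
  · intro h m
    by_cases h0 : coeff m b = 0
    · rw [h0]
      exact ⟨fun δ _ => isHomogeneous_zero _ _ _, fun _ => rfl⟩
    · obtain ⟨δ, h1, h2⟩ := h m h0
      refine ⟨fun δ' h3 => ?_, fun h3 => ?_⟩
      · have h4 : δ' = δ := by omega
        rw [h4]
        exact h1
      · omega
  · intro h m h0
    have h1 : ∑ i, T.k i.1 * m i ≤ D := by
      by_contra hc
      exact h0 ((h m).2 (not_le.1 hc))
    exact ⟨D - ∑ i, T.k i.1 * m i, (h m).1 _ (by omega), by omega⟩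

theorem R1_WH_mul (T : Tor A q p) {D D' : ℕ}
    {b b' : MvPolynomial (Fin q × Fin p) (MvPolynomial (Fin (N + 1)) K)} (hb : T.WH D b)
    (hb' : T.WH D' b') : T.WH (D + D') (b * b') := by
  classical
  rw [R1_WH_iff]
  intro m
  have h1 : ∀ z ∈ Finset.HasAntidiagonal.antidiagonal m, coeff z.1 b * coeff z.2 b' ≠ 0 →
      ∃ δ, (coeff z.1 b * coeff z.2 b').IsHomogeneous δ ∧ δ + ∑ i, T.k i.1 * m i = D + D' := by
    intro z hz h0
    obtain ⟨δ, h2, h3⟩ := hb z.1 (left_ne_zero_of_mul h0)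
    obtain ⟨δ', h4, h5⟩ := hb' z.2 (right_ne_zero_of_mul h0)
    refine ⟨δ + δ', h2.mul h4, ?_⟩
    have h6 : ∑ i, T.k i.1 * m i = ∑ i, T.k i.1 * z.1 i + ∑ i, T.k i.1 * z.2 i := by
      rw [← Finset.sum_add_distrib, ← Finset.HasAntidiagonal.mem_antidiagonal.1 hz]
      refine Finset.sum_congr rfl fun i _ => ?_
      rw [Finsupp.add_apply, mul_add]
    omega
  constructor
  · intro δ hδ
    rw [coeff_mul]
    refine IsHomogeneous.sum _ _ _ fun z hz => ?_
    by_cases h0 : coeff z.1 b * coeff z.2 b' = 0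
    · rw [h0]
      exact isHomogeneous_zero _ _ _
    · obtain ⟨δ', h2, h3⟩ := h1 z hz h0
      have h4 : δ = δ' := by omega
      rw [h4]
      exact h2
  · intro hlt
    rw [coeff_mul]
    refine Finset.sum_eq_zero fun z hz => ?_
    by_contra h0
    obtain ⟨δ', h2, h3⟩ := h1 z hz h0
    omega

theorem R1_WH_C (T : Tor A q p) {D : ℕ} {c : MvPolynomial (Fin (N + 1)) K}
    (hc : c.IsHomogeneous D) :
    T.WH D (C c : MvPolynomial (Fin q × Fin p) (MvPolynomial (Fin (N + 1)) K)) := by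
  classical
  intro m h0
  rw [coeff_C] at h0 ⊢
  by_cases h : 0 = m
  · rw [if_pos h, ← h]
    exact ⟨D, hc, by simp⟩
  · rw [if_neg h] at h0
    exact absurd rfl h0

theorem R1_WH_prod (T : Tor A q p) {ι : Type*} (s : Finset ι) (D : ι → ℕ)
    (b : ι → MvPolynomial (Fin q × Fin p) (MvPolynomial (Fin (N + 1)) K))
    (hb : ∀ i ∈ s, T.WH (D i) (b i)) : T.WH (∑ i ∈ s, D i) (∏ i ∈ s, b i) := by
  classical
  induction s using Finset.induction_on with
  | empty =>
    rw [Finset.prod_empty, Finset.sum_empty, ← C_1]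
    exact R1_WH_C T (isHomogeneous_one _ _)
  | insert a s ha ih =>
    rw [Finset.prod_insert ha, Finset.sum_insert ha]
    exact R1_WH_mul T (hb a (Finset.mem_insert_self a s))
      (ih fun i hi => hb i (Finset.mem_insert_of_mem hi))

theorem R1_WH_sum (T : Tor A q p) {ι : Type*} (s : Finset ι) (D : ℕ)
    (b : ι → MvPolynomial (Fin q × Fin p) (MvPolynomial (Fin (N + 1)) K))
    (hb : ∀ i ∈ s, T.WH D (b i)) : T.WH D (∑ i ∈ s, b i) := by
  classical
  rw [R1_WH_iff]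
  intro m
  constructor
  · intro δ hδ
    rw [coeff_sum]
    exact IsHomogeneous.sum _ _ _ fun i hi => ((R1_WH_iff T).1 (hb i hi) m).1 δ hδ
  · intro h
    rw [coeff_sum]
    exact Finset.sum_eq_zero fun i hi => ((R1_WH_iff T).1 (hb i hi) m).2 h

theorem R1_WH_unit (T : Tor A q p) (u : ℤˣ) {D : ℕ}
    {b : MvPolynomial (Fin q × Fin p) (MvPolynomial (Fin (N + 1)) K)} (hb : T.WH D b) :
    T.WH D (u • b) := by
  rcases Int.units_eq_one_or u with rfl | rfl
  · rw [one_smul]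
    exact hb
  · rw [Units.neg_smul, one_smul]
    intro m h0
    rw [coeff_neg] at h0 ⊢
    obtain ⟨δ, h1, h2⟩ := hb m (neg_ne_zero.1 h0)
    exact ⟨δ, h1.neg, h2⟩

theorem R1_WH_det (T : Tor A q p) {k : ℕ}
    (M : Matrix (Fin k) (Fin k)
      (MvPolynomial (Fin q × Fin p) (MvPolynomial (Fin (N + 1)) K))) (D : Fin k → ℕ)
    (hM : ∀ i l, T.WH (D i) (M i l)) : T.WH (∑ i, D i) M.det := by
  rw [Matrix.det_apply]
  refine R1_WH_sum T _ _ _ fun σ _ => R1_WH_unit T _ ?_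
  rw [← Equiv.sum_comp σ D]
  exact R1_WH_prod T _ (fun i => D (σ i)) _ fun i _ => hM (σ i) i

theorem R1_ev_eq {L : Type u} [Field L] [Algebra K L] (P : A.Pts L) (y : Fin q × Fin p → L)
    (b : MvPolynomial (Fin q × Fin p) (MvPolynomial (Fin (N + 1)) K)) :
    ev P y b = ∑ m ∈ b.support, aeval (A.x P) (coeff m b) * ∏ i, y i ^ m i := by
  unfold ev
  rw [eval_map, eval₂_eq']
  rfl

theorem R1_y_pos (T : Tor A q p) {L : Type u} [Field L] [Algebra K L] (v : AbsoluteValue L ℝ)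
    {P : A.Pts L} {y : Fin q × Fin p → L} (hy : T.On P y) (i : Fin q) :
    0 < ⨆ c, v (y (i, c)) := by
  obtain ⟨c, hc⟩ := (hy i).1
  exact (v.pos hc).trans_le (Finite.le_ciSup_of_le (f := fun c => v (y (i, c))) c le_rfl)

theorem R1_mon (T : Tor A q p) (v : AbsoluteValue K ℝ) {P : A.Pts K}
    {y : Fin q × Fin p → K} (hy : T.On P y) (m : Fin q × Fin p →₀ ℕ) :
    v (∏ i, y i ^ m i) ≤ Real.exp (wt (T.tau v P y) m) *
      (⨆ j, v (A.x P j)) ^ (∑ i, T.k i.1 * m i) := by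
  have hx := R1_x_pos (A := A) v P
  have h1 : Real.exp (wt (T.tau v P y) m) * (⨆ j, v (A.x P j)) ^ (∑ i, T.k i.1 * m i) =
      ∏ i : Fin q × Fin p, (⨆ c, v (y (i.1, c))) ^ m i := by
    unfold wt
    rw [Real.exp_sum, ← Finset.prod_pow_eq_pow_sum, ← Finset.prod_mul_distrib]
    refine Finset.prod_congr rfl fun i _ => ?_
    rw [Real.exp_nat_mul, pow_mul, ← mul_pow]
    congr 1
    unfold Tor.tau
    rw [Real.exp_sub, Real.exp_log (R1_y_pos T v hy i.1), Real.exp_nat_mul, Real.exp_log hx,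
      div_mul_cancel₀ _ (pow_pos hx _).ne']
  rw [h1, map_prod]
  refine Finset.prod_le_prod (fun i _ => v.nonneg _) fun i _ => ?_
  rw [map_pow]
  exact pow_le_pow_left₀ (v.nonneg _)
    (Finite.le_ciSup_of_le (f := fun c => v (y (i.1, c))) i.2 le_rfl) _

theorem R1_ev (T : Tor A q p) (v : AbsoluteValue K ℝ) {D : ℕ}
    (b : MvPolynomial (Fin q × Fin p) (MvPolynomial (Fin (N + 1)) K)) (hb : T.WH D b) :
    ∃ C : ℝ, 0 ≤ C ∧ ∀ (P : A.Pts K) (y : Fin q × Fin p → K), T.On P y → ∀ h : ℝ,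
      (∀ m ∈ b.support, wt (T.tau v P y) m ≤ h) →
        v (ev P y b) ≤ C * (⨆ i, v (A.x P i)) ^ D * Real.exp h := by
  classical
  have h0 : ∀ m : Fin q × Fin p →₀ ℕ, ∃ c : ℝ, 0 ≤ c ∧ (coeff m b ≠ 0 →
      ∃ δ, δ + ∑ i, T.k i.1 * m i = D ∧
        ∀ x : Fin (N + 1) → K, v (aeval x (coeff m b)) ≤ c * (⨆ i, v (x i)) ^ δ) := by
    intro m
    by_cases hm : coeff m b = 0
    · exact ⟨0, le_rfl, fun h => absurd hm h⟩
    · obtain ⟨δ, h1, h2⟩ := hb m hm
      obtain ⟨c, hc, hc'⟩ := R1_form (N := N) v h1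
      exact ⟨c, hc, fun _ => ⟨δ, h2, hc'⟩⟩
  choose c hc0 hc using h0
  refine ⟨∑ m ∈ b.support, c m, Finset.sum_nonneg fun m _ => hc0 m, ?_⟩
  intro P y hy h hh
  have hx := R1_x_pos (A := A) v P
  rw [R1_ev_eq]
  refine (v.sum_le _ _).trans ?_
  rw [Finset.sum_mul, Finset.sum_mul]
  refine Finset.sum_le_sum fun m hm => ?_
  obtain ⟨δ, h1, h2⟩ := hc m (mem_support_iff.1 hm)
  rw [map_mul, ← h1, pow_add]
  have h3 := R1_mon T v hy m
  have h4 := Real.exp_le_exp.2 (hh m hm)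
  calc v (aeval (A.x P) (coeff m b)) * v (∏ i, y i ^ m i)
      ≤ (c m * (⨆ i, v (A.x P i)) ^ δ) * (Real.exp (wt (T.tau v P y) m) *
        (⨆ j, v (A.x P j)) ^ (∑ i, T.k i.1 * m i)) :=
        mul_le_mul (h2 _) h3 (v.nonneg _) (mul_nonneg (hc0 m) (pow_nonneg hx.le _))
    _ ≤ (c m * (⨆ i, v (A.x P i)) ^ δ) * (Real.exp h *
        (⨆ j, v (A.x P j)) ^ (∑ i, T.k i.1 * m i)) :=
        mul_le_mul_of_nonneg_left (mul_le_mul_of_nonneg_right h4 (pow_nonneg hx.le _))
          (mul_nonneg (hc0 m) (pow_nonneg hx.le _))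
    _ = c m * ((⨆ i, v (A.x P i)) ^ δ * (⨆ i, v (A.x P i)) ^ (∑ i, T.k i.1 * m i)) *
        Real.exp h := by ring

theorem R1_le_max {n : ℕ} {S : Type*} [CommRing S] (τ : Fin q → ℝ)
    (Λ : Fin n → MvPolynomial (Fin q × Fin p) S) (l : Fin n) :
    ∀ m ∈ (Λ l).support, wt τ m ≤ maxWt τ Λ := by
  classical
  intro m hm
  have h1 : m ∈ supp Λ := by
    unfold supp
    exact Finset.mem_biUnion.2 ⟨l, Finset.mem_univ l, hm⟩
  exact Finite.le_ciSup_of_le (f := fun m : supp Λ => wt τ (m : Fin q × Fin p →₀ ℕ)) ⟨m, h1⟩ le_rfl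

theorem R_ge (T : Tor A q p) {n : ℕ} (v : AbsoluteValue K ℝ) {D : ℕ}
    (Λ : Fin n → MvPolynomial (Fin q × Fin p) (MvPolynomial (Fin (N + 1)) K))
    (hΛ : ∀ l, T.WH D (Λ l)) :
    ∃ C : ℝ, ∀ (P : A.Pts K) (y : Fin q × Fin p → K), T.On P y → ∀ Z : Fin n → K,
      (∑ l, ev P y (Λ l) * Z l) ≠ 0 → -C ≤ T.lam v D Λ P y Z := by
  choose c hc0 hc using fun l => R1_ev T v (Λ l) (hΛ l)
  refine ⟨Real.log (1 + ∑ l, c l), ?_⟩
  intro P y hy Z hne
  have hZ : Z ≠ 0 := by
    intro h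
    apply hne
    rw [h]
    simp
  have hx := R1_x_pos (A := A) v P
  have hz := R1_z_pos v hZ
  have hs : 0 ≤ ∑ l, c l := Finset.sum_nonneg fun l _ => hc0 l
  have h1 : v (∑ l, ev P y (Λ l) * Z l) ≤ (1 + ∑ l, c l) * (⨆ i, v (A.x P i)) ^ D *
      Real.exp (maxWt (T.tau v P y) Λ) * ⨆ l, v (Z l) := by
    refine (v.sum_le _ _).trans ?_
    have h2 : ∑ l, v (ev P y (Λ l) * Z l) ≤ ∑ l, c l * (⨆ i, v (A.x P i)) ^ D *
        Real.exp (maxWt (T.tau v P y) Λ) * ⨆ l, v (Z l) := by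
      refine Finset.sum_le_sum fun l _ => ?_
      rw [map_mul]
      have h3 := hc l P y hy _ (R1_le_max (T.tau v P y) Λ l)
      exact mul_le_mul h3 (Finite.le_ciSup_of_le (f := fun l => v (Z l)) l le_rfl) (v.nonneg _)
        ((v.nonneg _).trans h3)
    refine h2.trans ?_
    rw [← Finset.sum_mul, ← Finset.sum_mul, ← Finset.sum_mul]
    have h4 : 0 ≤ (⨆ i, v (A.x P i)) ^ D *
      Real.exp (maxWt (T.tau v P y) Λ) * ⨆ l, v (Z l) := by positivity
    nlinarith
  have h5 : 0 < v (∑ l, ev P y (Λ l) * Z l) := v.pos hne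
  have h6 := Real.log_le_log h5 h1
  have h7 : (0 : ℝ) < 1 + ∑ l, c l := by linarith
  rw [Real.log_mul (by positivity) hz.ne', Real.log_mul (by positivity) (Real.exp_pos _).ne',
    Real.log_mul h7.ne' (pow_pos hx _).ne', Real.log_exp, Real.log_pow] at h6
  unfold Tor.lam
  linarith

end

end Pool.Agent.Lib.MP_17a322_nt.TB
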