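import Pool.Agent.Lib.MP_17a322_nt.TB.T0

/-!
Moving hyperplanes over principal torus bundles: completion of the forms by coordinates.
-/

universe u

namespace Pool.Agent.Lib.MP_17a322_nt.TB

open MvPolynomial Height
open Pool.Agent.Lib.MP_17a322_nt.VA
open Pool.Agent.Lib.MP_17a322_nt.SL
open Pool.Agent.Lib.MP_17a322_nt.SG (Bx toF Ix IndB shf)

/-- Scaling of the columns. -/
theorem li_scale {F : Type*} [Field F] {ι κ : Type*} (c : κ → F) (hc : ∀ x, c x ≠ 0)
    (w : ι → κ → F) :
    LinearIndependent F (fun i x => c x * w i x) ↔ LinearIndependent F w := by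
  have h1 : (fun i x => c x * w i x) =
      (LinearMap.pi fun x => c x • LinearMap.proj x : (κ → F) →ₗ[F] (κ → F)) ∘ w := by
    funext i x
    rfl
  rw [h1]
  refine LinearMap.linearIndependent_iff _ (LinearMap.ker_eq_bot.2 fun u u' h => ?_)
  funext x
  have h2 : c x * u x = c x * u' x := congrFun h x
  exact mul_left_cancel₀ (hc x) h2

theorem li_congr {R M ι : Type*} [Ring R] [AddCommGroup M] [Module R M] {v v' : ι → M}
    (h : LinearIndependent R v) (e : ∀ i, v' i = v i) : LinearIndependent R v' := by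
  rw [show v' = v from funext e]
  exact h

section

variable {K : Type u} [Field K] {N q p : ℕ} {A : AV K N} (T : Tor A q p) {g n r s : ℕ}

/-- The rows of `G` are independent if some `T.Ind` holds. -/
theorem T_G {G : Matrix (Fin g) (Fin n) (MvPolynomial (Fin (N + 1)) K)}
    {Λ : Matrix (Fin s) (Fin n) (MvPolynomial (Fin q × Fin p) (MvPolynomial (Fin (N + 1)) K))}
    {τ : Fin q → ℝ} {J : Finset (Fin s)} (hJ : T.Ind G Λ τ J) {L : Type u} [Field L]
    [Algebra K L] (P : A.Pts L) (hP : Gen A P) :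
    LinearIndependent L (fun i l => aeval (A.x P) (G i l)) := by
  have h1 := (hJ L P hP).comp Sum.inl Sum.inl_injective
  rw [Fintype.linearIndependent_iff] at h1 ⊢
  intro c hc i
  have h2 := h1 (fun i => C (c i)) (by
    funext l
    have h3 := congrFun hc l
    rw [Finset.sum_apply, Pi.zero_apply] at h3 ⊢
    have h4 : ∀ i, ((C (c i) : MvPolynomial (Fin q) L) •
        ((Sum.elim (fun (i : Fin g) (l : Fin n) => (C (aeval (A.x P) (G i l)) :
          MvPolynomial (Fin q) L)) fun (j : J) (l : Fin n) =>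
            T.sp P (partWt τ (maxWt τ (Λ j)) (Λ j l))) ∘ Sum.inl) i) l =
        C (c i * aeval (A.x P) (G i l)) := by
      intro i
      rw [Pi.smul_apply, smul_eq_mul, C_mul]
      rfl
    rw [Finset.sum_congr rfl fun i _ => h4 i, ← map_sum]
    have h5 : ∑ i, c i * aeval (A.x P) (G i l) = 0 := h3
    rw [h5, C_0]) i
  exact C_injective _ _ (h2.trans C_0.symm)

theorem LamT_inl {M d : ℕ} (k : Fin q → ℕ) (a : Fin (N + 1)) (ch : Fin q → Fin p) (D : ℕ)
    (Λ : Matrix (Fin s) (Fin n) (MvPolynomial (Fin q × Fin p) (MvPolynomial (Fin (N + 1)) K)))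
    (z : Fin s × Bx q (M - d)) (x : Cx N q p M n) :
    LamT (M := M) (d := d) k a ch D Λ (Sum.inl z) x = (open Classical in
      if x.2.1.1 = a ∧ Mt x.1 x.2.1.2 then
        coeff (toK x.2.1.2) (monomial (mch ch z.2) 1 * Λ z.1 x.2.2) *
          X a ^ (∑ i, k i * (x.1 i - z.2 i : ℕ)) else 0) := rfl

theorem LamT_inr {M d : ℕ} (k : Fin q → ℕ) (a : Fin (N + 1)) (ch : Fin q → Fin p) (D : ℕ)
    (Λ : Matrix (Fin s) (Fin n) (MvPolynomial (Fin q × Fin p) (MvPolynomial (Fin (N + 1)) K)))
    (z : Bx q M × Fin n) (x : Cx N q p M n) :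
    LamT (M := M) (d := d) k a ch D Λ (Sum.inr z) x = (open Classical in
      if x.2.1.1 = a ∧ x.1 = z.1 ∧ toK x.2.1.2 = mch ch z.1 ∧ x.2.2 = z.2 then X a ^ D
        else 0) := rfl

theorem wB_eq (M : ℕ) (b : Bx q M) (κ : Kp N q p M) :
    wB T M b κ = (open Classical in
      if Mt b κ.2 then X κ.1 ^ ex T.k b * ∏ i, T.η i.1 i.2 ^ (κ.2 i : ℕ) else 0) := rfl

theorem LamT_hom {D M d : ℕ} (a : Fin (N + 1)) (ch : Fin q → Fin p)
    {Λ : Matrix (Fin s) (Fin n) (MvPolynomial (Fin q × Fin p) (MvPolynomial (Fin (N + 1)) K))}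
    (hΛ : ∀ j l, T.WH D (Λ j l)) (j : Ix q M d n s) (x : Cx N q p M n) :
    (LamT (M := M) (d := d) T.k a ch D Λ j x).IsHomogeneous D := by
  classical
  rcases j with z | z
  · rw [LamT_inl]
    split_ifs with h
    · by_cases h1 : mch ch z.2 ≤ toK x.2.1.2
      · rw [coeff_monomial_mul', if_pos h1, one_mul]
        by_cases h2 : coeff (toK x.2.1.2 - mch ch z.2) (Λ z.1 x.2.2) = 0
        · rw [h2, zero_mul]
          exact isHomogeneous_zero _ _ _
        · obtain ⟨δ, h3, h4⟩ := hΛ z.1 x.2.2 _ h2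
          have h5 := (isHomogeneous_X K a).pow (∑ i, T.k i * (x.1 i - z.2 i : ℕ))
          rw [one_mul] at h5
          have h6 := h3.mul h5
          have h7 : ∑ i, T.k i * (x.1 i - z.2 i : ℕ) =
              ∑ i : Fin q × Fin p, T.k i.1 * (toK x.2.1.2 - mch ch z.2) i := by
            rw [Fintype.sum_prod_type]
            refine Finset.sum_congr rfl fun i _ => ?_
            have h8 : yd (toK x.2.1.2) = yd (toK x.2.1.2 - mch ch z.2) + toF z.2 := by
              rw [← yd_mch ch z.2, ← yd_add, tsub_add_cancel_of_le h1]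
            have h9 := DFunLike.congr_fun h8 i
            rw [(mt_iff _ _).1 h.2, Finsupp.add_apply, yd_apply, SG.L3_toF_apply,
              SG.L3_toF_apply] at h9
            rw [h9, Nat.add_sub_cancel, Finset.mul_sum]
          rw [h7, h4] at h6
          rw [h7]
          exact h6
      · rw [coeff_monomial_mul', if_neg h1, zero_mul]
        exact isHomogeneous_zero _ _ _
    · exact isHomogeneous_zero _ _ _
  · rw [LamT_inr]
    split_ifs
    · have h1 := (isHomogeneous_X K a).pow D
      rwa [one_mul] at h1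
    · exact isHomogeneous_zero _ _ _

/-- The form `u ^ m Λ_j` on the vectors `w b κ * Z b l`. -/
theorem red_inl {D M d : ℕ} (a : Fin (N + 1)) (ch : Fin q → Fin p)
    (Λ : Matrix (Fin s) (Fin n) (MvPolynomial (Fin q × Fin p) (MvPolynomial (Fin (N + 1)) K)))
    {L : Type u} [Field L] [Algebra K L] (P : A.Pts L) (j : Fin s) (m : Bx q (M - d))
    (x : Bx q M × Fin n) :
    aeval (A.x P) (red (wB T M) (LamT (M := M) (d := d) T.k a ch D Λ (Sum.inl (j, m))) x) =
      (A.x P a ^ (∑ i, T.k i * (M - m i)) *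
        ∏ i, aeval (A.x P) (T.η i (ch i)) ^ (m i : ℕ)) *
        shf (fun l => T.sp P (Λ j l)) m x := by
  classical
  obtain ⟨b, l⟩ := x
  obtain ⟨φ, hφ⟩ : ∃ φ : MvPolynomial (Fin (N + 1)) K →+* L,
    φ = (aeval (A.x P) : MvPolynomial (Fin (N + 1)) K →ₐ[K] L).toRingHom := ⟨_, rfl⟩
  have hφ' : ∀ z, aeval (A.x P) z = φ z := fun z => by rw [hφ]; rfl
  obtain ⟨y, hy⟩ : ∃ y : Fin q × Fin p → L, ∀ i, y i = φ (T.η i.1 i.2) := ⟨_, fun i => rfl⟩
  have hsp : ∀ b, T.sp P b = spR φ y b := by
    intro b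
    rw [sp_eq, hφ]
    congr 2
    funext i
    rw [hy, hφ]
    rfl
  simp only [hφ', hsp]
  obtain ⟨Q, hQ⟩ : ∃ Q, Q = monomial (mch ch m) 1 * Λ j l := ⟨_, rfl⟩
  -- the sum over the exponents
  have h1 : φ (red (wB T M) (LamT (M := M) (d := d) T.k a ch D Λ (Sum.inl (j, m))) (b, l)) =
      A.x P a ^ (∑ i, T.k i * (M - m i)) *
        ∑ μ : Fin q × Fin p → Fin (M + 1),
          if yd (toK μ) = toF b then φ (coeff (toK μ) Q) * ∏ i, y i ^ (toK μ) i else 0 := by
    unfold red
    rw [map_sum, Fintype.sum_prod_type, Finset.sum_eq_single a]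
    · rw [Finset.mul_sum]
      refine Finset.sum_congr rfl fun μ _ => ?_
      rw [LamT_inl, wB_eq]
      by_cases hM : Mt b μ
      · have hM' := (mt_iff b μ).1 hM
        rw [if_pos ⟨rfl, hM⟩, if_pos hM, if_pos hM', ← hQ]
        by_cases h0 : coeff (toK μ) Q = 0
        · rw [h0, zero_mul, zero_mul, map_zero, zero_mul, mul_zero]
        · have hle : ∀ i, (m i : ℕ) ≤ b i := by
            intro i
            have h2 : mch ch m ≤ toK μ := by
              by_contra hcon
              apply h0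
              rw [hQ, coeff_monomial_mul', if_neg hcon]
            have h3 : yd (toK μ) = yd (toK μ - mch ch m) + toF m := by
              rw [← yd_mch ch m, ← yd_add, tsub_add_cancel_of_le h2]
            have h4 := DFunLike.congr_fun h3 i
            rw [hM', Finsupp.add_apply, SG.L3_toF_apply, SG.L3_toF_apply] at h4
            omega
          have h5 : ∑ i, T.k i * (M - m i) = ∑ i, T.k i * (b i - m i : ℕ) + ex T.k b := by
            unfold ex
            rw [← Finset.sum_add_distrib]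
            refine Finset.sum_congr rfl fun i _ => ?_
            rw [← mul_add]
            have h6 := hle i
            have h7 : (b i : ℕ) ≤ M := Nat.lt_succ_iff.1 (b i).2
            congr 1
            omega
          rw [h5, pow_add, map_mul, map_mul, map_mul, map_pow, map_pow, map_prod]
          have h6 : φ (X a) = A.x P a := by rw [hφ]; exact aeval_X _ _
          rw [h6]
          have h7 : ∀ i : Fin q × Fin p, φ (T.η i.1 i.2 ^ (μ i : ℕ)) = y i ^ (toK μ) i := by
            intro i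
            rw [map_pow, hy]
            rfl
          rw [Finset.prod_congr rfl fun i _ => h7 i]
          ring
      · have hM' : ¬ yd (toK μ) = toF b := fun h => hM ((mt_iff b μ).2 h)
        rw [if_neg fun h => hM h.2, if_neg hM', zero_mul, map_zero, mul_zero]
    · intro a' _ ha'
      refine Finset.sum_eq_zero fun μ _ => ?_
      rw [LamT_inl, if_neg fun h => ha' h.1, zero_mul, map_zero]
    · intro h
      exact absurd (Finset.mem_univ _) h
  rw [h1, mul_assoc]
  congr 1
  -- the coefficient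
  have h2 : (∑ μ : Fin q × Fin p → Fin (M + 1),
      if yd (toK μ) = toF b then φ (coeff (toK μ) Q) * ∏ i, y i ^ (toK μ) i else 0) =
      coeff (toF b) (spR φ y Q) := by
    rw [spR_coeff]
    have h3 : ∀ μ ∈ Q.support, yd μ = toF b →
        μ ∈ Finset.univ.image (toK : (Fin q × Fin p → Fin (M + 1)) → _) := by
      intro μ _ h4
      obtain ⟨μ', hμ'⟩ := toK_surj (M := M) (μ := μ) fun i => by
        rw [h4]
        exact Nat.lt_succ_iff.1 (b i).2
      exact Finset.mem_image.2 ⟨μ', Finset.mem_univ _, hμ'⟩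
    rw [← Finset.sum_image (f := fun μ => if yd μ = toF b then
      φ (coeff μ Q) * ∏ i, y i ^ μ i else 0) fun _ _ _ _ h => toK_inj h]
    have h4 : ∀ s : Finset (Fin q × Fin p →₀ ℕ), (∑ μ ∈ s, if yd μ = toF b then
        φ (coeff μ Q) * ∏ i, y i ^ μ i else 0) = ∑ μ ∈ s.filter fun μ => yd μ = toF b,
          φ (coeff μ Q) * ∏ i, y i ^ μ i := fun s => (Finset.sum_filter _ _).symm
    rw [h4, h4]
    symm
    refine Finset.sum_subset ?_ ?_
    · intro μ hμ
      rw [Finset.mem_filter] at hμ ⊢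
      exact ⟨h3 μ hμ.1 hμ.2, hμ.2⟩
    · intro μ hμ hμ'
      rw [Finset.mem_filter] at hμ hμ'
      have h5 : μ ∉ Q.support := fun h => hμ' ⟨h, hμ.2⟩
      rw [notMem_support_iff.1 h5, map_zero, zero_mul]
  rw [h2, hQ, map_mul, spR_monomial, yd_mch, map_one, one_mul]
  unfold shf
  have h3 : ∏ i, y i ^ mch ch m i = ∏ i, φ (T.η i (ch i)) ^ (m i : ℕ) := by
    rw [Fintype.prod_prod_type]
    refine Finset.prod_congr rfl fun i _ => ?_
    rw [Finset.prod_eq_single (ch i)]
    · rw [mch_apply, if_pos rfl, hy]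
    · intro c _ hc
      rw [mch_apply, if_neg hc, pow_zero]
    · intro h
      exact absurd (Finset.mem_univ _) h
  rw [h3]
  have h4 : (monomial (toF m) (∏ i, φ (T.η i (ch i)) ^ (m i : ℕ)) : MvPolynomial (Fin q) L) =
      C (∏ i, φ (T.η i (ch i)) ^ (m i : ℕ)) * monomial (toF m) 1 := by
    rw [C_mul_monomial, mul_one]
  rw [h4, mul_assoc, coeff_C_mul]

theorem mt_mch {M : ℕ} (ch : Fin q → Fin p) (m : Bx q M) :
    ∃ μ : Fin q × Fin p → Fin (M + 1), toK μ = mch ch m := by
  refine toK_surj fun i => ?_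
  rw [yd_mch]
  exact Nat.lt_succ_iff.1 (m i).2

/-- The coordinates on the vectors `w b κ * Z b l`. -/
theorem red_inr {D M d : ℕ} (a : Fin (N + 1)) (ch : Fin q → Fin p)
    (Λ : Matrix (Fin s) (Fin n) (MvPolynomial (Fin q × Fin p) (MvPolynomial (Fin (N + 1)) K)))
    {L : Type u} [Field L] [Algebra K L] (P : A.Pts L) (z x : Bx q M × Fin n) :
    aeval (A.x P) (red (wB T M) (LamT (M := M) (d := d) T.k a ch D Λ (Sum.inr z)) x) =
      if x = z then A.x P a ^ D * (A.x P a ^ ex T.k z.1 *
        ∏ i, aeval (A.x P) (T.η i (ch i)) ^ (z.1 i : ℕ)) else 0 := by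
  classical
  obtain ⟨μ₀, hμ₀⟩ := mt_mch (p := p) ch z.1
  unfold red
  rw [map_sum, Finset.sum_eq_single ((a, μ₀) : Kp N q p M)]
  · rw [LamT_inr, wB_eq]
    by_cases h1 : x = z
    · subst h1
      have hM : Mt x.1 μ₀ := (mt_iff _ _).2 (by rw [hμ₀, yd_mch])
      rw [if_pos rfl, if_pos ⟨rfl, rfl, hμ₀, rfl⟩, if_pos hM, map_mul, map_mul,
        map_pow, map_pow, aeval_X, map_prod]
      congr 2
      rw [Fintype.prod_prod_type]
      refine Finset.prod_congr rfl fun i _ => ?_
      have h2 : ∀ c, (μ₀ (i, c) : ℕ) = if c = ch i then (x.1 i : ℕ) else 0 := fun c =>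
        DFunLike.congr_fun hμ₀ (i, c)
      rw [Finset.prod_eq_single (ch i)]
      · rw [h2, if_pos rfl, map_pow]
      · intro c _ hc
        rw [h2, if_neg hc, pow_zero, map_one]
      · intro h
        exact absurd (Finset.mem_univ _) h
    · rw [if_neg h1, if_neg fun h => h1 (Prod.ext h.2.1 h.2.2.2), zero_mul, map_zero]
  · intro κ _ hκ
    rw [LamT_inr, if_neg fun h => hκ (Prod.ext h.1 (toK_inj (h.2.2.1.trans hμ₀.symm))), zero_mul, map_zero]
  · intro h
    exact absurd (Finset.mem_univ _) h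

theorem T_main {D D' M d : ℕ} (hgr : g + r = n) (hdM : d ≤ M)
    (G : Matrix (Fin g) (Fin n) (MvPolynomial (Fin (N + 1)) K))
    (hG : ∀ i l, (G i l).IsHomogeneous D')
    (Λ : Matrix (Fin s) (Fin n) (MvPolynomial (Fin q × Fin p) (MvPolynomial (Fin (N + 1)) K)))
    (hΛ : ∀ j l, T.WH D (Λ j l))
    (hd : ∀ j l, ∀ m ∈ (Λ j l).support, ∀ i, ∑ c, m (i, c) ≤ d) (τ : Fin q → ℝ)
    (J : Finset (Fin s)) (hJ : T.Ind G Λ τ J) :
    ∃ W : Finset (Bx q M × Fin n),
      (∀ (a : Fin (N + 1)) (ch : Fin q → Fin p),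
        (X a : MvPolynomial (Fin (N + 1)) K) ∉ A.I → (∀ i, T.η i (ch i) ∉ A.I) →
        IndB A (Bx q M) G (fun j => red (wB T M) (LamT (M := M) (d := d) T.k a ch D Λ j))
          ((J ×ˢ Finset.univ).disjSum W)) ∧
      W.card + J.card * (M - d + 1) ^ q = r * (M + 1) ^ q ∧
      ∑ j ∈ J, ∑ m : Bx q (M - d), (SG.wt τ (toF m) + maxWt τ (Λ j)) +
          ∑ z ∈ W, SG.wt τ (toF z.1) =
        r * ∑ m : Bx q M, SG.wt τ (toF m) := by
  classical
  obtain ⟨L, _, _, _, P₀, hP₀⟩ := EF.T_gen A
  have h1 := hJ L P₀ hP₀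
  obtain ⟨W, hW, hWc, hWs⟩ := SG.L_main hdM τ (Matrix.of fun i l => aeval (A.x P₀) (G i l))
    (fun j l => T.sp P₀ (Λ j l))
    (fun j l m hm i => by
      rw [sp_eq] at hm
      obtain ⟨μ, hμ, rfl⟩ := spR_support _ _ _ hm
      exact hd j l μ hμ i) (fun j => maxWt τ (Λ j))
    (fun j l m hm => by
      rw [sp_eq] at hm
      obtain ⟨μ, hμ, rfl⟩ := spR_support _ _ _ hm
      rw [wt_yd]
      exact le_maxWt τ (Λ j) hμ) J (by
      have h2 : (fun (j : J) (l : Fin n) =>
          SG.partWt τ (maxWt τ (Λ j)) (T.sp P₀ (Λ j l))) =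
          fun (j : J) (l : Fin n) => T.sp P₀ (partWt τ (maxWt τ (Λ j)) (Λ j l)) := by
        funext j l
        rw [sp_eq, sp_eq, spR_partWt]
      rw [h2]
      exact h1)
  refine ⟨W, ?_, ?_, ?_⟩
  · intro a ch ha hch
    have hxa : A.x P₀ a ≠ 0 := by
      have h2 := T_gen_ne hP₀ (isHomogeneous_X K a) ha
      rwa [aeval_X] at h2
    have hη : ∀ i, aeval (A.x P₀) (T.η i (ch i)) ≠ 0 := fun i =>
      T_gen_ne hP₀ (T.hom i (ch i)) (hch i)
    have hy : ∀ i : ((J ×ˢ Finset.univ).disjSum W : Finset (Ix q M d n s)),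
        ∃ y : (J × Bx q (M - d)) ⊕ W,
          Sum.map (fun p : J × Bx q (M - d) => ((p.1 : Fin s), p.2)) (fun p : W => p.1) y = i.1 := by
      rintro ⟨i, hi⟩
      rcases i with p | p
      · have h2 := Finset.inl_mem_disjSum.1 hi
        rw [Finset.mem_product] at h2
        exact ⟨Sum.inl (⟨p.1, h2.1⟩, p.2), rfl⟩
      · have h2 := Finset.inr_mem_disjSum.1 hi
        exact ⟨Sum.inr ⟨p, h2⟩, rfl⟩
    choose y hy using hy
    have hyi : Function.Injective y := by
      intro i i' h
      refine Subtype.ext ?_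
      rw [← hy i, ← hy i', h]
    obtain ⟨uu, huu⟩ : ∃ uu : (J × Bx q (M - d)) ⊕ W → Lˣ, ∀ z, (uu z : L) =
        Sum.elim (fun z : J × Bx q (M - d) => A.x P₀ a ^ (∑ i, T.k i * (M - z.2 i)) *
            ∏ i, aeval (A.x P₀) (T.η i (ch i)) ^ (z.2 i : ℕ))
          (fun z : W => A.x P₀ a ^ D * (A.x P₀ a ^ ex T.k z.1.1 *
            ∏ i, aeval (A.x P₀) (T.η i (ch i)) ^ (z.1.1 i : ℕ))) z := by
      refine ⟨fun z => Units.mk0 _ ?_, fun z => rfl⟩
      rcases z with z | z
      · exact mul_ne_zero (pow_ne_zero _ hxa)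
          (Finset.prod_ne_zero_iff.2 fun i _ => pow_ne_zero _ (hη i))
      · exact mul_ne_zero (pow_ne_zero _ hxa) (mul_ne_zero (pow_ne_zero _ hxa)
          (Finset.prod_ne_zero_iff.2 fun i _ => pow_ne_zero _ (hη i)))
    -- the degrees of the columns
    obtain ⟨E, hE⟩ : ∃ E : Bx q M → ℕ, ∀ b, E b = ex T.k b + ∑ i, T.e i * b i :=
      ⟨_, fun b => rfl⟩
    obtain ⟨Et, hEt⟩ : ∃ Et : ℕ, Et = ∑ b, E b := ⟨_, rfl⟩
    have hEle : ∀ b, E b ≤ Et := fun b => by
      rw [hEt]
      exact Finset.single_le_sum (f := E) (fun _ _ => Nat.zero_le _) (Finset.mem_univ b)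
    obtain ⟨fam, hfam⟩ : ∃ fam : (Bx q M × Fin g) ⊕
        ((J ×ˢ Finset.univ).disjSum W : Finset (Ix q M d n s)) → Bx q M × Fin n →
          MvPolynomial (Fin (N + 1)) K, fam =
        Sum.elim (fun (p : Bx q M × Fin g) (x : Bx q M × Fin n) =>
            if p.1 = x.1 then G p.2 x.2 else 0)
          (fun (j : ((J ×ˢ Finset.univ).disjSum W : Finset (Ix q M d n s))) x =>
            red (wB T M) (LamT (M := M) (d := d) T.k a ch D Λ j.1) x) := ⟨_, rfl⟩
    have hLI : LinearIndependent L (fun i x => aeval (A.x P₀) (fam i x)) := by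
      have h2 := (hW.comp (Sum.map id y) (Function.injective_id.sumMap hyi)).units_smul
        (Sum.elim (fun _ => 1) fun i => uu (y i))
      refine li_congr h2 ?_
      intro i
      funext x
      rw [hfam]
      rcases i with z | i
      · simp only [Pi.smul_apply', Function.comp_apply, Sum.map_inl, Sum.elim_inl, id, one_smul]
        split_ifs
        · rfl
        · rw [map_zero]
      · simp only [Pi.smul_apply', Function.comp_apply, Sum.map_inr, Sum.elim_inr]
        have h3 := hy i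
        rcases h4 : y i with z | z
        · rw [h4] at h3
          rw [← h3]
          simp only [Sum.elim_inl, Sum.map_inl]
          rw [red_inl, Pi.smul_apply, Units.smul_def, huu]
          rfl
        · rw [h4] at h3
          rw [← h3]
          simp only [Sum.elim_inr, Sum.map_inr]
          rw [red_inr, Pi.smul_apply, Units.smul_def, huu]
          simp only [Sum.elim_inr]
          split_ifs with h5
          · rw [smul_eq_mul, mul_one]
          · rw [smul_eq_mul, mul_zero]
    intro L' _ _ P hP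
    have hxa' : A.x P a ≠ 0 := by
      have h2 := T_gen_ne hP (isHomogeneous_X K a) ha
      rwa [aeval_X] at h2
    have hLI2 := (li_scale (fun x : Bx q M × Fin n => A.x P₀ a ^ (Et - E x.1))
      (fun x => pow_ne_zero _ hxa) _).2 hLI
    have hLI3 : LinearIndependent L fun i (x : Bx q M × Fin n) =>
        aeval (A.x P₀) (X a ^ (Et - E x.1) * fam i x) := by
      refine li_congr hLI2 fun i => ?_
      funext x
      rw [map_mul, map_pow, aeval_X]
    have h2 := EF.T_li A (fun i (x : Bx q M × Fin n) => X a ^ (Et - E x.1) * fam i x)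
      (Sum.elim (fun z => Et - E z.1 + D') fun _ => Et + D) (by
        intro i x
        have h3 := (isHomogeneous_X K a).pow (Et - E x.1)
        rw [one_mul] at h3
        rw [hfam]
        rcases i with z | j
        · simp only [Sum.elim_inl]
          split_ifs with h4
          · rw [h4]
            exact h3.mul (hG _ _)
          · rw [mul_zero]
            exact isHomogeneous_zero _ _ _
        · simp only [Sum.elim_inr]
          unfold red
          rw [Finset.mul_sum]
          refine IsHomogeneous.sum _ _ _ fun κ _ => ?_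
          have h4 := h3.mul ((LamT_hom T a ch hΛ j.1 (x.1, κ, x.2)).mul (wB_hom T M x.1 κ))
          have h5 : Et - E x.1 + (D + (ex T.k x.1 + ∑ i, T.e i * x.1 i)) = Et + D := by
            rw [← hE]
            have := hEle x.1
            omega
          rw [h5] at h4
          exact h4) P₀ P hP₀ hP hLI3
    have h3 : LinearIndependent L' fun i (x : Bx q M × Fin n) => aeval (A.x P) (fam i x) := by
      refine (li_scale (fun x : Bx q M × Fin n => A.x P a ^ (Et - E x.1))
        (fun x => pow_ne_zero _ hxa') _).1 (li_congr h2 fun i => ?_)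
      funext x
      rw [map_mul, map_pow, aeval_X]
    refine li_congr h3 ?_
    intro i
    funext x
    rw [hfam]
    rcases i with z | j
    · simp only [Sum.elim_inl]
      split_ifs
      · rfl
      · rw [map_zero]
    · rfl
  · subst hgr
    rw [add_mul] at hWc
    linarith
  · subst hgr
    rw [hWs]
    push_cast
    ring

end

end Pool.Agent.Lib.MP_17a322_nt.TB
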