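import Pool.Agent.Lib.MP_17a322_nt.TB.V1

/-!
Moving hyperplanes over principal torus bundles over `A`: the inequality at one place.
-/

universe u

namespace Pool.Agent.Lib.MP_17a322_nt.TB

open MvPolynomial Height
open Pool.Agent.Lib.MP_17a322_nt.VA
open Pool.Agent.Lib.MP_17a322_nt.SL
open Pool.Agent.Lib.MP_17a322_nt.SG (Bx toF Ix IndB)

section

variable {K : Type u} [Field K] {N q p : ℕ} {A : AV K N} (T : Tor A q p) {g n r s : ℕ}

theorem V_x_pos (v : AbsoluteValue K ℝ) (P : A.Pts K) : 0 < ⨆ j, v (A.x P j) := by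
  obtain ⟨a, ha⟩ : ∃ a, A.x P a ≠ 0 := by
    by_contra hcon
    push Not at hcon
    exact P.1.rep_nonzero (funext hcon)
  exact (v.pos ha).trans_le (le_ciSup (f := fun j => v (A.x P j)) (Set.finite_range _).bddAbove a)

theorem V_y_pos (v : AbsoluteValue K ℝ) {P : A.Pts K} {y : Fin q × Fin p → K} (hy : T.On P y)
    (i : Fin q) : 0 < ⨆ c, v (y (i, c)) := by
  obtain ⟨⟨c, hc⟩, -⟩ := hy i
  exact (v.pos hc).trans_le (le_ciSup (f := fun c => v (y (i, c))) (Set.finite_range _).bddAbove c)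

/-- The values of the monomials, in terms of the norms. -/
theorem V_log (v : AbsoluteValue K ℝ) {M : ℕ} {P : A.Pts K} {y : Fin q × Fin p → K}
    (hy : T.On P y) (m : Bx q M) :
    Real.log ((⨆ j, v (A.x P j)) ^ ex T.k m * ∏ i, (⨆ c, v (y (i, c))) ^ (m i : ℕ)) =
      M * ∑ i, T.k i * Real.log (⨆ j, v (A.x P j)) + SG.wt (T.tau v P y) (toF m) := by
  have hx := V_x_pos v P
  rw [Real.log_mul (pow_pos hx _).ne'
    (Finset.prod_pos fun i _ => pow_pos (V_y_pos T v hy i) _).ne', Real.log_pow,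
    Real.log_prod fun i _ => (pow_pos (V_y_pos T v hy i) _).ne']
  unfold ex SG.wt
  rw [Nat.cast_sum, Finset.sum_mul, Finset.mul_sum, ← Finset.sum_add_distrib,
    ← Finset.sum_add_distrib]
  refine Finset.sum_congr rfl fun i _ => ?_
  rw [Real.log_pow, SG.toF_apply]
  have h1 : (m i : ℕ) ≤ M := Nat.lt_succ_iff.1 (m i).2
  unfold Tor.tau
  rw [Nat.cast_mul, Nat.cast_sub h1]
  ring

theorem V_phi (v : AbsoluteValue K ℝ) (M : ℕ) (P : A.Pts K) {y : Fin q × Fin p → K}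
    (hy : T.On P y) {Z : Fin n → K} (hZ : Z ≠ 0) :
    Real.log (⨆ x, v (phi T.k M (A.x P) y Z x)) = Real.log (⨆ l, v (Z l)) +
      M * ∑ i, (T.k i * Real.log (⨆ j, v (A.x P j)) + max (T.tau v P y i) 0) := by
  classical
  have hx := V_x_pos v P
  obtain ⟨a, ha⟩ := exists_eq_ciSup_of_finite (f := fun j => v (A.x P j))
  have hch : ∀ i, ∃ c, v (y (i, c)) = ⨆ c, v (y (i, c)) := by
    intro i
    obtain ⟨⟨c, hc⟩, -⟩ := hy i
    have : Nonempty (Fin p) := ⟨c⟩
    exact exists_eq_ciSup_of_finite (f := fun c => v (y (i, c)))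
  choose ch hch using hch
  obtain ⟨l₁, hl₁⟩ : ∃ l, Z l ≠ 0 := by
    by_contra hcon
    push Not at hcon
    exact hZ (funext hcon)
  have : Nonempty (Fin n) := ⟨l₁⟩
  obtain ⟨l₀, hl₀⟩ := exists_eq_ciSup_of_finite (f := fun l => v (Z l))
  have hZ0 : 0 < ⨆ l, v (Z l) :=
    (v.pos hl₁).trans_le (le_ciSup (f := fun l => v (Z l)) (Set.finite_range _).bddAbove l₁)
  have hbdd : BddAbove (Set.range fun x => v (phi T.k M (A.x P) y Z x)) :=
    (Set.finite_range _).bddAbove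
  have hpos : ∀ m : Bx q M, 0 < (⨆ j, v (A.x P j)) ^ ex T.k m *
      ∏ i, (⨆ c, v (y (i, c))) ^ (m i : ℕ) := fun m =>
    mul_pos (pow_pos hx _) (Finset.prod_pos fun i _ => pow_pos (V_y_pos T v hy i) _)
  -- the value at the largest coordinates
  have hval : ∀ m : Bx q M, ∃ x, v (phi T.k M (A.x P) y Z x) =
      (⨆ j, v (A.x P j)) ^ ex T.k m * (∏ i, (⨆ c, v (y (i, c))) ^ (m i : ℕ)) * ⨆ l, v (Z l) := by
    intro m
    obtain ⟨μ, hμ⟩ : ∃ μ : Fin q × Fin p → Fin (M + 1), toK μ = mch ch m := by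
      refine ⟨fun i => if i.2 = ch i.1 then m i.1 else 0, ?_⟩
      ext i
      rw [V_toK_apply, V_mch_apply]
      split_ifs <;> rfl
    have hMt : Mt m μ := by
      intro i
      have h1 := V_mch_sum ch m i
      rw [← hμ] at h1
      exact h1
    refine ⟨(m, (a, μ), l₀), ?_⟩
    have h2 : ∏ i, y i ^ (μ i : ℕ) = ∏ i, y (i, ch i) ^ (m i : ℕ) := by
      rw [← V_mch_prod, ← hμ]
      rfl
    unfold phi
    simp only
    rw [if_pos hMt, h2, map_mul, map_mul, map_pow, map_prod, ha, hl₀]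
    congr 2
    refine Finset.prod_congr rfl fun i _ => ?_
    rw [map_pow, hch i]
  have hle : ∀ x, v (phi T.k M (A.x P) y Z x) ≤
      (⨆ j, v (A.x P j)) ^ ex T.k x.1 * (∏ i, (⨆ c, v (y (i, c))) ^ (x.1 i : ℕ)) *
        ⨆ l, v (Z l) := by
    intro x
    unfold phi
    split_ifs with hMt
    · rw [map_mul, map_mul, map_pow, map_prod]
      refine mul_le_mul (mul_le_mul ?_ ?_ (Finset.prod_nonneg fun i _ => v.nonneg _)
        (pow_nonneg hx.le _)) ?_ (v.nonneg _) (hpos _).le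
      · exact pow_le_pow_left₀ (v.nonneg _) (le_ciSup (f := fun j => v (A.x P j))
          (Set.finite_range _).bddAbove _) _
      · rw [Fintype.prod_prod_type]
        refine Finset.prod_le_prod (fun i _ => Finset.prod_nonneg fun c _ => v.nonneg _)
          fun i _ => ?_
        rw [← hMt i, ← Finset.prod_pow_eq_pow_sum]
        refine Finset.prod_le_prod (fun c _ => v.nonneg _) fun c _ => ?_
        rw [map_pow]
        exact pow_le_pow_left₀ (v.nonneg _) (le_ciSup (f := fun c => v (y (i, c)))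
          (Set.finite_range _).bddAbove c) _
      · exact le_ciSup (f := fun l => v (Z l)) (Set.finite_range _).bddAbove _
    · rw [map_zero]
      exact mul_nonneg (hpos _).le hZ0.le
  have hsplit : Real.log (⨆ l, v (Z l)) +
      M * ∑ i, (T.k i * Real.log (⨆ j, v (A.x P j)) + max (T.tau v P y i) 0) =
      M * ∑ i, T.k i * Real.log (⨆ j, v (A.x P j)) + M * ∑ i, max (T.tau v P y i) 0 +
        Real.log (⨆ l, v (Z l)) := by
    rw [Finset.sum_add_distrib]
    ring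
  have hlog : ∀ m : Bx q M, Real.log ((⨆ j, v (A.x P j)) ^ ex T.k m *
      (∏ i, (⨆ c, v (y (i, c))) ^ (m i : ℕ)) * ⨆ l, v (Z l)) =
      M * ∑ i, T.k i * Real.log (⨆ j, v (A.x P j)) + SG.wt (T.tau v P y) (toF m) +
        Real.log (⨆ l, v (Z l)) := by
    intro m
    rw [Real.log_mul (hpos m).ne' hZ0.ne', V_log T v hy]
  rw [hsplit]
  obtain ⟨x₁, hx₁⟩ := hval fun _ => 0
  have hne1 : 0 < v (phi T.k M (A.x P) y Z x₁) := by
    rw [hx₁]
    exact mul_pos (hpos _) hZ0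
  apply le_antisymm
  · have : Nonempty (Cx N q p M n) := ⟨x₁⟩
    obtain ⟨x₀, hx₀⟩ := exists_eq_ciSup_of_finite (f := fun x => v (phi T.k M (A.x P) y Z x))
    have h0 : 0 < v (phi T.k M (A.x P) y Z x₀) := by
      have h1 : v (phi T.k M (A.x P) y Z x₁) ≤ v (phi T.k M (A.x P) y Z x₀) := by
        rw [hx₀]
        exact le_ciSup hbdd x₁
      exact hne1.trans_le h1
    rw [← hx₀]
    refine (Real.log_le_log h0 (hle x₀)).trans ?_
    rw [hlog]
    have h2 : SG.wt (T.tau v P y) (toF x₀.1) ≤ M * ∑ i, max (T.tau v P y i) 0 := by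
      unfold SG.wt
      rw [Finset.mul_sum]
      refine Finset.sum_le_sum fun i _ => ?_
      rw [SG.toF_apply]
      have h4 : ((x₀.1 i : ℕ) : ℝ) ≤ M := by
        have h5 : (x₀.1 i : ℕ) ≤ M := Nat.lt_succ_iff.1 (x₀.1 i).2
        exact_mod_cast h5
      exact (mul_le_mul_of_nonneg_left (le_max_left _ _) (Nat.cast_nonneg _)).trans
        (mul_le_mul_of_nonneg_right h4 (le_max_right _ _))
    linarith
  · obtain ⟨m, hm⟩ : ∃ m : Bx q M, m = fun i => if 0 ≤ T.tau v P y i then Fin.last M else 0 :=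
      ⟨_, rfl⟩
    have h1 : SG.wt (T.tau v P y) (toF m) = M * ∑ i, max (T.tau v P y i) 0 := by
      unfold SG.wt
      rw [Finset.mul_sum]
      refine Finset.sum_congr rfl fun i _ => ?_
      rw [SG.toF_apply, hm]
      by_cases h : 0 ≤ T.tau v P y i
      · simp only [h, if_true, Fin.val_last, max_eq_left]
      · have h' : T.tau v P y i ≤ 0 := le_of_not_ge h
        simp only [h, if_false, Fin.val_zero, Nat.cast_zero, zero_mul, max_eq_right h', mul_zero]
    obtain ⟨x, hx'⟩ := hval m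
    rw [← h1, ← hlog, ← hx']
    refine Real.log_le_log ?_ (le_ciSup hbdd x)
    rw [hx']
    exact mul_pos (hpos m) hZ0

theorem V_two (t : ℝ) : 2 * max t 0 - t = |t| := by
  rcases le_total 0 t with h | h
  · rw [max_eq_left h, abs_of_nonneg h]
    ring
  · rw [max_eq_right h, abs_of_nonpos h]
    ring

theorem V_main {D M d : ℕ} (hdM : d ≤ M)
    (Λ : Matrix (Fin s) (Fin n) (MvPolynomial (Fin q × Fin p) (MvPolynomial (Fin (N + 1)) K)))
    (hd : ∀ j l, ∀ m ∈ (Λ j l).support, ∀ i, ∑ c, m (i, c) ≤ d) (v : AbsoluteValue K ℝ)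
    (P : A.Pts K) (y : Fin q × Fin p → K) (hy : T.On P y) (a : Fin (N + 1))
    (ha : v (A.x P a) = ⨆ j, v (A.x P j)) (ch : Fin q → Fin p)
    (hch : ∀ i, v (y (i, ch i)) = ⨆ c, v (y (i, c))) (Z : Fin n → K) (hZ : Z ≠ 0)
    (J : Finset (Fin s)) (W : Finset (Bx q M × Fin n))
    (hc : W.card + J.card * (M - d + 1) ^ q = r * (M + 1) ^ q)
    (hs : ∑ j ∈ J, ∑ m : Bx q (M - d), (SG.wt (T.tau v P y) (toF m) +
        maxWt (T.tau v P y) (Λ j)) + ∑ z ∈ W, SG.wt (T.tau v P y) (toF z.1) =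
      r * ∑ m : Bx q M, SG.wt (T.tau v P y) (toF m))
    (hne : ∀ j ∈ (J ×ˢ Finset.univ).disjSum W,
      (∑ x, aeval (A.x P) (LamT (M := M) (d := d) T.k a ch D Λ j x) *
        phi T.k M (A.x P) y Z x) ≠ 0) :
    (M - d + 1 : ℕ) ^ q * ∑ j ∈ J, T.lam v D (Λ j) P y Z +
        r * (M + 1) ^ q * (M / 2) * ∑ i, |T.tau v P y i| ≤
      ∑ j ∈ (J ×ˢ Finset.univ).disjSum W,
        lamF A v D (LamT (M := M) (d := d) T.k a ch D Λ j) P (phi T.k M (A.x P) y Z) := by
  obtain ⟨τ, hτ⟩ : ∃ τ : Fin q → ℝ, τ = T.tau v P y := ⟨_, rfl⟩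
  obtain ⟨κ, hκ⟩ : ∃ κ : ℝ, κ = M * ∑ i, max (τ i) 0 := ⟨_, rfl⟩
  obtain ⟨ξ, hξ⟩ : ∃ ξ : ℝ, ξ = M * ∑ i, T.k i * Real.log (⨆ j, v (A.x P j)) := ⟨_, rfl⟩
  have hx := V_x_pos v P
  have hsup : Real.log (⨆ x, v (phi T.k M (A.x P) y Z x)) =
      Real.log (⨆ l, v (Z l)) + (ξ + κ) := by
    rw [V_phi T v M P hy hZ, Finset.sum_add_distrib, mul_add, hξ, hκ, hτ]
  have hlog := fun m : Bx q M => V_log T v hy m
  rw [← hτ] at hs ⊢
  simp only [← hτ, ← hξ] at hlog
  have hyp : ∀ i, 0 < v (y (i, ch i)) := fun i => by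
    rw [hch i]
    exact V_y_pos T v hy i
  -- the forms `x_a ^ .. y_ch ^ m Λ_j`
  have h1 : ∀ j ∈ J, ∀ m : Bx q (M - d),
      lamF A v D (LamT (M := M) (d := d) T.k a ch D Λ (Sum.inl (j, m))) P
        (phi T.k M (A.x P) y Z) =
        T.lam v D (Λ j) P y Z + κ - (SG.wt τ (toF m) + maxWt τ (Λ j)) := by
    intro j hj m
    have h2 := hne (Sum.inl (j, m)) (Finset.inl_mem_disjSum.2
      (Finset.mk_mem_product hj (Finset.mem_univ _)))
    rw [V_val T hdM a ch Λ hd] at h2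
    unfold lamF
    rw [V_val T hdM a ch Λ hd, hsup, map_mul, Real.log_mul (v.ne_zero (left_ne_zero_of_mul h2))
      (v.ne_zero (right_ne_zero_of_mul h2))]
    obtain ⟨m', hm'⟩ : ∃ m' : Bx q M, ∀ i, (m' i : ℕ) = m i :=
      ⟨fun i => ⟨m i, by have := (m i).2; omega⟩, fun i => rfl⟩
    have h3 : v (A.x P a ^ (∑ i, T.k i * (M - m i)) * ∏ i, y (i, ch i) ^ (m i : ℕ)) =
        (⨆ j, v (A.x P j)) ^ ex T.k m' * ∏ i, (⨆ c, v (y (i, c))) ^ (m' i : ℕ) := by
      rw [map_mul, map_pow, map_prod, ha]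
      unfold ex
      simp only [hm']
      congr 1
      refine Finset.prod_congr rfl fun i _ => ?_
      rw [map_pow, hch i]
    have h4 : SG.wt τ (toF m') = SG.wt τ (toF m) := by
      unfold SG.wt
      refine Finset.sum_congr rfl fun i _ => ?_
      rw [SG.toF_apply, SG.toF_apply, hm' i]
    rw [h3, hlog m', h4]
    unfold Tor.lam
    rw [← hτ]
    ring
  -- the coordinates
  have h2 : ∀ z ∈ W, κ - SG.wt τ (toF z.1) ≤
      lamF A v D (LamT (M := M) (d := d) T.k a ch D Λ (Sum.inr z)) P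
        (phi T.k M (A.x P) y Z) := by
    rintro ⟨m, l⟩ hz
    have h3 := hne (Sum.inr (m, l)) (Finset.inr_mem_disjSum.2 hz)
    rw [V_val' T a ch Λ] at h3
    have hxa := left_ne_zero_of_mul h3
    have h3' := right_ne_zero_of_mul h3
    have hZl : Z l ≠ 0 := right_ne_zero_of_mul h3'
    unfold lamF
    rw [V_val' T a ch Λ, hsup, map_mul, Real.log_mul (v.ne_zero hxa) (v.ne_zero h3'), map_mul,
      Real.log_mul (v.ne_zero (left_ne_zero_of_mul h3')) (v.ne_zero hZl), map_pow, Real.log_pow,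
      ha]
    have h5 : v (A.x P a ^ ex T.k m * ∏ i, y (i, ch i) ^ (m i : ℕ)) =
        (⨆ j, v (A.x P j)) ^ ex T.k m * ∏ i, (⨆ c, v (y (i, c))) ^ (m i : ℕ) := by
      rw [map_mul, map_pow, map_prod, ha]
      congr 1
      refine Finset.prod_congr rfl fun i _ => ?_
      rw [map_pow, hch i]
    rw [h5, hlog m]
    have h4 : Real.log (v (Z l)) ≤ Real.log (⨆ l, v (Z l)) :=
      Real.log_le_log (v.pos hZl) (le_ciSup (f := fun l => v (Z l))
        (Set.finite_range _).bddAbove l)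
    simp only
    linarith
  rw [Finset.sum_disjSum, Finset.sum_product]
  have h3 : ∑ j ∈ J, ∑ m : Bx q (M - d),
      lamF A v D (LamT (M := M) (d := d) T.k a ch D Λ (Sum.inl (j, m))) P
        (phi T.k M (A.x P) y Z) =
        (M - d + 1 : ℕ) ^ q * ∑ j ∈ J, T.lam v D (Λ j) P y Z +
          (J.card * (M - d + 1 : ℕ) ^ q) * κ -
          ∑ j ∈ J, ∑ m : Bx q (M - d), (SG.wt τ (toF m) + maxWt τ (Λ j)) := by
    rw [Finset.mul_sum, ← nsmul_eq_mul (n := J.card), smul_mul_assoc, ← Finset.sum_const,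
      ← Finset.sum_add_distrib, ← Finset.sum_sub_distrib]
    refine Finset.sum_congr rfl fun j hj => ?_
    rw [Finset.sum_congr rfl fun m _ => h1 j hj m, Finset.sum_sub_distrib, Finset.sum_const,
      Finset.card_univ, Fintype.card_fun, Fintype.card_fin, Fintype.card_fin, nsmul_eq_mul]
    push_cast
    ring
  have h4 : (W.card : ℝ) * κ - ∑ z ∈ W, SG.wt τ (toF z.1) ≤
      ∑ z ∈ W, lamF A v D (LamT (M := M) (d := d) T.k a ch D Λ (Sum.inr z)) P
        (phi T.k M (A.x P) y Z) := by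
    rw [← nsmul_eq_mul, ← Finset.sum_const, ← Finset.sum_sub_distrib]
    exact Finset.sum_le_sum h2
  have hc' : (W.card : ℝ) + J.card * (M - d + 1 : ℕ) ^ q = r * (M + 1) ^ q := by
    exact_mod_cast hc
  have h5 : (M : ℝ) / 2 * ∑ i, |τ i| = κ - M / 2 * ∑ i, τ i := by
    rw [hκ, Finset.mul_sum, Finset.mul_sum, Finset.mul_sum, ← Finset.sum_sub_distrib]
    refine Finset.sum_congr rfl fun i _ => ?_
    rw [← V_two]
    ring
  rw [SG.wt_sum] at hs
  rw [h3]
  have h6 : (r : ℝ) * (M + 1) ^ q * (M / 2) * ∑ i, |τ i| =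
      (r * (M + 1) ^ q) * κ - r * ((M + 1) ^ q * (M / 2) * ∑ i, τ i) := by
    have h7 : (r : ℝ) * (M + 1) ^ q * (M / 2) * ∑ i, |τ i| =
        r * (M + 1) ^ q * (M / 2 * ∑ i, |τ i|) := by ring
    rw [h7, h5]
    ring
  rw [h6, ← hc', ← hs]
  linarith

end

end Pool.Agent.Lib.MP_17a322_nt.TB
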