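import Pool.Agent.Lib.MP_17a322_nt.TB.W1
import Pool.Agent.Lib.MP_17a322_nt.EF.R0
import Pool.Agent.Lib.MP_17a322_nt.EF.D4

/-!
The subspace theorem for twisted block bundles.
-/

universe u

namespace Pool.Agent.Lib.MP_17a322_nt.TB

open MvPolynomial Height
open Pool.Agent.Lib.MP_17a322_nt.VA
open Pool.Agent.Lib.MP_17a322_nt.SL
open Pool.Agent.Lib.MP_17a322_nt.SG (IndB FibT IndT ExcT lamT rdx S0_gen)

/-! ### Linear algebra -/

theorem W2_li {L V V' α α' : Type*} [Field L] [AddCommGroup V] [Module L V] [AddCommGroup V']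
    [Module L V'] (R : V →ₗ[L] V') (u : α → V) (v : α' → V) (hu : LinearIndependent L u)
    (hR : ∀ i, R (u i) = 0) (hv : LinearIndependent L (R ∘ v)) :
    LinearIndependent L (Sum.elim u v) := by
  rw [linearIndependent_sum]
  refine ⟨hu, LinearIndependent.of_comp R hv, ?_⟩
  rw [Submodule.disjoint_def]
  intro x hx hx'
  have h1 : R x = 0 := by
    have h2 : Submodule.span L (Set.range u) ≤ LinearMap.ker R := by
      rw [Submodule.span_le]
      rintro _ ⟨i, rfl⟩
      exact hR i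
    exact h2 hx
  obtain ⟨f, rfl⟩ := Finsupp.mem_span_range_iff_exists_finsupp.1 hx'
  have h2 : f.sum (fun i a => a • (R ∘ v) i) = 0 := by
    rw [← h1, map_finsuppSum]
    refine Finsupp.sum_congr fun i _ => ?_
    rw [map_smul]
    rfl
  have h3 := (linearIndependent_iff.1 hv) f (by rw [Finsupp.linearCombination_apply]; exact h2)
  rw [h3, Finsupp.sum_zero_index]

theorem W2_smul {L V α : Type*} [Field L] [AddCommGroup V] [Module L V] {v v' : α → V}
    (hv : LinearIndependent L v) (s : α → L) (hs : ∀ i, s i ≠ 0) (h : ∀ i, v' i = s i • v i) :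
    LinearIndependent L v' := by
  have h1 := hv.units_smul fun i => Units.mk0 (s i) (hs i)
  have h2 : (fun i => Units.mk0 (s i) (hs i)) • v = v' := by
    funext i
    rw [h i]
    rfl
  rwa [h2] at h1

theorem W2_card {β κ : Type} [Fintype β] [Fintype κ] [DecidableEq β] [DecidableEq κ] {g r n : ℕ}
    (hgr : g + r = n) (c₀ : β → κ) :
    Fintype.card (Rx g n c₀) + Fintype.card β * r = Fintype.card (β × κ × Fin n) := by
  classical
  have e : {x : β × κ × Fin n // x.2.1 = c₀ x.1} ≃ β × Fin n :=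
    { toFun := fun x => (x.1.1, x.1.2.2)
      invFun := fun x => ⟨(x.1, c₀ x.1, x.2), rfl⟩
      left_inv := by
        rintro ⟨⟨b, c, l⟩, h⟩
        simp only at h
        subst h
        rfl
      right_inv := fun _ => rfl }
  have h1 := Fintype.card_congr (Equiv.sumCompl fun x : β × κ × Fin n => x.2.1 = c₀ x.1)
  rw [Fintype.card_sum, Fintype.card_congr e, Fintype.card_prod, Fintype.card_fin] at h1
  have h2 : Fintype.card (Rx g n c₀) =
      Fintype.card {x : β × κ × Fin n // x.2.1 ≠ c₀ x.1} + Fintype.card β * g := by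
    rw [Fintype.card_sum, Fintype.card_prod, Fintype.card_fin]
  have h3 : Fintype.card {x : β × κ × Fin n // x.2.1 ≠ c₀ x.1} =
      Fintype.card {x : β × κ × Fin n // ¬ x.2.1 = c₀ x.1} := rfl
  rw [h2, h3, ← h1, ← hgr, mul_add]
  ring

section

variable {K : Type u} [Field K] {N g n : ℕ} {β κ : Type} [Fintype β] [DecidableEq β] [Fintype κ]
  [DecidableEq κ] (a : Fin (N + 1)) (E D' : ℕ) (δ : β → ℕ) (c₀ : β → κ)
  (G : Matrix (Fin g) (Fin n) (MvPolynomial (Fin (N + 1)) K))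
  (w : β → κ → MvPolynomial (Fin (N + 1)) K)

omit [Fintype β] [Fintype κ] in
theorem W2_hom (hG : ∀ i l, (G i l).IsHomogeneous D') (hw : ∀ b c, (w b c).IsHomogeneous (δ b))
    (hδ : ∀ b, δ b ≤ E) (hD' : D' ≤ E) (i : Rx g n c₀) (y : β × κ × Fin n) :
    (rowW a E D' δ c₀ G w i y).IsHomogeneous E := by
  rcases i with x | z
  · have h1 : E = (E - δ x.1.1) + δ x.1.1 := by have := hδ x.1.1; omega
    show (X a ^ (E - δ x.1.1) *
      (if y = x.1 then w x.1.1 (c₀ x.1.1) else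
        if y = (x.1.1, c₀ x.1.1, x.1.2.2) then - w x.1.1 x.1.2.1 else 0)).IsHomogeneous E
    have h2 : (if y = x.1 then w x.1.1 (c₀ x.1.1) else
        if y = (x.1.1, c₀ x.1.1, x.1.2.2) then - w x.1.1 x.1.2.1 else 0).IsHomogeneous
          (δ x.1.1) := by
      split_ifs
      · exact hw _ _
      · exact (hw _ _).neg
      · exact isHomogeneous_zero _ _ _
    have h3 := (isHomogeneous_X_pow (R := K) a (E - δ x.1.1)).mul h2
    rwa [← h1] at h3
  · have h1 : E = (E - D') + D' := by omega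
    show (X a ^ (E - D') * (if y.1 = z.1 ∧ y.2.1 = c₀ z.1 then G z.2 y.2.2 else
      0)).IsHomogeneous E
    have h2 : (if y.1 = z.1 ∧ y.2.1 = c₀ z.1 then G z.2 y.2.2 else 0).IsHomogeneous D' := by
      split_ifs
      · exact hG _ _
      · exact isHomogeneous_zero _ _ _
    have h3 := (isHomogeneous_X_pow (R := K) a (E - D')).mul h2
    rwa [← h1] at h3

variable {A : AV K N} {L : Type u} [Field L] [Algebra K L] (P : A.Pts L)

omit [Fintype β] [Fintype κ] in
theorem W2_inl (x : {x : β × κ × Fin n // x.2.1 ≠ c₀ x.1}) (y : β × κ × Fin n) :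
    aeval (A.x P) (rowW a E D' δ c₀ G w (Sum.inl x) y) = A.x P a ^ (E - δ x.1.1) *
      (if y = x.1 then aeval (A.x P) (w x.1.1 (c₀ x.1.1)) else
        if y = (x.1.1, c₀ x.1.1, x.1.2.2) then - aeval (A.x P) (w x.1.1 x.1.2.1) else 0) := by
  show aeval (A.x P) (X a ^ (E - δ x.1.1) *
      (if y = x.1 then w x.1.1 (c₀ x.1.1) else
        if y = (x.1.1, c₀ x.1.1, x.1.2.2) then - w x.1.1 x.1.2.1 else 0)) = _
  rw [map_mul, map_pow, aeval_X]
  split_ifs
  · rfl
  · rw [map_neg]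
  · rw [map_zero]

omit [Fintype β] [Fintype κ] in
theorem W2_inr (z : β × Fin g) (y : β × κ × Fin n) :
    aeval (A.x P) (rowW a E D' δ c₀ G w (Sum.inr z) y) = A.x P a ^ (E - D') *
      (if y.1 = z.1 ∧ y.2.1 = c₀ z.1 then aeval (A.x P) (G z.2 y.2.2) else 0) := by
  show aeval (A.x P) (X a ^ (E - D') * (if y.1 = z.1 ∧ y.2.1 = c₀ z.1 then G z.2 y.2.2 else
    0)) = _
  rw [map_mul, map_pow, aeval_X]
  split_ifs
  · rfl
  · rw [map_zero]

theorem W2_sumL (x : {x : β × κ × Fin n // x.2.1 ≠ c₀ x.1}) (Y : β × κ × Fin n → L) :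
    ∑ y, aeval (A.x P) (rowW a E D' δ c₀ G w (Sum.inl x) y) * Y y =
      A.x P a ^ (E - δ x.1.1) * (aeval (A.x P) (w x.1.1 (c₀ x.1.1)) * Y x.1 -
        aeval (A.x P) (w x.1.1 x.1.2.1) * Y (x.1.1, c₀ x.1.1, x.1.2.2)) := by
  have hne : (x.1.1, c₀ x.1.1, x.1.2.2) ≠ x.1 := fun h =>
    x.2 (congrArg (fun t : β × κ × Fin n => t.2.1) h).symm
  have h1 : ∀ y, aeval (A.x P) (rowW a E D' δ c₀ G w (Sum.inl x) y) * Y y =
      (if y = x.1 then A.x P a ^ (E - δ x.1.1) * (aeval (A.x P) (w x.1.1 (c₀ x.1.1)) * Y y)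
        else 0) +
      (if y = (x.1.1, c₀ x.1.1, x.1.2.2) then
        A.x P a ^ (E - δ x.1.1) * (- aeval (A.x P) (w x.1.1 x.1.2.1) * Y y) else 0) := by
    intro y
    rw [W2_inl]
    by_cases h2 : y = x.1
    · have h3 : y ≠ (x.1.1, c₀ x.1.1, x.1.2.2) := fun h => hne (h.symm.trans h2)
      rw [if_pos h2, if_pos h2, if_neg h3]
      ring
    · rw [if_neg h2, if_neg h2]
      by_cases h3 : y = (x.1.1, c₀ x.1.1, x.1.2.2)
      · rw [if_pos h3, if_pos h3]
        ring
      · rw [if_neg h3, if_neg h3]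
        ring
  rw [Finset.sum_congr rfl fun y _ => h1 y, Finset.sum_add_distrib, Finset.sum_ite_eq',
    Finset.sum_ite_eq', if_pos (Finset.mem_univ _), if_pos (Finset.mem_univ _)]
  ring

theorem W2_sumR (z : β × Fin g) (Y : β × κ × Fin n → L) :
    ∑ y, aeval (A.x P) (rowW a E D' δ c₀ G w (Sum.inr z) y) * Y y =
      A.x P a ^ (E - D') * ∑ l, aeval (A.x P) (G z.2 l) * Y (z.1, c₀ z.1, l) := by
  rw [Fintype.sum_prod_type, Finset.sum_eq_single z.1]
  · rw [Fintype.sum_prod_type, Finset.sum_eq_single (c₀ z.1)]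
    · rw [Finset.mul_sum]
      refine Finset.sum_congr rfl fun l _ => ?_
      rw [W2_inr, if_pos ⟨rfl, rfl⟩]
      ring
    · intro c _ hc
      refine Finset.sum_eq_zero fun l _ => ?_
      rw [W2_inr, if_neg fun h => hc h.2, mul_zero, zero_mul]
    · intro h
      exact absurd (Finset.mem_univ _) h
  · intro b _ hb
    refine Finset.sum_eq_zero fun y _ => ?_
    rw [W2_inr, if_neg fun h => hb h.1, mul_zero, zero_mul]
  · intro h
    exact absurd (Finset.mem_univ _) h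

/-- The vectors `w ⊗ Z` lie in the kernel. -/
theorem W2_mem (Z : β × Fin n → L) (hZ : ∀ b, (fun l => Z (b, l)) ∈ Fib A G P)
    (Y : β × κ × Fin n → L)
    (hY : ∀ x, Y x = aeval (A.x P) (w x.1 x.2.1) * Z (x.1, x.2.2)) :
    Y ∈ FibT A (rowW a E D' δ c₀ G w) P := by
  intro i
  rcases i with x | z
  · rw [W2_sumL, hY, hY]
    ring
  · rw [W2_sumR]
    have h1 : ∑ l, aeval (A.x P) (G z.2 l) * Y (z.1, c₀ z.1, l) =
        aeval (A.x P) (w z.1 (c₀ z.1)) * ∑ l, aeval (A.x P) (G z.2 l) * Z (z.1, l) := by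
      rw [Finset.mul_sum]
      refine Finset.sum_congr rfl fun l _ => ?_
      rw [hY]
      ring
    rw [h1, show ∑ l, aeval (A.x P) (G z.2 l) * Z (z.1, l) = 0 from hZ z.1 z.2, mul_zero,
      mul_zero]

/-- All vectors of the kernel are of the form `w ⊗ Z`. -/
theorem W2_mem' (ha : A.x P a ≠ 0) (hw : ∀ b, aeval (A.x P) (w b (c₀ b)) ≠ 0)
    {Y : β × κ × Fin n → L} (hY : Y ∈ FibT A (rowW a E D' δ c₀ G w) P) :
    ∃ Z : β × Fin n → L, (∀ b, (fun l => Z (b, l)) ∈ Fib A G P) ∧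
      ∀ x, Y x = aeval (A.x P) (w x.1 x.2.1) * Z (x.1, x.2.2) := by
  refine ⟨fun x => (aeval (A.x P) (w x.1 (c₀ x.1)))⁻¹ * Y (x.1, c₀ x.1, x.2), fun b i => ?_,
    fun x => ?_⟩
  · have h1 := hY (Sum.inr (b, i))
    rw [W2_sumR] at h1
    have h2 := (mul_eq_zero.1 h1).resolve_left (pow_ne_zero _ ha)
    have h3 : ∑ l, aeval (A.x P) (G i l) *
        ((aeval (A.x P) (w b (c₀ b)))⁻¹ * Y (b, c₀ b, l)) =
        (aeval (A.x P) (w b (c₀ b)))⁻¹ * ∑ l, aeval (A.x P) (G i l) * Y (b, c₀ b, l) := by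
      rw [Finset.mul_sum]
      exact Finset.sum_congr rfl fun l _ => by ring
    rw [h3, h2, mul_zero]
  · by_cases hx : x.2.1 = c₀ x.1
    · obtain ⟨b, c, l⟩ := x
      simp only at hx
      subst hx
      rw [mul_inv_cancel_left₀ (hw b)]
    · have h1 := hY (Sum.inl ⟨x, hx⟩)
      rw [W2_sumL] at h1
      have h2 := (mul_eq_zero.1 h1).resolve_left (pow_ne_zero _ ha)
      have h3 := sub_eq_zero.1 h2
      simp only at h3 ⊢
      have h4 := hw x.1
      field_simp
      linear_combination h3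

/-- The map on linear forms. -/
noncomputable def redL : (β × κ × Fin n → L) →ₗ[L] (β × Fin n → L) where
  toFun ω x := ∑ c, ω (x.1, c, x.2) * aeval (A.x P) (w x.1 c)
  map_add' ω ω' := by
    funext x
    simp only [Pi.add_apply, add_mul, Finset.sum_add_distrib]
  map_smul' t ω := by
    funext x
    simp only [Pi.smul_apply, smul_eq_mul, RingHom.id_apply, Finset.mul_sum, mul_assoc]

omit [Fintype β] [DecidableEq β] [DecidableEq κ] in
theorem redL_apply (ω : β × κ × Fin n → L) (x : β × Fin n) :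
    redL w P ω x = ∑ c, ω (x.1, c, x.2) * aeval (A.x P) (w x.1 c) := rfl

/-- Independence. -/
theorem W2_ind {σ : Type} (ha : A.x P a ≠ 0) (hw : ∀ b, aeval (A.x P) (w b (c₀ b)) ≠ 0)
    {Λ' : σ → β × κ × Fin n → MvPolynomial (Fin (N + 1)) K} {B : Finset σ}
    (h : LinearIndependent L
      (Sum.elim (fun (p : β × Fin g) (x : β × Fin n) =>
          if p.1 = x.1 then aeval (A.x P) (G p.2 x.2) else 0)
        fun (j : B) (x : β × Fin n) => aeval (A.x P) (red w (Λ' j) x))) :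
    LinearIndependent L (Sum.elim
      (fun (i : Rx g n c₀) (y : β × κ × Fin n) => aeval (A.x P) (rowW a E D' δ c₀ G w i y))
      fun (j : B) (y : β × κ × Fin n) => aeval (A.x P) (Λ' j y)) := by
  have h1 := W2_li (redL (n := n) w P)
    (fun (x : {x : β × κ × Fin n // x.2.1 ≠ c₀ x.1}) (y : β × κ × Fin n) =>
      aeval (A.x P) (rowW a E D' δ c₀ G w (Sum.inl x) y))
    (Sum.elim (fun (z : β × Fin g) (y : β × κ × Fin n) =>
      aeval (A.x P) (rowW a E D' δ c₀ G w (Sum.inr z) y))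
      fun (j : B) (y : β × κ × Fin n) => aeval (A.x P) (Λ' j y)) ?_ ?_ ?_
  · have h2 := h1.comp (Equiv.sumAssoc {x : β × κ × Fin n // x.2.1 ≠ c₀ x.1} (β × Fin g) B)
      (Equiv.injective _)
    have h3 : (Sum.elim (fun (x : {x : β × κ × Fin n // x.2.1 ≠ c₀ x.1}) (y : β × κ × Fin n) =>
        aeval (A.x P) (rowW a E D' δ c₀ G w (Sum.inl x) y))
        (Sum.elim (fun (z : β × Fin g) (y : β × κ × Fin n) =>
          aeval (A.x P) (rowW a E D' δ c₀ G w (Sum.inr z) y))
          fun (j : B) (y : β × κ × Fin n) => aeval (A.x P) (Λ' j y))) ∘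
          (Equiv.sumAssoc {x : β × κ × Fin n // x.2.1 ≠ c₀ x.1} (β × Fin g) B) =
        Sum.elim
          (fun (i : Rx g n c₀) (y : β × κ × Fin n) => aeval (A.x P) (rowW a E D' δ c₀ G w i y))
          fun (j : B) (y : β × κ × Fin n) => aeval (A.x P) (Λ' j y) := by
      funext i
      rcases i with (x | z) | j <;> rfl
    rwa [h3] at h2
  · apply LinearIndependent.of_comp (LinearMap.funLeft L L
      (fun x : {x : β × κ × Fin n // x.2.1 ≠ c₀ x.1} => x.1))
    have h2 : LinearIndependent L (fun x : {x : β × κ × Fin n // x.2.1 ≠ c₀ x.1} =>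
        (Pi.single x 1 : {x : β × κ × Fin n // x.2.1 ≠ c₀ x.1} → L)) := by
      have h3 := (Pi.basisFun L {x : β × κ × Fin n // x.2.1 ≠ c₀ x.1}).linearIndependent
      have h4 : ⇑(Pi.basisFun L {x : β × κ × Fin n // x.2.1 ≠ c₀ x.1}) = fun x => Pi.single x 1 :=
        funext fun x => Pi.basisFun_apply L _ x
      rwa [h4] at h3
    refine W2_smul h2 (fun x => A.x P a ^ (E - δ x.1.1) * aeval (A.x P) (w x.1.1 (c₀ x.1.1)))
      (fun x => mul_ne_zero (pow_ne_zero _ ha) (hw _)) fun x => ?_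
    funext x'
    rw [Function.comp_apply, LinearMap.funLeft_apply, W2_inl, Pi.smul_apply, smul_eq_mul]
    by_cases hx : x' = x
    · rw [hx, if_pos rfl, Pi.single_eq_same, mul_one]
    · rw [if_neg fun h => hx (Subtype.ext h), Pi.single_eq_of_ne hx, if_neg, mul_zero, mul_zero]
      intro h5
      apply x'.2
      rw [h5]
  · intro x
    funext y
    rw [redL_apply, Pi.zero_apply]
    by_cases hy : y = (x.1.1, x.1.2.2)
    · subst hy
      have h2 : ∀ c, aeval (A.x P) (rowW a E D' δ c₀ G w (Sum.inl x) (x.1.1, c, x.1.2.2)) *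
          aeval (A.x P) (w x.1.1 c) =
          (if c = x.1.2.1 then A.x P a ^ (E - δ x.1.1) * (aeval (A.x P) (w x.1.1 (c₀ x.1.1)) *
            aeval (A.x P) (w x.1.1 c)) else 0) +
          (if c = c₀ x.1.1 then - (A.x P a ^ (E - δ x.1.1) * (aeval (A.x P) (w x.1.1 x.1.2.1) *
            aeval (A.x P) (w x.1.1 c))) else 0) := by
        intro c
        rw [W2_inl]
        by_cases h3 : c = x.1.2.1
        · have h4 : c ≠ c₀ x.1.1 := fun h => x.2 (h3.symm.trans h)
          have h5 : ((x.1.1, c, x.1.2.2) : β × κ × Fin n) = x.1 := by rw [h3]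
          rw [if_pos h5, if_pos h3, if_neg h4]
          ring
        · have h5 : ((x.1.1, c, x.1.2.2) : β × κ × Fin n) ≠ x.1 := fun h =>
            h3 (congrArg (fun t : β × κ × Fin n => t.2.1) h)
          rw [if_neg h5, if_neg h3]
          by_cases h4 : c = c₀ x.1.1
          · rw [if_pos h4, if_pos (by rw [h4])]
            ring
          · rw [if_neg h4, if_neg fun h => h4 (congrArg (fun t : β × κ × Fin n => t.2.1) h)]
            ring
      show ∑ c, aeval (A.x P) (rowW a E D' δ c₀ G w (Sum.inl x) (x.1.1, c, x.1.2.2)) *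
          aeval (A.x P) (w x.1.1 c) = 0
      rw [Finset.sum_congr rfl fun c _ => h2 c, Finset.sum_add_distrib, Finset.sum_ite_eq',
        Finset.sum_ite_eq', if_pos (Finset.mem_univ _), if_pos (Finset.mem_univ _)]
      ring
    · refine Finset.sum_eq_zero fun c _ => ?_
      rw [W2_inl, if_neg, if_neg, mul_zero, zero_mul]
      · intro h
        exact hy (Prod.ext (congrArg (fun t : β × κ × Fin n => t.1) h)
          (congrArg (fun t : β × κ × Fin n => t.2.2) h))
      · intro h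
        exact hy (Prod.ext (congrArg (fun t : β × κ × Fin n => t.1) h)
          (congrArg (fun t : β × κ × Fin n => t.2.2) h))
  · refine W2_smul h (Sum.elim (fun z => A.x P a ^ (E - D') * aeval (A.x P) (w z.1 (c₀ z.1)))
      fun _ => 1) ?_ ?_
    · rintro (z | j)
      · exact mul_ne_zero (pow_ne_zero _ ha) (hw _)
      · exact one_ne_zero
    · rintro (z | j)
      · funext y
        rw [Function.comp_apply, redL_apply]
        show ∑ c, aeval (A.x P) (rowW a E D' δ c₀ G w (Sum.inr z) (y.1, c, y.2)) *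
          aeval (A.x P) (w y.1 c) = (A.x P a ^ (E - D') * aeval (A.x P) (w z.1 (c₀ z.1))) *
            (if z.1 = y.1 then aeval (A.x P) (G z.2 y.2) else 0)
        by_cases hy : z.1 = y.1
        · rw [if_pos hy, Finset.sum_eq_single (c₀ z.1)]
          · rw [W2_inr, if_pos ⟨hy.symm, rfl⟩, ← hy]
            ring
          · intro c _ hc
            rw [W2_inr, if_neg fun h => hc h.2, mul_zero, zero_mul]
          · intro h
            exact absurd (Finset.mem_univ _) h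
        · rw [if_neg hy, mul_zero]
          refine Finset.sum_eq_zero fun c _ => ?_
          rw [W2_inr, if_neg fun h => hy h.1.symm, mul_zero, zero_mul]
      · funext y
        rw [Function.comp_apply, redL_apply]
        show ∑ c, aeval (A.x P) (Λ' j (y.1, c, y.2)) * aeval (A.x P) (w y.1 c) =
          (1 : L) * aeval (A.x P) (red w (Λ' j) y)
        rw [one_mul]
        unfold red
        rw [map_sum]
        exact Finset.sum_congr rfl fun c _ => (map_mul _ _ _).symm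

end

/-! ### Exceptional forms -/

theorem W2_gen {K : Type u} [Field K] {N : ℕ} {A : AV K N} {L : Type u} [Field L] [Algebra K L]
    {P : A.Pts L} (hP : Gen A P) {R : MvPolynomial (Fin (N + 1)) K} {d : ℕ}
    (hR : R.IsHomogeneous d) (hR0 : R ∉ A.I) : aeval (A.x P) R ≠ 0 := fun h => hR0 (hP R d hR h)

theorem W2_exc {K : Type u} [Field K] {N g n : ℕ} {A : AV K N} {β κ : Type} [Fintype β]
    [DecidableEq β] [Fintype κ] [DecidableEq κ] {a : Fin (N + 1)} {E D' : ℕ} {δ : β → ℕ}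
    {c₀ : β → κ} {G : Matrix (Fin g) (Fin n) (MvPolynomial (Fin (N + 1)) K)}
    {w : β → κ → MvPolynomial (Fin (N + 1)) K}
    (ha : (X a : MvPolynomial (Fin (N + 1)) K) ∉ A.I) (hw : ∀ b c, (w b c).IsHomogeneous (δ b))
    (hc₀ : ∀ b, w b (c₀ b) ∉ A.I) {F : MvPolynomial (Fin (N + 1) ⊕ (β × κ × Fin n)) K}
    (hF : ExcT A (rowW a E D' δ c₀ G w) F) {f : MvPolynomial (Fin (N + 1)) K} {d : ℕ}
    (hf : f.IsHomogeneous d) (hfA : f ∉ A.I) : ExcW A G w (F * rename Sum.inl f) := by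
  classical
  obtain ⟨⟨p, q, h1⟩, h2⟩ := hF
  refine ⟨⟨p + d, q, fun m hm => ?_⟩, fun L _ _ _ P hP => ?_⟩
  · obtain ⟨m₁, hm₁, m₂, hm₂, rfl⟩ := Finset.mem_add.1 (support_mul _ _ hm)
    rw [support_rename_of_injective Sum.inl_injective] at hm₂
    obtain ⟨m₃, hm₃, rfl⟩ := Finset.mem_image.1 hm₂
    obtain ⟨h3, h4⟩ := h1 m₁ hm₁
    have h5 : ∀ i : Fin (N + 1), (Finsupp.mapDomain (Sum.inl : Fin (N + 1) →
        Fin (N + 1) ⊕ (β × κ × Fin n)) m₃) (Sum.inl i) = m₃ i :=
      fun i => Finsupp.mapDomain_apply Sum.inl_injective m₃ i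
    have h6 : ∀ x : β × κ × Fin n, (Finsupp.mapDomain (Sum.inl : Fin (N + 1) →
        Fin (N + 1) ⊕ (β × κ × Fin n)) m₃) (Sum.inr x) = 0 := fun x =>
      Finsupp.mapDomain_of_notMem_range m₃ _ fun h => by
        obtain ⟨i, hi⟩ := h
        exact Sum.inl_ne_inr hi
    have h7 : ∑ i, m₃ i = d := by
      have h8 := hf (mem_support_iff.1 hm₃)
      rw [← h8, Finsupp.weight_apply, Finsupp.sum_fintype _ _ fun i => by simp]
      refine Finset.sum_congr rfl fun i _ => ?_
      simp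
    constructor
    · simp only [Finsupp.add_apply, h5, Finset.sum_add_distrib]
      rw [h3, h7]
    · simp only [Finsupp.add_apply, h6, add_zero]
      exact h4
  · obtain ⟨c, m, y, h3, h4, h5⟩ := h2 L P hP
    have ha' : A.x P a ≠ 0 := by
      have h6 := W2_gen hP (isHomogeneous_X K a) ha
      rwa [aeval_X] at h6
    refine ⟨c * aeval (A.x P) f, m, y, mul_ne_zero h3 (W2_gen hP hf hfA), fun k => ?_, ?_⟩
    · obtain ⟨z, hz, hz'⟩ := h4 k
      obtain ⟨Z, hZ, hZ'⟩ := W2_mem' a E D' δ c₀ G w P ha'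
        (fun b => W2_gen hP (hw _ _) (hc₀ b)) hz
      refine ⟨Z, hZ, ?_⟩
      have h6 : ∑ x, y k x * (aeval (A.x P) (w x.1 x.2.1) * Z (x.1, x.2.2)) =
          ∑ x, y k x * z x := Finset.sum_congr rfl fun x _ => by rw [hZ' x]
      rw [h6]
      exact hz'
    · rw [map_mul, h5, aeval_rename, Sum.elim_comp_inl]
      have h7 := aeval_algebraMap_apply (B := MvPolynomial (β × κ × Fin n) L) (A.x P) f
      rw [algebraMap_eq] at h7
      have h8 : aeval (fun i => (C (A.x P i) : MvPolynomial (β × κ × Fin n) L)) f =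
          C (aeval (A.x P) f) := h7
      rw [h8, map_mul]
      ring

/-! ### The theorem -/

theorem W_main {K : Type u} [Field K] [NumberField K] {N : ℕ} (A : AV K N) {g n r : ℕ}
    (Γ : AddSubgroup (A.Pts K)) (hΓ : Γ.FG) (hgr : g + r = n)
    (hr : 0 < r) (D D' : ℕ) {β κ : Type} [Fintype β] [DecidableEq β] [Nonempty β] [Fintype κ]
    {σ : Type} [Fintype σ] (G : Matrix (Fin g) (Fin n) (MvPolynomial (Fin (N + 1)) K))
    (hG : ∀ i l, (G i l).IsHomogeneous D')
    (hGi : ∃ (L : Type u) (_ : Field L) (_ : Algebra K L) (P : A.Pts L), Gen A P ∧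
      LinearIndependent L (fun i l => aeval (A.x P) (G i l)))
    (w : β → κ → MvPolynomial (Fin (N + 1)) K) (δ : β → ℕ)
    (hw : ∀ b c, (w b c).IsHomogeneous (δ b)) (hw0 : ∀ b, ∃ c, w b c ∉ A.I)
    (Λ' : σ → β × κ × Fin n → MvPolynomial (Fin (N + 1)) K)
    (hΛ' : ∀ j x, (Λ' j x).IsHomogeneous D) (S : Finset (NumberField.FinitePlace K)) (ε : ℝ)
    (hε : 0 < ε) :
    ∃ (C : ℝ) (F : MvPolynomial (Fin (N + 1) ⊕ (β × κ × Fin n)) K), ExcW A G w F ∧
      ∀ P ∈ Γ, ∀ Z : β × Fin n → K, (∀ b, (fun l => Z (b, l)) ∈ Fib A G P) →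
        ∀ Y : β × κ × Fin n → K, Y ≠ 0 →
        (∀ x, Y x = aeval (A.x P) (w x.1 x.2.1) * Z (x.1, x.2.2)) →
        aeval (Sum.elim (A.x P) Y) F ≠ 0 →
        (∀ b, ∃ c, aeval (A.x P) (w b c) ≠ 0) ∧
        ∀ (Bi : NumberField.InfinitePlace K → Finset σ)
          (Bf : NumberField.FinitePlace K → Finset σ),
          (∀ v, IndB A β G (fun j => red w (Λ' j)) (Bi v)) →
          (∀ v ∈ S, IndB A β G (fun j => red w (Λ' j)) (Bf v)) →
          (∀ j, (∃ v, j ∈ Bi v) ∨ (∃ v ∈ S, j ∈ Bf v) →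
            (∑ x, aeval (A.x P) (Λ' j x) * Y x) ≠ 0) ∧
          (∑ v : NumberField.InfinitePlace K, (v.mult : ℝ) *
              ∑ j ∈ Bi v, lamF A v.val D (Λ' j) P Y) +
            (∑ v ∈ S, ∑ j ∈ Bf v, lamF A v.val D (Λ' j) P Y) +
            ∑ b, (r * logHeight (fun c => aeval (A.x P) (w b c)) + hE A G P) ≤
            Fintype.card β * r * logHeight Y + ε * (logHeight Y + logHeight (A.x P)) + C := by
  classical
  have h0 : 0 < Fintype.card β := Fintype.card_pos
  choose c₀ hc₀ using hw0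
  have hIp : A.I.IsPrime := Z_prime A
  obtain ⟨L₀, _, _, P₀, hP₀, hli⟩ := hGi
  obtain ⟨a, ha⟩ : ∃ a, (X a : MvPolynomial (Fin (N + 1)) K) ∉ A.I := by
    by_contra hcon
    push Not at hcon
    obtain ⟨i, hi⟩ := Function.ne_iff.1 (A.x_ne P₀)
    have h1 := P₀.2 _ (hcon i)
    rw [aeval_X] at h1
    exact hi h1
  obtain ⟨e, he⟩ := EF.R0_minor _ hli
  obtain ⟨m, hm⟩ : ∃ m : MvPolynomial (Fin (N + 1)) K, m =
    (Matrix.of fun i j : Fin g => G i (e j)).det := ⟨_, rfl⟩
  have hmv : ∀ {L : Type u} [Field L] [Algebra K L] (P : A.Pts L), aeval (A.x P) m =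
      (Matrix.of fun i j : Fin g => aeval (A.x P) (G i (e j))).det := by
    intro L _ _ P
    rw [hm, AlgHom.map_det]
    rfl
  have hm0 : m ∉ A.I := by
    intro h
    apply he
    rw [← hmv]
    exact P₀.2 m h
  have hmh : m.IsHomogeneous (∑ _ : Fin g, D') := by
    rw [hm]
    exact EF.R0_det _ _ fun i j => hG i (e j)
  obtain ⟨E, hE⟩ : ∃ E, E = (∑ b, δ b) + D' := ⟨_, rfl⟩
  have hδ : ∀ b, δ b ≤ E := fun b => by
    rw [hE]
    exact (Finset.single_le_sum (fun b _ => Nat.zero_le (δ b)) (Finset.mem_univ b)).trans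
      (Nat.le_add_right _ _)
  have hD'E : D' ≤ E := by omega
  obtain ⟨f, hf⟩ : ∃ f : MvPolynomial (Fin (N + 1)) K, f = X a * ((∏ b, w b (c₀ b)) * m) :=
    ⟨_, rfl⟩
  have hfh : f.IsHomogeneous (1 + ((∑ b, δ b) + ∑ _ : Fin g, D')) := by
    rw [hf]
    exact (isHomogeneous_X K a).mul ((IsHomogeneous.prod _ _ _ fun b _ => hw b (c₀ b)).mul hmh)
  have hf0 : f ∉ A.I := by
    rw [hf]
    intro h
    rcases hIp.mem_or_mem h with h | h
    · exact ha h
    · rcases hIp.mem_or_mem h with h | h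
      · obtain ⟨b, -, hb⟩ := hIp.prod_mem_iff.1 h
        exact hc₀ b hb
      · exact hm0 h
  obtain ⟨C, F, hF, h⟩ := S0_gen A Γ hΓ (Fintype.equivFin (Rx g n c₀))
    (Fintype.equivFin (β × κ × Fin n)) (r := Fintype.card β * r) (W2_card hgr c₀)
    (Nat.mul_pos h0 hr) D E (rowW a E D' δ c₀ G w) (W2_hom a E D' δ c₀ G w hG hw hδ hD'E)
    Λ' hΛ' S ε hε
  refine ⟨C, F * rename Sum.inl f, W2_exc ha hw hc₀ hF hfh hf0, ?_⟩
  intro P hP Z hZ Y hY hYZ hne
  rw [map_mul, aeval_rename, Sum.elim_comp_inl] at hne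
  have hne1 := left_ne_zero_of_mul hne
  have hne2 := right_ne_zero_of_mul hne
  rw [hf, map_mul, map_mul, map_prod, aeval_X] at hne2
  have hxa := left_ne_zero_of_mul hne2
  have hne3 := right_ne_zero_of_mul hne2
  have hwP : ∀ b, aeval (A.x P) (w b (c₀ b)) ≠ 0 := fun b =>
    Finset.prod_ne_zero_iff.1 (left_ne_zero_of_mul hne3) b (Finset.mem_univ b)
  have hmP := right_ne_zero_of_mul hne3
  rw [hmv] at hmP
  have hliP := EF.D_li_of_minor (fun i l => aeval (A.x P) (G i l)) e hmP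
  refine ⟨fun b => ⟨c₀ b, hwP b⟩, fun Bi Bf hBi hBf => ?_⟩
  have hin : ∀ B : Finset σ, IndB A β G (fun j => red w (Λ' j)) B →
      IndT A (rowW a E D' δ c₀ G w) Λ' B := by
    intro B hB L _ _ Q hQ
    have hQa : A.x Q a ≠ 0 := by
      have h6 := W2_gen hQ (isHomogeneous_X K a) ha
      rwa [aeval_X] at h6
    exact W2_ind a E D' δ c₀ G w Q hQa (fun b => W2_gen hQ (hw _ _) (hc₀ b)) (hB L Q hQ)
  obtain ⟨h1, h2⟩ := h P hP Y hY (W2_mem a E D' δ c₀ G w P Z hZ Y hYZ) hne1 Bi Bf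
    (fun v => hin _ (hBi v)) fun v hv => hin _ (hBf v hv)
  refine ⟨h1, ?_⟩
  have h3 := W_hE A hgr a E D' δ c₀ G w P hxa hwP hliP
  have h4 := hET_le (Fintype.equivFin (Rx g n c₀)) (Fintype.equivFin (β × κ × Fin n))
    (rowW a E D' δ c₀ G w) P
  rw [Nat.cast_mul] at h2
  have h5 : (∑ v : NumberField.InfinitePlace K, (v.mult : ℝ) *
        ∑ j ∈ Bi v, lamF A v.val D (Λ' j) P Y) +
      (∑ v ∈ S, ∑ j ∈ Bf v, lamF A v.val D (Λ' j) P Y) =
      (∑ v : NumberField.InfinitePlace K, (v.mult : ℝ) *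
        ∑ j ∈ Bi v, lamT A v.val D (Λ' j) P Y) +
      (∑ v ∈ S, ∑ j ∈ Bf v, lamT A v.val D (Λ' j) P Y) := rfl
  linarith

end Pool.Agent.Lib.MP_17a322_nt.TB
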