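import Pool.Agent.Lib.MP_17a322_nt.TB.Defs2
import Pool.Agent.Lib.MP_17a322_nt.SG.X1

/-!
Exceptional forms over principal torus bundles over `A`.
-/

universe u

namespace Pool.Agent.Lib.MP_17a322_nt.TB

open MvPolynomial Height
open Pool.Agent.Lib.MP_17a322_nt.VA
open Pool.Agent.Lib.MP_17a322_nt.SL
open Pool.Agent.Lib.MP_17a322_nt.SG (Bx toF Ix IndB)

section

variable {K : Type u} [Field K] {N q p : ℕ} {A : AV K N} (T : Tor A q p) {g n r s : ℕ}

theorem X_eval' {M : ℕ} {R : Type*} [CommRing R] [Algebra K R] (k : Fin q → ℕ)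
    (F : MvPolynomial (Fin (N + 1) ⊕ Cx N q p M n) K) (x : Fin (N + 1) → R)
    (y : Fin q × Fin p → R) (Z : Fin n → R) :
    aeval (Sum.elim x (Sum.elim y Z)) (pullF k F) = aeval (Sum.elim x (phi k M x y Z)) F := by
  unfold pullF
  rw [← AlgHom.comp_apply, comp_aeval]
  congr 2
  funext i
  rcases i with i | i
  · simp
  · simp only [Sum.elim_inr, phi]
    split_ifs
    · simp
    · simp

theorem X_eval {M : ℕ} (k : Fin q → ℕ) (F : MvPolynomial (Fin (N + 1) ⊕ Cx N q p M n) K)
    (x : Fin (N + 1) → K) (y : Fin q × Fin p → K) (Z : Fin n → K) :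
    aeval (Sum.elim x (Sum.elim y Z)) (pullF k F) = aeval (Sum.elim x (phi k M x y Z)) F :=
  X_eval' k F x y Z

theorem X_mul {G : Matrix (Fin g) (Fin n) (MvPolynomial (Fin (N + 1)) K)}
    {F F' : MvPolynomial (Fin (N + 1) ⊕ (Fin q × Fin p) ⊕ Fin n) K} (hF : T.Exc G F)
    (hF' : T.Exc G F') : T.Exc G (F * F') := by
  classical
  obtain ⟨⟨a, b, hab⟩, h⟩ := hF
  obtain ⟨⟨a', b', hab'⟩, h'⟩ := hF'
  refine ⟨⟨a + a', b + b', fun m hm => ?_⟩, fun L _ _ _ P hP => ?_⟩
  · have h1 := support_mul _ _ hm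
    obtain ⟨m₁, hm₁, m₂, hm₂, rfl⟩ := Finset.mem_add.1 h1
    simp only [Finsupp.add_apply, Finset.sum_add_distrib, mul_add]
    have h2 := hab m₁ hm₁
    have h3 := hab' m₂ hm₂
    constructor
    · rw [← h2.1, ← h3.1]
      ring
    · rw [h2.2, h3.2]
  · obtain ⟨c, m, y, hc, hy, hF⟩ := h L P hP
    obtain ⟨c', m', y', hc', hy', hF'⟩ := h' L P hP
    refine ⟨c * c', m + m', Fin.append y y', mul_ne_zero hc hc', fun k => ?_, ?_⟩
    · refine Fin.addCases (fun k => ?_) (fun k => ?_) k
      · rw [Fin.append_left]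
        exact hy k
      · rw [Fin.append_right]
        exact hy' k
    · rw [map_mul, hF, hF', Fin.prod_univ_add]
      simp only [Fin.append_left, Fin.append_right, map_mul]
      ring

theorem X_one {G : Matrix (Fin g) (Fin n) (MvPolynomial (Fin (N + 1)) K)} :
    T.Exc G (1 : MvPolynomial (Fin (N + 1) ⊕ (Fin q × Fin p) ⊕ Fin n) K) := by
  classical
  refine ⟨⟨0, 0, fun m hm => ?_⟩, fun L _ _ _ P hP => ⟨1, 0, fun _ _ => 0, one_ne_zero,
    fun k => k.elim0, ?_⟩⟩
  · have h1 : m = 0 := by
      have h2 := support_monomial_subset (R := K) (s := 0) (a := 1) hm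
      simpa using h2
    rw [h1]
    simp
  · simp

theorem X_prod {G : Matrix (Fin g) (Fin n) (MvPolynomial (Fin (N + 1)) K)} {ι : Type*}
    (s : Finset ι) (F : ι → MvPolynomial (Fin (N + 1) ⊕ (Fin q × Fin p) ⊕ Fin n) K)
    (h : ∀ i ∈ s, T.Exc G (F i)) : T.Exc G (∏ i ∈ s, F i) := by
  classical
  induction s using Finset.induction_on with
  | empty =>
    rw [Finset.prod_empty]
    exact X_one T
  | insert i s hi ih =>
    rw [Finset.prod_insert hi]
    exact X_mul T (h i (Finset.mem_insert_self i s))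
      (ih fun j hj => h j (Finset.mem_insert_of_mem hj))

/-- The weighted degree of the monomials in `phi`. -/
theorem X_wt {M : ℕ} (k : Fin q → ℕ) (b : Bx q M) (μ : Fin q × Fin p → Fin (M + 1))
    (hμ : Mt b μ) : ex k b + ∑ i, k i.1 * (μ i : ℕ) = M * ∑ i, k i := by
  unfold ex
  rw [Fintype.sum_prod_type, ← Finset.sum_add_distrib, Finset.mul_sum]
  refine Finset.sum_congr rfl fun i _ => ?_
  have h1 : ∑ c, k (i, c).1 * (μ (i, c) : ℕ) = k i * (b i : ℕ) := by
    rw [← hμ i, Finset.mul_sum]
  rw [h1, ← mul_add, Nat.sub_add_cancel (Nat.lt_succ_iff.1 (b i).2), mul_comm]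

/-- The pullback of a monomial. -/
theorem X_pull_mon {M : ℕ} (k : Fin q → ℕ) (d : Fin (N + 1) ⊕ Cx N q p M n →₀ ℕ) (c : K)
    (hd : ∀ x : Cx N q p M n, d (Sum.inr x) ≠ 0 → Mt x.1 x.2.1.2) :
    pullF k (monomial d c) =
        monomial (∑ i, Finsupp.single (Sum.inl i) (d (Sum.inl i)) +
          ∑ x : Cx N q p M n, (Finsupp.single (Sum.inl x.2.1.1) (d (Sum.inr x) * ex k x.1) +
            (∑ i, Finsupp.single (Sum.inr (Sum.inl i)) (d (Sum.inr x) * (x.2.1.2 i : ℕ)) +
              Finsupp.single (Sum.inr (Sum.inr x.2.2)) (d (Sum.inr x))))) c := by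
  have h3 : ∀ (e e' : Fin (N + 1) ⊕ (Fin q × Fin p) ⊕ Fin n →₀ ℕ) (c : K),
      monomial (e + e') c = C c * (monomial e 1 * monomial e' 1) := by
    intro e e' c
    rw [monomial_mul, C_mul_monomial, mul_one, mul_one]
  have h4 : ∀ (e e' : Fin (N + 1) ⊕ (Fin q × Fin p) ⊕ Fin n →₀ ℕ),
      monomial (e + e') (1 : K) = monomial e 1 * monomial e' 1 := by
    intro e e'
    rw [monomial_mul, mul_one]
  rw [h3, monomial_sum_one, monomial_sum_one]
  unfold pullF
  rw [aeval_monomial, Finsupp.prod_fintype _ _ (fun i => pow_zero _), Fintype.prod_sum_type,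
    algebraMap_eq]
  congr 1
  congr 1
  · refine Finset.prod_congr rfl fun i _ => ?_
    rw [Sum.elim_inl, X_pow_eq_monomial]
  · refine Finset.prod_congr rfl fun x _ => ?_
    rw [Sum.elim_inr]
    by_cases h5 : d (Sum.inr x) = 0
    · rw [h5, pow_zero]
      simp only [zero_mul, Finsupp.single_zero, Finset.sum_const_zero, add_zero]
      rfl
    · rw [phi, if_pos (hd x h5), mul_pow, mul_pow, h4, h4, monomial_sum_one, mul_assoc]
      congr 1
      · rw [← pow_mul, X_pow_eq_monomial, mul_comm]
      congr 1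
      · rw [← Finset.prod_pow]
        refine Finset.prod_congr rfl fun i _ => ?_
        rw [← pow_mul, X_pow_eq_monomial, mul_comm]
      · rw [X_pow_eq_monomial]

theorem X_pull_mon_zero {M : ℕ} (k : Fin q → ℕ) (d : Fin (N + 1) ⊕ Cx N q p M n →₀ ℕ) (c : K)
    (x : Cx N q p M n) (hx : d (Sum.inr x) ≠ 0) (hM : ¬ Mt x.1 x.2.1.2) :
    pullF k (monomial d c) = 0 := by
  unfold pullF
  rw [aeval_monomial, Finsupp.prod_fintype _ _ (fun i => pow_zero _), Fintype.prod_sum_type,
    Finset.prod_eq_zero (Finset.mem_univ x) (by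
      rw [Sum.elim_inr, phi, if_neg hM, zero_pow hx] :
        Sum.elim (fun i => X (Sum.inl i))
          (phi k M (fun i => X (Sum.inl i)) (fun i => X (Sum.inr (Sum.inl i)))
            fun l => (X (Sum.inr (Sum.inr l)) :
              MvPolynomial (Fin (N + 1) ⊕ (Fin q × Fin p) ⊕ Fin n) K)) (Sum.inr x) ^
                d (Sum.inr x) = 0), mul_zero, mul_zero]

/-- The vector `phi` at a generic point. -/
theorem X_phi {M : ℕ} {L : Type u} [Field L] [Algebra K L] (P : A.Pts L) (x : Cx N q p M n) :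
    phi T.k M (fun i => (C (C (A.x P i)) : MvPolynomial (Fin n) (MvPolynomial (Fin q) L)))
        (fun i => C (C (aeval (A.x P) (T.η i.1 i.2)) * X i.1)) X x =
      C (C (aeval (A.x P) (wB T M x.1 x.2.1)) * ∏ i, X i ^ (x.1 i : ℕ)) * X x.2.2 := by
  unfold phi wB
  by_cases h : Mt x.1 x.2.1.2
  · rw [if_pos h, if_pos h]
    congr 1
    have h1 : ∏ i : Fin q, (X i : MvPolynomial (Fin q) L) ^ (x.1 i : ℕ) =
        ∏ i : Fin q × Fin p, X i.1 ^ (x.2.1.2 i : ℕ) := by
      rw [Fintype.prod_prod_type]
      refine Finset.prod_congr rfl fun i _ => ?_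
      show X i ^ (x.1 i : ℕ) = ∏ c, X i ^ (x.2.1.2 (i, c) : ℕ)
      rw [Finset.prod_pow_eq_pow_sum, h i]
    rw [h1]
    simp only [map_mul, map_pow, map_prod, mul_pow, Finset.prod_mul_distrib, aeval_X]
    ring
  · rw [if_neg h, if_neg h, map_zero, C_0, zero_mul, C_0, zero_mul]

theorem X_exc {M : ℕ} {G : Matrix (Fin g) (Fin n) (MvPolynomial (Fin (N + 1)) K)}
    {F : MvPolynomial (Fin (N + 1) ⊕ Cx N q p M n) K} (hF : ExcW A G (wB T M) F) :
    T.Exc G (pullF T.k F) := by
  classical
  obtain ⟨⟨a, b, hab⟩, h⟩ := hF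
  refine ⟨⟨a + b * (M * ∑ i, T.k i), b, ?_⟩, fun L _ _ _ P hP => ?_⟩
  · intro m hm
    have h1 : pullF T.k F = ∑ d ∈ F.support, pullF T.k (monomial d (coeff d F)) := by
      conv_lhs => rw [F.as_sum]
      unfold pullF
      rw [map_sum]
    rw [h1] at hm
    obtain ⟨d, hd, hmd⟩ := Finset.mem_biUnion.1 (support_sum hm)
    obtain ⟨hd1, hd2⟩ := hab d hd
    by_cases hM : ∀ x : Cx N q p M n, d (Sum.inr x) ≠ 0 → Mt x.1 x.2.1.2
    · rw [X_pull_mon T.k d _ hM] at hmd
      have h3 := support_monomial_subset hmd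
      rw [Finset.mem_singleton] at h3
      rw [h3]
      constructor
      · have h5 : ∀ i : Fin (N + 1), (∑ i, Finsupp.single (Sum.inl i) (d (Sum.inl i)) +
            ∑ x : Cx N q p M n, (Finsupp.single (Sum.inl x.2.1.1) (d (Sum.inr x) * ex T.k x.1) +
            (∑ i, Finsupp.single (Sum.inr (Sum.inl i)) (d (Sum.inr x) * (x.2.1.2 i : ℕ)) +
              Finsupp.single (Sum.inr (Sum.inr x.2.2)) (d (Sum.inr x)))) :
                Fin (N + 1) ⊕ (Fin q × Fin p) ⊕ Fin n →₀ ℕ) (Sum.inl i) =
            d (Sum.inl i) + ∑ x : Cx N q p M n, if x.2.1.1 = i then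
              d (Sum.inr x) * ex T.k x.1 else 0 := by
          intro i
          simp only [Finsupp.add_apply, Finsupp.finsetSum_apply, Finsupp.single_apply]
          simp
        have h6 : ∀ i : Fin q × Fin p, (∑ i, Finsupp.single (Sum.inl i) (d (Sum.inl i)) +
            ∑ x : Cx N q p M n, (Finsupp.single (Sum.inl x.2.1.1) (d (Sum.inr x) * ex T.k x.1) +
            (∑ i, Finsupp.single (Sum.inr (Sum.inl i)) (d (Sum.inr x) * (x.2.1.2 i : ℕ)) +
              Finsupp.single (Sum.inr (Sum.inr x.2.2)) (d (Sum.inr x)))) :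
                Fin (N + 1) ⊕ (Fin q × Fin p) ⊕ Fin n →₀ ℕ) (Sum.inr (Sum.inl i)) =
            ∑ x : Cx N q p M n, d (Sum.inr x) * (x.2.1.2 i : ℕ) := by
          intro i
          simp only [Finsupp.add_apply, Finsupp.finsetSum_apply, Finsupp.single_apply]
          simp
        simp only [h5, h6]
        rw [Finset.sum_add_distrib, hd1, Finset.sum_comm, add_assoc]
        congr 1
        have h7 : ∀ x : Cx N q p M n, (∑ i, if x.2.1.1 = i then
            d (Sum.inr x) * ex T.k x.1 else 0) = d (Sum.inr x) * ex T.k x.1 := by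
          intro x
          rw [Finset.sum_ite_eq, if_pos (Finset.mem_univ _)]
        rw [Finset.sum_congr rfl fun x _ => h7 x]
        have h8 : ∑ i : Fin q × Fin p, T.k i.1 *
            ∑ x : Cx N q p M n, d (Sum.inr x) * (x.2.1.2 i : ℕ) =
            ∑ x : Cx N q p M n, d (Sum.inr x) * ∑ i, T.k i.1 * (x.2.1.2 i : ℕ) := by
          simp only [Finset.mul_sum]
          rw [Finset.sum_comm]
          refine Finset.sum_congr rfl fun x _ => Finset.sum_congr rfl fun i _ => ?_
          ring
        rw [h8, ← Finset.sum_add_distrib, ← hd2, Finset.sum_mul]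
        refine Finset.sum_congr rfl fun x _ => ?_
        rw [← mul_add]
        by_cases h9 : d (Sum.inr x) = 0
        · rw [h9, zero_mul, zero_mul]
        · rw [X_wt T.k x.1 x.2.1.2 (hM x h9)]
      · rw [← hd2]
        simp only [Finsupp.add_apply, Finsupp.finsetSum_apply, Finsupp.single_apply]
        simp only [Sum.inr.injEq, reduceCtorEq, if_false, Finset.sum_const_zero, zero_add]
        rw [Finset.sum_comm]
        refine Finset.sum_congr rfl fun k _ => ?_
        simp
    · push Not at hM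
      obtain ⟨x, hx, hxM⟩ := hM
      rw [X_pull_mon_zero T.k d _ x hx hxM] at hmd
      exact absurd hmd (by simp)
  · obtain ⟨c, m, y, hc, hy, hFP⟩ := h L P hP
    refine ⟨C c, m, fun k l => ∑ b : Bx q M, ∑ κ : Kp N q p M,
      C (y k (b, κ, l) * aeval (A.x P) (wB T M b κ)) *
      ∏ i, (X i : MvPolynomial (Fin q) L) ^ (b i : ℕ), fun h0 => hc (C_injective _ _
        (h0.trans C_0.symm)), fun k => ?_, ?_⟩
    · obtain ⟨z, hz, hne⟩ := hy k
      rw [Fintype.sum_prod_type] at hne
      obtain ⟨b, -, hb⟩ := Finset.exists_ne_zero_of_sum_ne_zero hne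
      refine ⟨fun l => z (b, l), hz b, fun h0 => hb ?_⟩
      have h1 := congrArg (coeff (toF b)) h0
      rw [coeff_sum, coeff_zero] at h1
      rw [← h1, Fintype.sum_prod_type, Finset.sum_comm]
      refine Finset.sum_congr rfl fun l _ => ?_
      rw [mul_comm _ (C _), coeff_C_mul, coeff_sum, Finset.sum_eq_single b]
      · rw [coeff_sum, Finset.mul_sum]
        refine Finset.sum_congr rfl fun κ _ => ?_
        rw [coeff_C_mul, SG.X_mon, coeff_monomial, if_pos rfl]
        ring
      · intro b' _ hb'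
        rw [coeff_sum]
        refine Finset.sum_eq_zero fun κ _ => ?_
        rw [coeff_C_mul, SG.X_mon, coeff_monomial, if_neg fun h3 => hb' (SG.X_toF_inj h3),
          mul_zero]
      · intro h2
        exact absurd (Finset.mem_univ _) h2
    · have h1 : aeval (Sum.elim (fun i => (C (C (A.x P i)) :
            MvPolynomial (Fin n) (MvPolynomial (Fin q) L)))
            (Sum.elim (fun i => C (C (aeval (A.x P) (T.η i.1 i.2)) * X i.1)) X))
          (pullF T.k F) = aeval (phi T.k M (fun i => (C (C (A.x P i)) :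
              MvPolynomial (Fin n) (MvPolynomial (Fin q) L)))
            (fun i => (C (C (aeval (A.x P) (T.η i.1 i.2)) * X i.1))) X)
          (aeval (Sum.elim (fun i => (C (A.x P i) : MvPolynomial (Cx N q p M n) L)) X) F) := by
        rw [X_eval']
        have h3 := comp_aeval (R := K) (B := MvPolynomial (Fin n) (MvPolynomial (Fin q) L))
          (Sum.elim (fun i => (C (A.x P i) : MvPolynomial (Cx N q p M n) L)) X)
          ((aeval (R := L) (phi T.k M (fun i => (C (C (A.x P i)) :
              MvPolynomial (Fin n) (MvPolynomial (Fin q) L)))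
            (fun i => (C (C (aeval (A.x P) (T.η i.1 i.2)) * X i.1))) X)).restrictScalars K)
        have h4 := congrArg (fun φ => φ F) h3
        simp only [AlgHom.comp_apply, AlgHom.restrictScalars_apply] at h4
        rw [h4]
        congr 2
        funext i
        rcases i with i | i
        · simp [algebraMap_eq]
        · simp
      rw [h1, hFP]
      simp only [map_mul, map_prod, map_sum, aeval_X, aeval_C]
      congr 1
      refine Finset.prod_congr rfl fun k _ => ?_
      have h2 : ∀ x : Cx N q p M n, (algebraMap L (MvPolynomial (Fin n) (MvPolynomial (Fin q) L))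
          (y k x)) * phi T.k M (fun i => (C (C (A.x P i)) :
              MvPolynomial (Fin n) (MvPolynomial (Fin q) L)))
            (fun i => C (C (aeval (A.x P) (T.η i.1 i.2))) * C (X i.1)) X x =
          C (C (y k x * aeval (A.x P) (wB T M x.1 x.2.1)) * ∏ i, X i ^ (x.1 i : ℕ)) *
            X x.2.2 := by
        intro x
        have h3 := X_phi T (M := M) (n := n) P x
        simp only [C_mul] at h3 ⊢
        rw [h3]
        show C (C (y k x)) * _ = _
        ring
      rw [Finset.sum_congr rfl fun x _ => h2 x, Fintype.sum_prod_type]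
      simp only [Fintype.sum_prod_type (α₁ := Kp N q p M) (α₂ := Fin n)]
      rw [Finset.sum_congr rfl fun b _ => Finset.sum_comm, Finset.sum_comm]
      refine Finset.sum_congr rfl fun l _ => ?_
      rw [Finset.sum_mul]
      refine Finset.sum_congr rfl fun b _ => ?_
      rw [Finset.sum_mul]
      refine Finset.sum_congr rfl fun κ _ => ?_
      simp only [map_mul, map_prod, map_pow]

/-- Exceptional forms without `X` for the trivial bundle of rank one are exceptional for all `G`. -/
theorem X_vert {G : Matrix (Fin g) (Fin n) (MvPolynomial (Fin (N + 1)) K)}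
    (G' : Matrix (Fin 0) (Fin 1) (MvPolynomial (Fin (N + 1)) K))
    {F : MvPolynomial (Fin (N + 1) ⊕ (Fin q × Fin p) ⊕ Fin 1) K} (hF : T.Exc G' F) :
    T.Exc G (aeval (Sum.elim (fun i => X (Sum.inl i))
      (Sum.elim (fun i => X (Sum.inr (Sum.inl i))) fun _ => 1)) F :
        MvPolynomial (Fin (N + 1) ⊕ (Fin q × Fin p) ⊕ Fin n) K) := by
  classical
  obtain ⟨⟨a, b, hab⟩, h⟩ := hF
  refine ⟨⟨a, 0, ?_⟩, fun L _ _ _ P hP => ?_⟩
  · intro m hm
    rw [F.as_sum, map_sum] at hm
    obtain ⟨d, hd, hmd⟩ := Finset.mem_biUnion.1 (support_sum hm)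
    obtain ⟨hd1, hd2⟩ := hab d hd
    have h3 : ∀ (e e' : Fin (N + 1) ⊕ (Fin q × Fin p) ⊕ Fin n →₀ ℕ) (c : K),
        monomial (e + e') c = C c * (monomial e 1 * monomial e' 1) := by
      intro e e' c
      rw [monomial_mul, C_mul_monomial, mul_one, mul_one]
    have h2 : (aeval (Sum.elim (fun i => X (Sum.inl i))
        (Sum.elim (fun i => X (Sum.inr (Sum.inl i))) fun _ => 1)) (monomial d (coeff d F)) :
          MvPolynomial (Fin (N + 1) ⊕ (Fin q × Fin p) ⊕ Fin n) K) =
        monomial (∑ i, Finsupp.single (Sum.inl i) (d (Sum.inl i)) +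
          ∑ i, Finsupp.single (Sum.inr (Sum.inl i)) (d (Sum.inr (Sum.inl i)))) (coeff d F) := by
      rw [h3, monomial_sum_one, monomial_sum_one, aeval_monomial,
        Finsupp.prod_fintype _ _ (fun i => pow_zero _), Fintype.prod_sum_type,
        Fintype.prod_sum_type, algebraMap_eq]
      simp only [Sum.elim_inl, Sum.elim_inr, X_pow_eq_monomial, one_pow, Finset.prod_const_one,
        mul_one]
    rw [h2] at hmd
    have h4 := support_monomial_subset hmd
    rw [Finset.mem_singleton] at h4
    rw [h4]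
    constructor
    · rw [← hd1]
      congr 1
      · refine Finset.sum_congr rfl fun i _ => ?_
        simp only [Finsupp.add_apply, Finsupp.finsetSum_apply, Finsupp.single_apply]
        simp
      · refine Finset.sum_congr rfl fun i _ => ?_
        simp only [Finsupp.add_apply, Finsupp.finsetSum_apply, Finsupp.single_apply]
        simp
    · simp only [Finsupp.add_apply, Finsupp.finsetSum_apply, Finsupp.single_apply]
      simp
  · obtain ⟨c, m, y, hc, hy, hF⟩ := h L P hP
    refine ⟨c * ∏ k, y k 0, 0, fun _ _ => 0, mul_ne_zero hc (Finset.prod_ne_zero_iff.2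
      fun k _ => ?_), fun k => k.elim0, ?_⟩
    · obtain ⟨z, -, hne⟩ := hy k
      intro h0
      refine hne ?_
      rw [Fin.sum_univ_one, h0, zero_mul]
    · have h1 : aeval (Sum.elim (fun i => (C (C (A.x P i)) :
            MvPolynomial (Fin n) (MvPolynomial (Fin q) L)))
            (Sum.elim (fun i => C (C (aeval (A.x P) (T.η i.1 i.2)) * X i.1)) X))
          (aeval (Sum.elim (fun i => X (Sum.inl i))
            (Sum.elim (fun i => X (Sum.inr (Sum.inl i))) fun _ => 1)) F :
              MvPolynomial (Fin (N + 1) ⊕ (Fin q × Fin p) ⊕ Fin n) K) =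
          aeval (R := MvPolynomial (Fin q) L) (fun _ : Fin 1 =>
            (1 : MvPolynomial (Fin n) (MvPolynomial (Fin q) L)))
          (aeval (Sum.elim (fun i => (C (C (A.x P i)) :
            MvPolynomial (Fin 1) (MvPolynomial (Fin q) L)))
            (Sum.elim (fun i : Fin q × Fin p =>
              C (C (aeval (A.x P) (T.η i.1 i.2)) * X i.1)) X)) F) := by
        rw [← AlgHom.comp_apply, comp_aeval]
        have h3 := comp_aeval (R := K) (B := MvPolynomial (Fin n) (MvPolynomial (Fin q) L))
          (Sum.elim (fun i => (C (C (A.x P i)) :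
            MvPolynomial (Fin 1) (MvPolynomial (Fin q) L)))
            (Sum.elim (fun i : Fin q × Fin p =>
              C (C (aeval (A.x P) (T.η i.1 i.2)) * X i.1)) X))
          ((aeval (R := MvPolynomial (Fin q) L) (fun _ : Fin 1 =>
            (1 : MvPolynomial (Fin n) (MvPolynomial (Fin q) L)))).restrictScalars K)
        have h4 := congrArg (fun φ => φ F) h3
        simp only [AlgHom.comp_apply, AlgHom.restrictScalars_apply] at h4
        rw [h4]
        congr 2
        funext i
        rcases i with i | i | i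
        · simp [algebraMap_eq]
        · simp [algebraMap_eq]
        · simp
      rw [h1, hF]
      simp [map_mul, map_prod, algebraMap_eq]

end

end Pool.Agent.Lib.MP_17a322_nt.TB
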