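import Pool.Agent.Lib.MP_17a322_nt.TB.H1
import Pool.Agent.Lib.MP_17a322_nt.TB.T1
import Pool.Agent.Lib.MP_17a322_nt.TB.V2
import Pool.Agent.Lib.MP_17a322_nt.TB.W2
import Pool.Agent.Lib.MP_17a322_nt.TB.X1
import Pool.Agent.Lib.MP_17a322_nt.SG.M0
import Pool.Agent.Lib.MP_17a322_nt.SG.M1

/-!
Moving hyperplanes over principal torus bundles over `A`: the inequality for independent leading parts.
-/

universe u

namespace Pool.Agent.Lib.MP_17a322_nt.TB

open MvPolynomial Height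
open Pool.Agent.Lib.MP_17a322_nt.VA
open Pool.Agent.Lib.MP_17a322_nt.SL
open Pool.Agent.Lib.MP_17a322_nt.SG (Bx toF Ix IndB)

section

variable {K : Type u} [Field K] {N q p : ℕ} {A : AV K N} (T : Tor A q p) {g n r s : ℕ}

/-- Transport of independence along an injective map of the indices. -/
theorem M_ind {β : Type} [DecidableEq β] {σ σ' : Type}
    {G : Matrix (Fin g) (Fin n) (MvPolynomial (Fin (N + 1)) K)} (e : σ' ↪ σ)
    (Λ' : σ → β × Fin n → MvPolynomial (Fin (N + 1)) K) {B : Finset σ'}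
    (h : IndB A β G (fun j => Λ' (e j)) B) : IndB A β G Λ' (B.map e) := by
  classical
  intro L _ _ P hP
  have hy : ∀ j : (B.map e : Finset σ), ∃ i : B, e i.1 = j.1 := by
    rintro ⟨j, hj⟩
    obtain ⟨i, hi, hij⟩ := Finset.mem_map.1 hj
    exact ⟨⟨i, hi⟩, hij⟩
  choose f hf using hy
  have hfi : Function.Injective f := by
    intro j j' hjj
    refine Subtype.ext ?_
    rw [← hf j, ← hf j', hjj]
  have h1 := (h L P hP).comp (Sum.map id f) (Function.injective_id.sumMap hfi)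
  refine SG.li_congr h1 ?_
  rintro (x | j)
  · rfl
  · funext x
    simp only [Function.comp_apply, Sum.map_inr, Sum.elim_inr, hf j]

/-- A bound for the exponents. -/
theorem M_deg {R : Type*} [CommRing R]
    (Λ : Matrix (Fin s) (Fin n) (MvPolynomial (Fin q × Fin p) R)) :
    ∃ d : ℕ, ∀ j l, ∀ m ∈ (Λ j l).support, ∀ i, ∑ c, m (i, c) ≤ d := by
  refine ⟨∑ j, ∑ l, ∑ m ∈ (Λ j l).support, ∑ i, ∑ c, m (i, c), fun j l m hm i => ?_⟩
  have h1 : ∑ c, m (i, c) ≤ ∑ i, ∑ c, m (i, c) :=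
    Finset.single_le_sum (f := fun i => ∑ c, m (i, c)) (fun _ _ => Nat.zero_le _)
      (Finset.mem_univ i)
  have h2 : ∑ i, ∑ c, m (i, c) ≤ ∑ m ∈ (Λ j l).support, ∑ i, ∑ c, m (i, c) :=
    Finset.single_le_sum (f := fun m : Fin q × Fin p →₀ ℕ => ∑ i, ∑ c, m (i, c))
      (fun _ _ => Nat.zero_le _) hm
  have h3 : ∑ m ∈ (Λ j l).support, ∑ i, ∑ c, m (i, c) ≤
      ∑ l, ∑ m ∈ (Λ j l).support, ∑ i, ∑ c, m (i, c) :=
    Finset.single_le_sum (f := fun l => ∑ m ∈ (Λ j l).support, ∑ i, ∑ c, m (i, c))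
      (fun _ _ => Nat.zero_le _) (Finset.mem_univ l)
  have h4 : ∑ l, ∑ m ∈ (Λ j l).support, ∑ i, ∑ c, m (i, c) ≤
      ∑ j, ∑ l, ∑ m ∈ (Λ j l).support, ∑ i, ∑ c, m (i, c) :=
    Finset.single_le_sum (f := fun j => ∑ l, ∑ m ∈ (Λ j l).support, ∑ i, ∑ c, m (i, c))
      (fun _ _ => Nat.zero_le _) (Finset.mem_univ j)
  exact ((h1.trans h2).trans h3).trans h4

theorem NS_nonneg [NumberField K] (S : Finset (NumberField.FinitePlace K)) (P : A.Pts K)
    (y : Fin q × Fin p → K) : 0 ≤ T.NS S P y := by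
  unfold Tor.NS
  exact Finset.sum_nonneg fun i _ => finsum_nonneg fun v => abs_nonneg _

/-- The sum of the heights of the coordinates. -/
theorem M_two [NumberField K] (S : Finset (NumberField.FinitePlace K)) {P : A.Pts K}
    {y : Fin q × Fin p → K} (hy : T.On P y) :
    2 * ∑ i, T.ht P y i =
      (∑ w : NumberField.InfinitePlace K, (w.mult : ℝ) * ∑ i, |T.tau w.val P y i|) +
        (∑ v ∈ S, ∑ i, |T.tau v.val P y i|) + T.NS S P y +
        ∑ i, (T.k i * logHeight (A.x P) + logHeight (fun c => y (i, c))) := by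
  have h1 : ∀ i, 2 * T.ht P y i =
      (∑ w : NumberField.InfinitePlace K, (w.mult : ℝ) * |T.tau w.val P y i|) +
        (∑ v ∈ S, |T.tau v.val P y i|) +
        (∑ᶠ v : {v : NumberField.FinitePlace K // v ∉ S}, |T.tau v.1.val P y i|) +
        (T.k i * logHeight (A.x P) + logHeight (fun c => y (i, c))) := by
    intro i
    have h2 := H_two T S hy i
    linarith
  rw [Finset.mul_sum, Finset.sum_congr rfl fun i _ => h1 i, Finset.sum_add_distrib,
    Finset.sum_add_distrib, Finset.sum_add_distrib, Finset.sum_comm,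
    Finset.sum_comm (t := S)]
  unfold Tor.NS
  congr 3
  refine Finset.sum_congr rfl fun w _ => ?_
  rw [Finset.mul_sum]

/-- The sum of the heights of the lines. -/
theorem M_lines [NumberField K] (M : ℕ) {P : A.Pts K} {y : Fin q × Fin p → K} (hy : T.On P y) :
    ∑ b : Bx q M, logHeight (fun κ => aeval (A.x P) (wB T M b κ)) =
      (M + 1) ^ q * (M / 2) *
        ∑ i, (T.k i * logHeight (A.x P) + logHeight (fun c => y (i, c))) := by
  have h1 : ∀ b : Bx q M, logHeight (fun κ => aeval (A.x P) (wB T M b κ)) =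
      (M : ℝ) * ∑ i, T.k i * logHeight (A.x P) +
        SG.wt (fun i => logHeight (fun c => y (i, c)) - T.k i * logHeight (A.x P)) (toF b) := by
    intro b
    rw [H_w T M hy b]
    unfold SG.wt
    rw [Finset.mul_sum, ← Finset.sum_add_distrib]
    refine Finset.sum_congr rfl fun i _ => ?_
    rw [SG.toF_apply]
    ring
  rw [Finset.sum_congr rfl fun b _ => h1 b, Finset.sum_add_distrib, SG.wt_sum, Finset.sum_const,
    Finset.card_univ, Fintype.card_fun, Fintype.card_fin, Fintype.card_fin, nsmul_eq_mul,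
    Finset.sum_sub_distrib, Finset.sum_add_distrib]
  push_cast
  ring

/-- The vector `phi` in terms of the lines. -/
theorem M_phi (M : ℕ) {P : A.Pts K} {y : Fin q × Fin p → K} {t : Fin q → K}
    (ht : ∀ i c, y (i, c) = t i * aeval (A.x P) (T.η i c)) (Z : Fin n → K)
    (x : Cx N q p M n) :
    phi T.k M (A.x P) y Z x =
      aeval (A.x P) (wB T M x.1 x.2.1) * ((∏ i, t i ^ (x.1 i : ℕ)) * Z x.2.2) := by
  unfold phi wB
  split_ifs with hMt
  · have h1 : ∏ i, y i ^ (x.2.1.2 i : ℕ) =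
        (∏ i, aeval (A.x P) (T.η i.1 i.2) ^ (x.2.1.2 i : ℕ)) * ∏ i, t i ^ (x.1 i : ℕ) := by
      have h2 : ∀ i, t i ^ (x.1 i : ℕ) = ∏ c, t i ^ (x.2.1.2 (i, c) : ℕ) := by
        intro i
        rw [Finset.prod_pow_eq_pow_sum, hMt i]
      rw [Finset.prod_congr rfl fun i _ => h2 i,
        ← Fintype.prod_prod_type fun z : Fin q × Fin p => t z.1 ^ (x.2.1.2 z : ℕ),
        ← Finset.prod_mul_distrib]
      refine Finset.prod_congr rfl fun z _ => ?_
      rw [show y z = t z.1 * aeval (A.x P) (T.η z.1 z.2) from ht z.1 z.2, mul_pow, mul_comm]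
    rw [h1, map_mul, map_pow, aeval_X, map_prod]
    simp only [map_pow]
    ring
  · rw [map_zero, zero_mul]

theorem M_core [NumberField K] (Γ : AddSubgroup (A.Pts K)) (hΓ : Γ.FG) (hgr : g + r = n)
    (hr : 0 < r) (D D' : ℕ) (G : Matrix (Fin g) (Fin n) (MvPolynomial (Fin (N + 1)) K))
    (hG : ∀ i l, (G i l).IsHomogeneous D')
    (Λ : Matrix (Fin s) (Fin n) (MvPolynomial (Fin q × Fin p) (MvPolynomial (Fin (N + 1)) K)))
    (hΛ : ∀ j l, T.WH D (Λ j l))
    (S : Finset (NumberField.FinitePlace K)) (ε : ℝ) (hε : 0 < ε) :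
    ∃ (C : ℝ) (F : MvPolynomial (Fin (N + 1) ⊕ (Fin q × Fin p) ⊕ Fin n) K), T.Exc G F ∧
      ∀ P ∈ Γ, ∀ y : Fin q × Fin p → K, T.On P y → ∀ Z : Fin n → K, Z ≠ 0 → Z ∈ Fib A G P →
        aeval (Sum.elim (A.x P) (Sum.elim y Z)) F ≠ 0 →
        ∀ (Ji : NumberField.InfinitePlace K → Finset (Fin s))
          (Jf : NumberField.FinitePlace K → Finset (Fin s)),
          (∀ v, T.Ind G Λ (T.tau v.val P y) (Ji v)) →
          (∀ v ∈ S, T.Ind G Λ (T.tau v.val P y) (Jf v)) →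
          (∀ j, (∃ v, j ∈ Ji v) ∨ (∃ v ∈ S, j ∈ Jf v) → (∑ l, ev P y (Λ j l) * Z l) ≠ 0) ∧
          (∑ v : NumberField.InfinitePlace K, (v.mult : ℝ) *
              ∑ j ∈ Ji v, T.lam v.val D (Λ j) P y Z) +
            (∑ v ∈ S, ∑ j ∈ Jf v, T.lam v.val D (Λ j) P y Z) + hE A G P ≤
            r * logHeight Z + ε * (logHeight Z + logHeight (A.x P) + ∑ i, T.ht P y i) +
              C * (1 + T.NS S P y) := by
  classical
  by_cases hGi : ∃ (L : Type u) (_ : Field L) (_ : Algebra K L) (P : A.Pts L), Gen A P ∧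
      LinearIndependent L (fun i l => aeval (A.x P) (G i l))
  swap
  · refine ⟨0, 1, X_one T, ?_⟩
    intro P hP y hy Z hZ hZE hne Ji Jf hJi hJf
    exfalso
    obtain ⟨L, _, _, _, P₀, hP₀⟩ := EF.T_gen A
    obtain ⟨v⟩ : Nonempty (NumberField.InfinitePlace K) := inferInstance
    exact hGi ⟨L, inferInstance, inferInstance, P₀, hP₀, T_G T (hJi v) P₀ hP₀⟩
  obtain ⟨d, hd⟩ := M_deg Λ
  have hr' : (0 : ℝ) < r := by exact_mod_cast hr
  obtain ⟨k, hk⟩ := SG.M_box q d (δ := ε / (2 * r)) (by positivity)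
  obtain ⟨M, hM⟩ : ∃ M, M = k + d := ⟨_, rfl⟩
  have hdM : d ≤ M := by omega
  have hMd : M - d = k := by omega
  obtain ⟨c, hc⟩ : ∃ c : ℝ, c = ((M - d + 1 : ℕ) : ℝ) ^ q := ⟨_, rfl⟩
  obtain ⟨b, hb⟩ : ∃ b : ℝ, b = ((M : ℝ) + 1) ^ q := ⟨_, rfl⟩
  have hc1 : 1 ≤ c := by
    rw [hc]
    refine one_le_pow₀ ?_
    push_cast
    have : (0 : ℝ) ≤ ((M - d : ℕ) : ℝ) := Nat.cast_nonneg _
    linarith
  have hcb : c ≤ b := by
    rw [hc, hb]
    refine pow_le_pow_left₀ (Nat.cast_nonneg _) ?_ _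
    have : (((M - d + 1 : ℕ)) : ℝ) ≤ ((M + 1 : ℕ) : ℝ) := by
      exact_mod_cast Nat.succ_le_succ (Nat.sub_le _ _)
    push_cast at this ⊢
    exact this
  have hbc : b * r ≤ (r + ε / 2) * c := by
    have h1 : b ≤ (1 + ε / (2 * r)) * c := by
      rw [hb, hc, hMd]
      have h2 : ((k + d + 1 : ℕ) : ℝ) = (M : ℝ) + 1 := by
        rw [hM]
        push_cast
        ring
      rw [← h2]
      exact hk
    calc b * r ≤ ((1 + ε / (2 * r)) * c) * r := mul_le_mul_of_nonneg_right h1 hr'.le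
      _ = (r + ε / 2) * c := by field_simp
  have hcard : (Fintype.card (Bx q M) : ℝ) = b := by
    rw [hb, Fintype.card_fun, Fintype.card_fin, Fintype.card_fin]
    push_cast
    ring
  have hM0 : (0 : ℝ) ≤ M := Nat.cast_nonneg _
  obtain ⟨C₁, F₁, hF₁, h⟩ := W_main A Γ hΓ hgr hr D D' (β := Bx q M) (κ := Kp N q p M)
    (σ := (Fin (N + 1) × (Fin q → Fin p)) × Ix q M d n s) G hG hGi (wB T M)
    (fun b => ex T.k b + ∑ i, T.e i * b i) (fun b κ => wB_hom T M b κ) (fun b => wB_ne T M b)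
    (fun j => LamT (M := M) (d := d) T.k j.1.1 j.1.2 D Λ j.2)
    (fun j x => LamT_hom T j.1.1 j.1.2 hΛ j.2 x) S (ε / (2 * (M + 1))) (by positivity)
  refine ⟨r * b * (M / 2) + |C₁|, pullF T.k F₁, X_exc T hF₁, ?_⟩
  intro P hP y hy Z hZ hZE hne Ji Jf hJi hJf
  rw [X_eval] at hne
  choose t ht using fun i => (hy i).2
  obtain ⟨Y, hYd⟩ : ∃ Y, Y = phi T.k M (A.x P) y Z := ⟨_, rfl⟩
  have hY : Y ≠ 0 := by
    rw [hYd]
    exact H_phi_ne T M hy hZ
  obtain ⟨Z', hZd⟩ : ∃ Z' : Bx q M × Fin n → K, ∀ z, Z' z = (∏ i, t i ^ (z.1 i : ℕ)) * Z z.2 :=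
    ⟨_, fun z => rfl⟩
  have hYe : ∀ x : Bx q M × Kp N q p M × Fin n,
      Y x = aeval (A.x P) (wB T M x.1 x.2.1) * Z' (x.1, x.2.2) := by
    intro x
    rw [hYd, hZd]
    exact M_phi T M ht Z x
  have hZf : ∀ b : Bx q M, (fun l => Z' (b, l)) ∈ Fib A G P := by
    intro b i
    have h1 : ∑ l, aeval (A.x P) (G i l) * Z' (b, l) =
        (∏ i, t i ^ (b i : ℕ)) * ∑ l, aeval (A.x P) (G i l) * Z l := by
      rw [Finset.mul_sum]
      refine Finset.sum_congr rfl fun l _ => ?_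
      rw [hZd]
      ring
    simp only
    rw [h1, hZE i, mul_zero]
  rw [← hYd] at hne
  obtain ⟨-, h⟩ := h P hP Z' hZf Y hY hYe hne
  -- the largest coordinates at a place
  have hmax : ∀ v : AbsoluteValue K ℝ, ∃ (a : Fin (N + 1)) (ch : Fin q → Fin p),
      v (A.x P a) = (⨆ j, v (A.x P j)) ∧ (∀ i, v (y (i, ch i)) = ⨆ c, v (y (i, c))) ∧
      (X a : MvPolynomial (Fin (N + 1)) K) ∉ A.I ∧ ∀ i, T.η i (ch i) ∉ A.I := by
    intro v
    obtain ⟨a, ha⟩ := exists_eq_ciSup_of_finite (f := fun j => v (A.x P j))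
    have hch : ∀ i, ∃ c, v (y (i, c)) = ⨆ c, v (y (i, c)) := by
      intro i
      obtain ⟨⟨c, hc⟩, -⟩ := hy i
      have : Nonempty (Fin p) := ⟨c⟩
      exact exists_eq_ciSup_of_finite (f := fun c => v (y (i, c)))
    choose ch hch using hch
    refine ⟨a, ch, ha, hch, fun h0 => ?_, fun i h0 => ?_⟩
    · have h1 := P.2 _ h0
      rw [aeval_X] at h1
      have h2 := V_x_pos v P
      rw [← ha] at h2
      rw [show A.x P a = 0 from h1, map_zero] at h2
      exact lt_irrefl _ h2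
    · have h1 : aeval (A.x P) (T.η i (ch i)) = 0 := P.2 _ h0
      have h2 := V_y_pos T v hy i
      rw [← hch i, ht i (ch i), h1, mul_zero, map_zero] at h2
      exact lt_irrefl _ h2
  choose a ch ha hch haI hchI using hmax
  choose Wi hWi hWic hWis using fun v => T_main T hgr hdM G hG Λ hΛ hd _ (Ji v) (hJi v)
  have hWf : ∀ v : NumberField.FinitePlace K, ∃ W : Finset (Bx q M × Fin n), v ∈ S →
      (∀ (a : Fin (N + 1)) (ch : Fin q → Fin p),
        (X a : MvPolynomial (Fin (N + 1)) K) ∉ A.I → (∀ i, T.η i (ch i) ∉ A.I) →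
        IndB A (Bx q M) G (fun j => red (wB T M) (LamT (M := M) (d := d) T.k a ch D Λ j))
          ((Jf v ×ˢ Finset.univ).disjSum W)) ∧
      W.card + (Jf v).card * (M - d + 1) ^ q = r * (M + 1) ^ q ∧
      ∑ j ∈ Jf v, ∑ m : Bx q (M - d), (SG.wt (T.tau v.val P y) (toF m) +
        maxWt (T.tau v.val P y) (Λ j)) + ∑ z ∈ W, SG.wt (T.tau v.val P y) (toF z.1) =
        r * ∑ m : Bx q M, SG.wt (T.tau v.val P y) (toF m) := by
    intro v
    by_cases hv : v ∈ S
    · obtain ⟨W, hW⟩ := T_main T hgr hdM G hG Λ hΛ hd _ (Jf v) (hJf v hv)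
      exact ⟨W, fun _ => hW⟩
    · exact ⟨∅, fun h => absurd h hv⟩
  choose Wf hWf using hWf
  obtain ⟨e, he⟩ : ∃ e : AbsoluteValue K ℝ → (Ix q M d n s ↪
      (Fin (N + 1) × (Fin q → Fin p)) × Ix q M d n s), ∀ v z, e v z = ((a v, ch v), z) :=
    ⟨fun v => ⟨fun z => ((a v, ch v), z), fun z z' h => (Prod.ext_iff.1 h).2⟩, fun v z => rfl⟩
  have hind : ∀ (v : AbsoluteValue K ℝ) (B : Finset (Ix q M d n s)),
      IndB A (Bx q M) G (fun j => red (wB T M) (LamT (M := M) (d := d) T.k (a v) (ch v) D Λ j)) B →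
      IndB A (Bx q M) G (fun j : (Fin (N + 1) × (Fin q → Fin p)) × Ix q M d n s =>
        red (wB T M) (LamT (M := M) (d := d) T.k j.1.1 j.1.2 D Λ j.2)) (B.map (e v)) := by
    intro v B hB
    refine M_ind (e v) _ ?_
    simp only [he]
    exact hB
  obtain ⟨h1, h2⟩ := h (fun v => ((Ji v ×ˢ Finset.univ).disjSum (Wi v)).map (e v.val))
    (fun v => ((Jf v ×ˢ Finset.univ).disjSum (Wf v)).map (e v.val))
    (fun v => hind v.val _ (hWi v _ _ (haI v.val) (hchI v.val)))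
    (fun v hv => hind v.val _ ((hWf v hv).1 _ _ (haI v.val) (hchI v.val)))
  rw [hYd] at h1 h2
  have h1i : ∀ v : NumberField.InfinitePlace K,
      ∀ j ∈ (Ji v ×ˢ Finset.univ).disjSum (Wi v),
      (∑ x, aeval (A.x P) (LamT (M := M) (d := d) T.k (a v.val) (ch v.val) D Λ j x) *
        phi T.k M (A.x P) y Z x) ≠ 0 := by
    intro v j hj
    have h3 := h1 (e v.val j) (Or.inl ⟨v, Finset.mem_map_of_mem _ hj⟩)
    rw [he] at h3
    exact h3
  have h1f : ∀ v ∈ S, ∀ j ∈ (Jf v ×ˢ Finset.univ).disjSum (Wf v),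
      (∑ x, aeval (A.x P) (LamT (M := M) (d := d) T.k (a v.val) (ch v.val) D Λ j x) *
        phi T.k M (A.x P) y Z x) ≠ 0 := by
    intro v hv j hj
    have h3 := h1 (e v.val j) (Or.inr ⟨v, hv, Finset.mem_map_of_mem _ hj⟩)
    rw [he] at h3
    exact h3
  refine ⟨?_, ?_⟩
  · rintro j (⟨v, hj⟩ | ⟨v, hv, hj⟩)
    · have h3 := h1i v (Sum.inl (j, fun _ => 0)) (Finset.inl_mem_disjSum.2
        (Finset.mk_mem_product hj (Finset.mem_univ _)))
      rw [V_val T hdM _ _ Λ hd] at h3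
      exact right_ne_zero_of_mul h3
    · have h3 := h1f v hv (Sum.inl (j, fun _ => 0)) (Finset.inl_mem_disjSum.2
        (Finset.mk_mem_product hj (Finset.mem_univ _)))
      rw [V_val T hdM _ _ Λ hd] at h3
      exact right_ne_zero_of_mul h3
  · have hmap : ∀ (v : AbsoluteValue K ℝ) (B : Finset (Ix q M d n s)),
        ∑ j ∈ B.map (e v), lamF A v D (LamT (M := M) (d := d) T.k j.1.1 j.1.2 D Λ j.2) P
            (phi T.k M (A.x P) y Z) =
          ∑ j ∈ B, lamF A v D (LamT (M := M) (d := d) T.k (a v) (ch v) D Λ j) P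
            (phi T.k M (A.x P) y Z) := by
      intro v B
      rw [Finset.sum_map]
      refine Finset.sum_congr rfl fun j _ => ?_
      rw [he]
    simp only [hmap] at h2
    have hVi : ∀ v : NumberField.InfinitePlace K,
        c * ∑ j ∈ Ji v, T.lam v.val D (Λ j) P y Z +
          r * b * (M / 2) * ∑ i, |T.tau v.val P y i| ≤
        ∑ j ∈ (Ji v ×ˢ Finset.univ).disjSum (Wi v),
          lamF A v.val D (LamT (M := M) (d := d) T.k (a v.val) (ch v.val) D Λ j) P
            (phi T.k M (A.x P) y Z) := by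
      intro v
      rw [hc, hb]
      exact V_main T hdM Λ hd v.val P y hy (a v.val) (ha v.val) (ch v.val) (hch v.val) Z hZ
        (Ji v) (Wi v) (hWic v) (hWis v) (h1i v)
    have hVf : ∀ v ∈ S,
        c * ∑ j ∈ Jf v, T.lam v.val D (Λ j) P y Z +
          r * b * (M / 2) * ∑ i, |T.tau v.val P y i| ≤
        ∑ j ∈ (Jf v ×ˢ Finset.univ).disjSum (Wf v),
          lamF A v.val D (LamT (M := M) (d := d) T.k (a v.val) (ch v.val) D Λ j) P
            (phi T.k M (A.x P) y Z) := by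
      intro v hv
      rw [hc, hb]
      exact V_main T hdM Λ hd v.val P y hy (a v.val) (ha v.val) (ch v.val) (hch v.val) Z hZ
        (Jf v) (Wf v) (hWf v hv).2.1 (hWf v hv).2.2 (h1f v hv)
    have hSi := Finset.sum_le_sum fun v (_ : v ∈ (Finset.univ :
      Finset (NumberField.InfinitePlace K))) =>
        mul_le_mul_of_nonneg_left (hVi v) (Nat.cast_nonneg v.mult)
    have hSf := Finset.sum_le_sum hVf
    have hei : ∑ v : NumberField.InfinitePlace K, (v.mult : ℝ) *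
        (c * ∑ j ∈ Ji v, T.lam v.val D (Λ j) P y Z +
          r * b * (M / 2) * ∑ i, |T.tau v.val P y i|) =
        c * (∑ v : NumberField.InfinitePlace K, (v.mult : ℝ) *
          ∑ j ∈ Ji v, T.lam v.val D (Λ j) P y Z) +
        r * b * (M / 2) * ∑ v : NumberField.InfinitePlace K, (v.mult : ℝ) *
          ∑ i, |T.tau v.val P y i| := by
      rw [Finset.mul_sum, Finset.mul_sum, ← Finset.sum_add_distrib]
      exact Finset.sum_congr rfl fun v _ => by ring
    have hef : ∑ v ∈ S, (c * ∑ j ∈ Jf v, T.lam v.val D (Λ j) P y Z +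
          r * b * (M / 2) * ∑ i, |T.tau v.val P y i|) =
        c * (∑ v ∈ S, ∑ j ∈ Jf v, T.lam v.val D (Λ j) P y Z) +
        r * b * (M / 2) * ∑ v ∈ S, ∑ i, |T.tau v.val P y i| := by
      rw [Finset.mul_sum, Finset.mul_sum, ← Finset.sum_add_distrib]
    have hlines : ∑ b' : Bx q M, ((r : ℝ) * logHeight (fun c => aeval (A.x P) (wB T M b' c)) +
        hE A G P) = r * b * (M / 2) *
          ∑ i, (T.k i * logHeight (A.x P) + logHeight (fun c => y (i, c))) + b * hE A G P := by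
      rw [Finset.sum_add_distrib, ← Finset.mul_sum, M_lines T M hy, Finset.sum_const,
        Finset.card_univ, nsmul_eq_mul, hcard, ← hb]
      ring
    rw [hei] at hSi
    rw [hef] at hSf
    rw [hlines, hcard, H_phi T M hy hZ] at h2
    have hT := M_two T S hy
    have hN := NS_nonneg T S P y
    have hEn : 0 ≤ hE A G P := logHeight_nonneg _
    have hZn : 0 ≤ logHeight Z := logHeight_nonneg _
    have hxn : 0 ≤ logHeight (A.x P) := logHeight_nonneg _
    have htn : 0 ≤ ∑ i, T.ht P y i := Finset.sum_nonneg fun i _ => logHeight_nonneg _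
    exact SG.M_num hε hr'.le hM0 hc1 hcb hbc hSi hSf h2 (by linarith) hZn hxn htn hEn hN

end

end Pool.Agent.Lib.MP_17a322_nt.TB
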