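import Pool.Agent.Lib.MP_17a322_nt.TB.R1
import Pool.Agent.Lib.MP_17a322_nt.TB.M1

/-!
Vertical divisors.
-/

universe u

namespace Pool.Agent.Lib.MP_17a322_nt.TB

open MvPolynomial Height
open Pool.Agent.Lib.MP_17a322_nt.VA
open Pool.Agent.Lib.MP_17a322_nt.SL

section

variable {K : Type u} [Field K] {N q p : ℕ} {A : AV K N} (T : Tor A q p) {g n : ℕ}

theorem N1_ind (G' : Matrix (Fin 0) (Fin 1) (MvPolynomial (Fin (N + 1)) K))
    (f : MvPolynomial (Fin q × Fin p) (MvPolynomial (Fin (N + 1)) K)) (hfA : T.NZ f)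
    (τ : Fin q → ℝ) (J : Finset (Fin 1)) :
    T.Ind G' (fun (_ : Fin 1) (_ : Fin 1) => f) τ J := by
  classical
  intro L _ _ P hP
  rw [Fintype.linearIndependent_iff]
  intro w hw i
  rcases i with i | j
  · exact i.elim0
  · have h1 := congrFun hw 0
    rw [Finset.sum_apply, Fintype.sum_sum_type] at h1
    simp only [Finset.univ_eq_empty, Finset.sum_empty, zero_add, Sum.elim_inr, Pi.smul_apply,
      Pi.zero_apply, smul_eq_mul] at h1
    have h2 : ∀ k : J, k = j := fun k => Subsingleton.elim _ _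
    have h3 : ∑ k : J, w (Sum.inr k) * T.sp P (partWt τ (maxWt τ fun _ : Fin 1 => f) f) =
        w (Sum.inr j) * T.sp P (partWt τ (maxWt τ fun _ : Fin 1 => f) f) := by
      refine Fintype.sum_eq_single j fun k hk => absurd (h2 k) hk
    rw [h3] at h1
    exact (mul_eq_zero.1 h1).resolve_right (hfA τ L P hP)

theorem N_main [NumberField K] (Γ : AddSubgroup (A.Pts K)) (hΓ : Γ.FG)
    (G : Matrix (Fin g) (Fin n) (MvPolynomial (Fin (N + 1)) K)) {e : ℕ}
    (f : MvPolynomial (Fin q × Fin p) (MvPolynomial (Fin (N + 1)) K))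
    (hf : T.WH e f) (hfA : T.NZ f)
    (S : Finset (NumberField.FinitePlace K)) (ε : ℝ) (hε : 0 < ε) :
    ∃ (C : ℝ) (F : MvPolynomial (Fin (N + 1) ⊕ (Fin q × Fin p) ⊕ Fin n) K), T.Exc G F ∧
      ∀ P ∈ Γ, ∀ y : Fin q × Fin p → K, T.On P y → ∀ Z : Fin n → K,
        aeval (Sum.elim (A.x P) (Sum.elim y Z)) F ≠ 0 → ev P y f ≠ 0 ∧
          (∑ v : NumberField.InfinitePlace K, (v.mult : ℝ) *
              T.lam v.val e (fun _ : Fin 1 => f) P y (fun _ => 1)) +
            (∑ v ∈ S, T.lam v.val e (fun _ : Fin 1 => f) P y (fun _ => 1)) ≤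
            ε * (logHeight (A.x P) + ∑ i, T.ht P y i) + C * (1 + T.NS S P y) := by
  classical
  obtain ⟨G', hG'⟩ : ∃ G' : Matrix (Fin 0) (Fin 1) (MvPolynomial (Fin (N + 1)) K),
      G' = fun i _ => i.elim0 := ⟨_, rfl⟩
  obtain ⟨C₀, F₀, hF₀, h1⟩ := M_core T Γ hΓ (show 0 + 1 = 1 from rfl) one_pos e 0 G'
    (fun i => i.elim0) (fun (_ : Fin 1) (_ : Fin 1) => f) (fun _ _ => hf) S ε hε
  refine ⟨C₀, _, X_vert T G' hF₀, ?_⟩
  intro P hP y hy Z hF
  have h2 : aeval (Sum.elim (A.x P) (Sum.elim y Z))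
      (aeval (Sum.elim (fun i =>
        (X (Sum.inl i) : MvPolynomial (Fin (N + 1) ⊕ (Fin q × Fin p) ⊕ Fin n) K))
      (Sum.elim (fun i => X (Sum.inr (Sum.inl i))) fun _ => 1)) F₀) =
      aeval (Sum.elim (A.x P) (Sum.elim y fun _ : Fin 1 => 1)) F₀ := by
    rw [← AlgHom.comp_apply, comp_aeval]
    have h3 : (fun i => (aeval (Sum.elim (A.x P) (Sum.elim y Z)))
        (Sum.elim (fun i =>
          (X (Sum.inl i) : MvPolynomial (Fin (N + 1) ⊕ (Fin q × Fin p) ⊕ Fin n) K))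
        (Sum.elim (fun i => X (Sum.inr (Sum.inl i))) fun _ => 1) i)) =
        Sum.elim (A.x P) (Sum.elim y fun _ : Fin 1 => 1) := by
      funext i
      rcases i with i | i | i
      · simp only [Sum.elim_inl, aeval_X]
      · simp only [Sum.elim_inl, Sum.elim_inr, aeval_X]
      · simp only [Sum.elim_inr, map_one]
    rw [h3]
  rw [h2] at hF
  have hone : (fun _ : Fin 1 => (1 : K)) ≠ 0 := by
    intro h
    exact one_ne_zero (congrFun h 0)
  obtain ⟨h4, h5⟩ := h1 P hP y hy (fun _ => 1) hone (fun i => i.elim0) hF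
    (fun _ => Finset.univ) (fun _ => Finset.univ)
    (fun v => N1_ind T G' f hfA _ _) (fun v _ => N1_ind T G' f hfA _ _)
  have h6 : ev P y f ≠ 0 := by
    obtain ⟨v⟩ : Nonempty (NumberField.InfinitePlace K) := inferInstance
    have h7 := h4 0 (Or.inl ⟨v, Finset.mem_univ _⟩)
    rw [Finset.sum_const, Finset.card_univ, Fintype.card_fin, one_smul, mul_one] at h7
    exact h7
  refine ⟨h6, ?_⟩
  have h8 : logHeight (fun _ : Fin 1 => (1 : K)) = 0 := logHeight_one
  have h9 : 0 ≤ hE A G' P := by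
    unfold hE
    exact logHeight_nonneg _
  simp only [Finset.univ_unique, Finset.sum_singleton] at h5
  rw [h8] at h5
  simp only [mul_zero, zero_add] at h5
  linarith

end

end Pool.Agent.Lib.MP_17a322_nt.TB
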