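import Pool.Agent.Lib.MP_17a322_nt.TB.Defs2
import Pool.Agent.Lib.MP_17a322_nt.SG.L3
import Pool.Agent.Lib.MP_17a322_nt.EF.T1

/-!
Moving hyperplanes over principal torus bundles: polynomials at the points `(P, t η(P))`.
-/

universe u

namespace Pool.Agent.Lib.MP_17a322_nt.TB

open MvPolynomial Height
open Pool.Agent.Lib.MP_17a322_nt.VA
open Pool.Agent.Lib.MP_17a322_nt.SL
open Pool.Agent.Lib.MP_17a322_nt.SG (Bx toF Ix IndB shf)

/-- The multidegree of an exponent. -/
noncomputable def yd {q p : ℕ} (μ : Fin q × Fin p →₀ ℕ) : Fin q →₀ ℕ :=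
  Finsupp.equivFunOnFinite.symm fun i => ∑ c, μ (i, c)

theorem yd_apply {q p : ℕ} (μ : Fin q × Fin p →₀ ℕ) (i : Fin q) : yd μ i = ∑ c, μ (i, c) := rfl

theorem yd_add {q p : ℕ} (μ μ' : Fin q × Fin p →₀ ℕ) : yd (μ + μ') = yd μ + yd μ' := by
  ext i
  rw [Finsupp.add_apply, yd_apply, yd_apply, yd_apply, ← Finset.sum_add_distrib]
  rfl

theorem wt_yd {q p : ℕ} (τ : Fin q → ℝ) (μ : Fin q × Fin p →₀ ℕ) :
    SG.wt τ (yd μ) = wt τ μ := by
  unfold SG.wt wt
  rw [Fintype.sum_prod_type]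
  refine Finset.sum_congr rfl fun i _ => ?_
  rw [yd_apply, Nat.cast_sum, Finset.sum_mul]

theorem mch_apply {q p M : ℕ} (ch : Fin q → Fin p) (m : Bx q M) (i : Fin q × Fin p) :
    mch ch m i = if i.2 = ch i.1 then (m i.1 : ℕ) else 0 := rfl

theorem toK_apply {q p M : ℕ} (μ : Fin q × Fin p → Fin (M + 1)) (i : Fin q × Fin p) :
    toK μ i = (μ i : ℕ) := rfl

theorem yd_mch {q p M : ℕ} (ch : Fin q → Fin p) (m : Bx q M) : yd (mch ch m) = toF m := by
  ext i
  rw [yd_apply]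
  simp only [mch_apply]
  rw [Finset.sum_ite_eq' Finset.univ (ch i) fun _ => (m i : ℕ), if_pos (Finset.mem_univ _)]
  rfl

theorem mt_iff {q p M : ℕ} (b : Bx q M) (μ : Fin q × Fin p → Fin (M + 1)) :
    Mt b μ ↔ yd (toK μ) = toF b := by
  unfold Mt
  constructor
  · intro h
    ext i
    rw [yd_apply]
    exact h i
  · intro h i
    have h1 := DFunLike.congr_fun h i
    rw [yd_apply] at h1
    exact h1

theorem toK_inj {q p M : ℕ} :
    Function.Injective (toK : (Fin q × Fin p → Fin (M + 1)) → (Fin q × Fin p →₀ ℕ)) := by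
  intro μ μ' h
  funext i
  exact Fin.ext (DFunLike.congr_fun h i)

theorem toK_surj {q p M : ℕ} {μ : Fin q × Fin p →₀ ℕ} (h : ∀ i, yd μ i ≤ M) :
    ∃ μ' : Fin q × Fin p → Fin (M + 1), toK μ' = μ := by
  have h1 : ∀ i, μ i ≤ M := fun i =>
    (Finset.single_le_sum (f := fun c => μ (i.1, c)) (fun _ _ => Nat.zero_le _)
      (Finset.mem_univ i.2)).trans (h i.1)
  refine ⟨fun i => ⟨μ i, Nat.lt_succ_of_le (h1 i)⟩, ?_⟩
  ext i
  rfl

section

variable {q p : ℕ} {R S : Type*} [CommRing R] [CommRing S]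

/-- The substitution `y ↦ t y`. -/
noncomputable def spR (φ : R →+* S) (y : Fin q × Fin p → S) :
    MvPolynomial (Fin q × Fin p) R →+* MvPolynomial (Fin q) S :=
  eval₂Hom (C.comp φ) fun i => C (y i) * X i.1

theorem spR_monomial (φ : R →+* S) (y : Fin q × Fin p → S) (μ : Fin q × Fin p →₀ ℕ) (c : R) :
    spR φ y (monomial μ c) = monomial (yd μ) (φ c * ∏ i, y i ^ μ i) := by
  unfold spR
  rw [coe_eval₂Hom, eval₂_monomial, Finsupp.prod_fintype _ _ fun i => pow_zero _]
  have h1 : ∀ i : Fin q × Fin p, (C (y i) * X i.1 : MvPolynomial (Fin q) S) ^ μ i =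
      C (y i ^ μ i) * X i.1 ^ μ i := by
    intro i
    rw [mul_pow, C_pow]
  rw [Finset.prod_congr rfl fun i _ => h1 i, Finset.prod_mul_distrib, ← map_prod]
  have h2 : ∏ i : Fin q × Fin p, (X i.1 : MvPolynomial (Fin q) S) ^ μ i = monomial (yd μ) 1 := by
    rw [Fintype.prod_prod_type, monomial_eq, C_1, one_mul,
      Finsupp.prod_fintype _ _ fun i => pow_zero _]
    refine Finset.prod_congr rfl fun i _ => ?_
    rw [yd_apply, ← Finset.prod_pow_eq_pow_sum]
  rw [h2, RingHom.comp_apply, ← mul_assoc, ← C_mul, C_mul_monomial, mul_one]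

theorem spR_eq (φ : R →+* S) (y : Fin q × Fin p → S) (b : MvPolynomial (Fin q × Fin p) R) :
    spR φ y b = ∑ μ ∈ b.support, monomial (yd μ) (φ (coeff μ b) * ∏ i, y i ^ μ i) := by
  conv_lhs => rw [b.as_sum]
  rw [map_sum]
  exact Finset.sum_congr rfl fun μ _ => spR_monomial φ y μ _

theorem spR_coeff (φ : R →+* S) (y : Fin q × Fin p → S) (b : MvPolynomial (Fin q × Fin p) R)
    (m : Fin q →₀ ℕ) :
    coeff m (spR φ y b) = open Classical in
      ∑ μ ∈ b.support, if yd μ = m then φ (coeff μ b) * ∏ i, y i ^ μ i else 0 := by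
  classical
  rw [spR_eq, coeff_sum]
  refine Finset.sum_congr rfl fun μ _ => ?_
  rw [coeff_monomial]

theorem spR_support (φ : R →+* S) (y : Fin q × Fin p → S) (b : MvPolynomial (Fin q × Fin p) R)
    {m : Fin q →₀ ℕ} (hm : m ∈ (spR φ y b).support) : ∃ μ ∈ b.support, yd μ = m := by
  classical
  rw [mem_support_iff, spR_coeff] at hm
  by_contra hcon
  push Not at hcon
  refine hm (Finset.sum_eq_zero fun μ hμ => ?_)
  rw [if_neg (hcon μ hμ)]

theorem coeff_partWt (τ : Fin q → ℝ) (h : ℝ) (b : MvPolynomial (Fin q × Fin p) R)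
    (m : Fin q × Fin p →₀ ℕ) :
    coeff m (partWt τ h b) = (open Classical in if wt τ m = h then coeff m b else 0) := by
  classical
  unfold partWt
  rw [coeff_sum]
  have h1 : ∀ x ∈ b.support.filter fun m => wt τ m = h,
      coeff m (monomial x (coeff x b)) = if m = x then coeff m b else 0 := by
    intro x _
    rw [coeff_monomial]
    by_cases h2 : x = m
    · rw [if_pos h2, if_pos h2.symm, h2]
    · rw [if_neg h2, if_neg fun h3 => h2 h3.symm]
  rw [Finset.sum_congr rfl h1, Finset.sum_ite_eq]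
  by_cases h2 : wt τ m = h
  · rw [if_pos h2]
    by_cases h3 : m ∈ b.support
    · rw [if_pos (Finset.mem_filter.2 ⟨h3, h2⟩)]
    · rw [if_neg fun h4 => h3 (Finset.mem_filter.1 h4).1, notMem_support_iff.1 h3]
  · rw [if_neg h2]
    have h3 : m ∉ b.support.filter fun m => wt τ m = h := fun h4 =>
      h2 (Finset.mem_filter.1 h4).2
    rw [if_neg h3]

theorem spR_partWt (φ : R →+* S) (y : Fin q × Fin p → S) (τ : Fin q → ℝ) (h : ℝ)
    (b : MvPolynomial (Fin q × Fin p) R) :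
    spR φ y (partWt τ h b) = SG.partWt τ h (spR φ y b) := by
  classical
  ext m
  have h1 : (partWt τ h b).support ⊆ b.support := by
    intro μ hμ
    rw [mem_support_iff, coeff_partWt] at hμ
    rw [mem_support_iff]
    intro h0
    rw [h0, ite_self] at hμ
    exact hμ rfl
  have h2 : coeff m (spR φ y (partWt τ h b)) = ∑ μ ∈ b.support,
      if yd μ = m then φ (coeff μ (partWt τ h b)) * ∏ i, y i ^ μ i else 0 := by
    rw [spR_coeff]
    refine Finset.sum_subset h1 fun μ _ hμ => ?_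
    rw [notMem_support_iff.1 hμ, map_zero, zero_mul, ite_self]
  rw [h2]
  by_cases h3 : SG.wt τ m = h
  · rw [SG.coeff_partWt_eq h3, spR_coeff]
    refine Finset.sum_congr rfl fun μ _ => ?_
    by_cases h4 : yd μ = m
    · rw [if_pos h4, if_pos h4, coeff_partWt, if_pos (by rw [← wt_yd, h4, h3])]
    · rw [if_neg h4, if_neg h4]
  · rw [SG.coeff_partWt_ne h3]
    refine Finset.sum_eq_zero fun μ _ => ?_
    by_cases h4 : yd μ = m
    · rw [if_pos h4, coeff_partWt, if_neg (by rw [← wt_yd, h4]; exact h3), map_zero, zero_mul]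
    · rw [if_neg h4]

theorem le_maxWt {n : ℕ} (τ : Fin q → ℝ) (Λ : Fin n → MvPolynomial (Fin q × Fin p) R) {l : Fin n}
    {m : Fin q × Fin p →₀ ℕ} (hm : m ∈ (Λ l).support) : wt τ m ≤ maxWt τ Λ := by
  classical
  have h1 : m ∈ supp Λ := by
    unfold supp
    exact Finset.mem_biUnion.2 ⟨l, Finset.mem_univ _, hm⟩
  unfold maxWt
  exact le_ciSup (f := fun m : supp Λ => wt τ (m : Fin q × Fin p →₀ ℕ))
    (Set.finite_range _).bddAbove ⟨m, h1⟩

end

section

variable {K : Type u} [Field K] {N q p : ℕ} {A : AV K N} (T : Tor A q p)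

theorem sp_eq {L : Type u} [Field L] [Algebra K L] (P : A.Pts L)
    (b : MvPolynomial (Fin q × Fin p) (MvPolynomial (Fin (N + 1)) K)) :
    T.sp P b = spR (aeval (A.x P) : MvPolynomial (Fin (N + 1)) K →ₐ[K] L).toRingHom
      (fun i => aeval (A.x P) (T.η i.1 i.2)) b := rfl

/-- The value at `(P, t η(P))`. -/
theorem ev_sp {L : Type u} [Field L] [Algebra K L] (P : A.Pts L)
    (b : MvPolynomial (Fin q × Fin p) (MvPolynomial (Fin (N + 1)) K)) (t : Fin q → L) :
    eval t (T.sp P b) = ev P (fun i => t i.1 * aeval (A.x P) (T.η i.1 i.2)) b := by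
  unfold Tor.sp ev
  rw [eval_map, ← coe_eval₂Hom, ← RingHom.comp_apply, comp_eval₂Hom, coe_eval₂Hom]
  have h1 : (eval t).comp ((C : L →+* MvPolynomial (Fin q) L).comp
      (aeval (A.x P) : MvPolynomial (Fin (N + 1)) K →ₐ[K] L).toRingHom) =
      (aeval (A.x P) : MvPolynomial (Fin (N + 1)) K →ₐ[K] L).toRingHom := by
    refine RingHom.ext fun c => ?_
    rw [RingHom.comp_apply, RingHom.comp_apply, eval_C]
  have h2 : (fun i : Fin q × Fin p => eval t (C (aeval (A.x P) (T.η i.1 i.2)) * X i.1)) =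
      fun i => t i.1 * aeval (A.x P) (T.η i.1 i.2) := by
    funext i
    rw [map_mul, eval_C, eval_X, mul_comm]
  rw [h1, h2]

theorem T_gen_ne {L : Type u} [Field L] [Algebra K L] {P : A.Pts L} (hP : Gen A P)
    {f : MvPolynomial (Fin (N + 1)) K} {d : ℕ} (hf : f.IsHomogeneous d) (hf0 : f ∉ A.I) :
    aeval (A.x P) f ≠ 0 := fun h => hf0 (hP f d hf h)

/-- The degree of the forms `wB`. -/
theorem wB_hom (M : ℕ) (b : Bx q M) (κ : Kp N q p M) :
    (wB T M b κ).IsHomogeneous (ex T.k b + ∑ i, T.e i * b i) := by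
  classical
  unfold wB
  split_ifs with h
  · have h1 := (isHomogeneous_X K κ.1).pow (ex T.k b)
    rw [one_mul] at h1
    have h2 : (∏ i : Fin q × Fin p, T.η i.1 i.2 ^ (κ.2 i : ℕ)).IsHomogeneous
        (∑ i : Fin q × Fin p, T.e i.1 * (κ.2 i : ℕ)) :=
      IsHomogeneous.prod _ _ _ fun i _ => (T.hom i.1 i.2).pow _
    have h3 : ∑ i : Fin q × Fin p, T.e i.1 * (κ.2 i : ℕ) = ∑ i, T.e i * b i := by
      rw [Fintype.sum_prod_type]
      refine Finset.sum_congr rfl fun i _ => ?_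
      rw [← h i, Finset.mul_sum]
    rw [h3] at h2
    exact h1.mul h2
  · exact isHomogeneous_zero _ _ _

theorem wB_ne (M : ℕ) (b : Bx q M) : ∃ κ : Kp N q p M, wB T M b κ ∉ A.I := by
  classical
  obtain ⟨L, _, _, _, P₀, hP₀⟩ := EF.T_gen A
  obtain ⟨a, ha⟩ := A.exists_x_ne P₀
  choose c hc using T.ne
  obtain ⟨κ, hκ⟩ : ∃ κ : Kp N q p M, κ = (a, fun i => if i.2 = c i.1 then b i.1 else 0) :=
    ⟨_, rfl⟩
  refine ⟨κ, fun h => ?_⟩
  have h1 := A.x_isPt P₀ _ h
  have h2 : Mt b κ.2 := by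
    intro i
    rw [hκ]
    have h3 : ∀ c' : Fin p, ((if c' = c i then b i else 0 : Fin (M + 1)) : ℕ) =
        if c' = c i then (b i : ℕ) else 0 := by
      intro c'
      split_ifs <;> rfl
    simp only [h3]
    rw [Finset.sum_ite_eq' Finset.univ (c i) fun _ => (b i : ℕ), if_pos (Finset.mem_univ _)]
  unfold wB at h1
  rw [if_pos h2, map_mul, map_pow, aeval_X, map_prod, mul_eq_zero] at h1
  rcases h1 with h1 | h1
  · rw [hκ] at h1
    exact ha (eq_zero_of_pow_eq_zero h1)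
  · rw [Finset.prod_eq_zero_iff] at h1
    obtain ⟨i, -, hi⟩ := h1
    rw [map_pow] at hi
    by_cases h3 : i.2 = c i.1
    · refine T_gen_ne hP₀ (T.hom i.1 i.2) ?_ (eq_zero_of_pow_eq_zero hi)
      rw [h3]
      exact hc _
    · rw [hκ] at hi
      simp only [if_neg h3, Fin.val_zero, pow_zero] at hi
      exact one_ne_zero hi

end

end Pool.Agent.Lib.MP_17a322_nt.TB
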