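import Pool.Agent.Lib.MP_17a322_nt.TB.R1
import Pool.Agent.Lib.MP_17a322_nt.TB.T0

/-!
More than `r` relative hyperplanes: the determinant of `r` of them.
-/

universe u

namespace Pool.Agent.Lib.MP_17a322_nt.TB

open MvPolynomial Height
open Pool.Agent.Lib.MP_17a322_nt.VA
open Pool.Agent.Lib.MP_17a322_nt.SL

section

variable {K : Type u} [Field K] {N q p : ℕ} {A : AV K N} (T : Tor A q p) {g n r s : ℕ}

/-- The square matrix with the rows of `G` and the forms `Λ j`, `j ∈ J`. -/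
noncomputable def R2_M (G : Matrix (Fin g) (Fin n) (MvPolynomial (Fin (N + 1)) K))
    (Λ : Matrix (Fin s) (Fin n) (MvPolynomial (Fin q × Fin p) (MvPolynomial (Fin (N + 1)) K)))
    (J : Finset (Fin s)) (e : Fin n ≃ Fin g ⊕ J) :
    Matrix (Fin n) (Fin n) (MvPolynomial (Fin q × Fin p) (MvPolynomial (Fin (N + 1)) K)) :=
  Matrix.of fun i l => Sum.elim (fun (i : Fin g) (l : Fin n) => C (G i l))
    (fun (j : J) (l : Fin n) => Λ j l) (e i) l

/-- `T.sp P` as a homomorphism of rings. -/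
noncomputable def R2_sp {L : Type u} [Field L] [Algebra K L] (P : A.Pts L) :
    MvPolynomial (Fin q × Fin p) (MvPolynomial (Fin (N + 1)) K) →+* MvPolynomial (Fin q) L :=
  eval₂Hom ((C : L →+* MvPolynomial (Fin q) L).comp
      (aeval (A.x P) : MvPolynomial (Fin (N + 1)) K →ₐ[K] L).toRingHom)
    (fun i => C (aeval (A.x P) (T.η i.1 i.2)) * X i.1)

theorem R2_sp_eq {L : Type u} [Field L] [Algebra K L] (P : A.Pts L)
    (b : MvPolynomial (Fin q × Fin p) (MvPolynomial (Fin (N + 1)) K)) :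
    R2_sp T P b = T.sp P b := rfl

theorem R2_sp_C {L : Type u} [Field L] [Algebra K L] (P : A.Pts L)
    (c : MvPolynomial (Fin (N + 1)) K) : T.sp P (C c) = C (aeval (A.x P) c) := by
  unfold Tor.sp
  rw [eval₂_C]
  rfl

theorem R2_det_ne {S : Type*} [CommRing S] [IsDomain S] {k : ℕ} (M : Matrix (Fin k) (Fin k) S)
    (h : LinearIndependent S fun i => M i) : M.det ≠ 0 := by
  intro h0
  obtain ⟨v, hv, hv0⟩ := Matrix.exists_vecMul_eq_zero_iff.2 h0
  apply hv
  have h1 := Fintype.linearIndependent_iff.1 h v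
  funext i
  refine h1 ?_ i
  rw [← hv0]
  funext l
  rw [Finset.sum_apply]
  rfl

/-- The leading parts are independent, so the determinant of the leading parts is not zero. -/
theorem R2_lead (G : Matrix (Fin g) (Fin n) (MvPolynomial (Fin (N + 1)) K))
    (Λ : Matrix (Fin s) (Fin n) (MvPolynomial (Fin q × Fin p) (MvPolynomial (Fin (N + 1)) K)))
    (J : Finset (Fin s)) (e : Fin n ≃ Fin g ⊕ J) (τ : Fin q → ℝ) (hJ : T.Ind G Λ τ J) :
    (∀ m ∈ (R2_M G Λ J e).det.support, wt τ m ≤ ∑ j ∈ J, maxWt τ (Λ j)) ∧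
    ∀ (L : Type u) [Field L] [Algebra K L] (P : A.Pts L), Gen A P →
      T.sp P (partWt τ (∑ j ∈ J, maxWt τ (Λ j)) (R2_M G Λ J e).det) ≠ 0 := by
  classical
  obtain ⟨h, hh⟩ : ∃ h : Fin n → ℝ, h = fun i => Sum.elim (fun _ : Fin g => (0 : ℝ))
      (fun j : J => maxWt τ (Λ j)) (e i) := ⟨_, rfl⟩
  have hsum : ∑ i, h i = ∑ j ∈ J, maxWt τ (Λ j) := by
    rw [hh, Equiv.sum_comp e (Sum.elim (fun _ : Fin g => (0 : ℝ)) fun j : J => maxWt τ (Λ j)),
      Fintype.sum_sum_type]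
    simp only [Sum.elim_inl, Sum.elim_inr, Finset.sum_const_zero, zero_add]
    exact Finset.sum_coe_sort J fun j => maxWt τ (Λ j)
  have hM : ∀ i l, ∀ m ∈ (R2_M G Λ J e i l).support, wt τ m ≤ h i := by
    intro i l
    rw [hh]
    unfold R2_M
    rw [Matrix.of_apply]
    show ∀ m ∈ (Sum.elim (fun (i : Fin g) (l : Fin n) => C (G i l))
      (fun (j : J) (l : Fin n) => Λ j l) (e i) l).support, wt τ m ≤
      Sum.elim (fun _ : Fin g => (0 : ℝ)) (fun j : J => maxWt τ (Λ j)) (e i)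
    rcases e i with a | j
    · exact (R1_C τ (G a l)).1
    · exact R1_le_max τ (Λ j) l
  obtain ⟨h1, h2⟩ := R1_det (R2_M G Λ J e) h hM
  rw [hsum] at h1 h2
  refine ⟨h1, ?_⟩
  intro L _ _ P hP
  rw [h2, ← R2_sp_eq, RingHom.map_det]
  refine R2_det_ne _ ?_
  have h3 := (hJ L P hP).comp e e.injective
  have h4 : (fun i => ((R2_sp T P).mapMatrix
      (Matrix.of fun i l => partWt τ (h i) (R2_M G Λ J e i l))) i) =
      Sum.elim (fun (i : Fin g) (l : Fin n) => (C (aeval (A.x P) (G i l)) : MvPolynomial (Fin q) L))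
        (fun (j : J) (l : Fin n) =>
          T.sp P (partWt τ (maxWt τ (Λ j)) (Λ j l))) ∘ e := by
    funext i l
    rw [RingHom.mapMatrix_apply, Matrix.map_apply, Matrix.of_apply, Function.comp_apply, hh]
    unfold R2_M
    rw [Matrix.of_apply]
    show T.sp P
      (partWt τ (Sum.elim (fun _ : Fin g => (0 : ℝ)) (fun j : J => maxWt τ (Λ j)) (e i))
      (Sum.elim (fun (i : Fin g) (l : Fin n) => C (G i l))
        (fun (j : J) (l : Fin n) => Λ j l) (e i) l)) = _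
    rcases e i with a | j
    · show T.sp P (partWt τ 0 (C (G a l))) = C (aeval (A.x P) (G a l))
      rw [(R1_C τ (G a l)).2, R2_sp_C]
    · rfl
  rw [h4]
  exact h3

/-- The part of the multidegree `d` of `b` on the bundle. -/
noncomputable def R2_pd (b : MvPolynomial (Fin q × Fin p) (MvPolynomial (Fin (N + 1)) K))
    (d : Fin q →₀ ℕ) : MvPolynomial (Fin (N + 1)) K :=
  open Classical in
  ∑ μ ∈ b.support, if yd μ = d then coeff μ b * ∏ i, T.η i.1 i.2 ^ μ i else 0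

theorem R2_sp_coeff {L : Type u} [Field L] [Algebra K L] (P : A.Pts L)
    (b : MvPolynomial (Fin q × Fin p) (MvPolynomial (Fin (N + 1)) K)) (d : Fin q →₀ ℕ) :
    coeff d (T.sp P b) = aeval (A.x P) (R2_pd T b d) := by
  classical
  rw [sp_eq, spR_coeff]
  unfold R2_pd
  rw [map_sum]
  refine Finset.sum_congr rfl fun μ _ => ?_
  by_cases h : yd μ = d
  · rw [if_pos h, if_pos h, map_mul, map_prod]
    simp only [map_pow]
    rfl
  · rw [if_neg h, if_neg h, map_zero]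

theorem R2_pd_hom {ρ : ℕ} {b : MvPolynomial (Fin q × Fin p) (MvPolynomial (Fin (N + 1)) K)}
    (hb : T.WH ρ b) (d : Fin q →₀ ℕ) :
    (R2_pd T b d).IsHomogeneous (ρ - ∑ i, T.k i * d i + ∑ i, T.e i * d i) := by
  classical
  unfold R2_pd
  refine IsHomogeneous.sum _ _ _ fun μ hμ => ?_
  by_cases h : yd μ = d
  · rw [if_pos h]
    obtain ⟨δ, h1, h2⟩ := hb μ (mem_support_iff.1 hμ)
    have h3 : ∀ c : Fin q → ℕ, ∑ i : Fin q × Fin p, c i.1 * μ i = ∑ i, c i * d i := by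
      intro c
      rw [Fintype.sum_prod_type]
      refine Finset.sum_congr rfl fun i _ => ?_
      rw [← h, yd_apply, Finset.mul_sum]
    have h4 : (∏ i : Fin q × Fin p, T.η i.1 i.2 ^ μ i).IsHomogeneous
        (∑ i : Fin q × Fin p, T.e i.1 * μ i) :=
      IsHomogeneous.prod _ _ _ fun i _ => (T.hom i.1 i.2).pow _
    rw [h3] at h2 h4
    have h5 : δ = ρ - ∑ i, T.k i * d i := by omega
    rw [← h5]
    exact h1.mul h4
  · rw [if_neg h]
    exact isHomogeneous_zero _ _ _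

/-- The sum of the parts of `b` of the multidegrees for which the part is not zero on the bundle. -/
noncomputable def R2_red (b : MvPolynomial (Fin q × Fin p) (MvPolynomial (Fin (N + 1)) K)) :
    MvPolynomial (Fin q × Fin p) (MvPolynomial (Fin (N + 1)) K) := by
  classical
  exact ∑ μ ∈ b.support.filter fun μ => R2_pd T b (yd μ) ∉ A.I, monomial μ (coeff μ b)

theorem R2_red_coeff (b : MvPolynomial (Fin q × Fin p) (MvPolynomial (Fin (N + 1)) K))
    (μ : Fin q × Fin p →₀ ℕ) :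
    coeff μ (R2_red T b) =
      (open Classical in if R2_pd T b (yd μ) ∉ A.I then coeff μ b else 0) := by
  classical
  unfold R2_red
  rw [coeff_sum]
  simp only [coeff_monomial]
  rw [Finset.sum_ite_eq']
  by_cases h1 : R2_pd T b (yd μ) ∉ A.I
  · by_cases h2 : coeff μ b = 0
    · rw [if_pos h1, h2]
      split_ifs <;> rfl
    · rw [if_pos h1, if_pos]
      exact Finset.mem_filter.2 ⟨mem_support_iff.2 h2, h1⟩
  · rw [if_neg h1, if_neg]
    intro h2
    exact h1 (Finset.mem_filter.1 h2).2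

theorem R2_red_supp (b : MvPolynomial (Fin q × Fin p) (MvPolynomial (Fin (N + 1)) K))
    {μ : Fin q × Fin p →₀ ℕ} (hμ : μ ∈ (R2_red T b).support) :
    μ ∈ b.support ∧ R2_pd T b (yd μ) ∉ A.I := by
  classical
  rw [mem_support_iff, R2_red_coeff] at hμ
  by_cases h1 : R2_pd T b (yd μ) ∉ A.I
  · rw [if_pos h1] at hμ
    exact ⟨mem_support_iff.2 hμ, h1⟩
  · rw [if_neg h1] at hμ
    exact absurd rfl hμ

theorem R2_red_WH {ρ : ℕ} {b : MvPolynomial (Fin q × Fin p) (MvPolynomial (Fin (N + 1)) K)}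
    (hb : T.WH ρ b) : T.WH ρ (R2_red T b) := by
  classical
  intro μ hμ
  have h1 := (R2_red_supp T b (mem_support_iff.2 hμ)).2
  rw [R2_red_coeff, if_pos h1] at hμ ⊢
  exact hb μ hμ

theorem R2_red_sp {L : Type u} [Field L] [Algebra K L] (P : A.Pts L)
    (b : MvPolynomial (Fin q × Fin p) (MvPolynomial (Fin (N + 1)) K)) :
    T.sp P (R2_red T b) = T.sp P b := by
  classical
  ext d
  rw [R2_sp_coeff T P b]
  by_cases h1 : R2_pd T b d ∉ A.I
  · rw [R2_sp_coeff]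
    have h2 : R2_pd T (R2_red T b) d = R2_pd T b d := by
      have h3 : R2_pd T (R2_red T b) d = ∑ μ ∈ (R2_red T b).support,
          if yd μ = d then coeff μ (R2_red T b) * ∏ i, T.η i.1 i.2 ^ μ i else 0 := rfl
      have h4 : R2_pd T b d = ∑ μ ∈ b.support,
          if yd μ = d then coeff μ b * ∏ i, T.η i.1 i.2 ^ μ i else 0 := rfl
      have h5 : (R2_red T b).support ⊆ b.support := fun μ hμ => (R2_red_supp T b hμ).1
      rw [h3, Finset.sum_subset h5, h4]
      · refine Finset.sum_congr rfl fun μ _ => ?_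
        by_cases h6 : yd μ = d
        · rw [if_pos h6, if_pos h6, R2_red_coeff, h6, if_pos h1]
        · rw [if_neg h6, if_neg h6]
      · intro μ _ hμ
        rw [notMem_support_iff.1 hμ, zero_mul, ite_self]
    rw [h2]
  · push Not at h1
    rw [A.x_isPt P _ h1]
    by_contra hc
    obtain ⟨μ, hμ, hd⟩ := spR_support (aeval (A.x P) : MvPolynomial (Fin (N + 1)) K →ₐ[K] L).toRingHom
      (fun i => aeval (A.x P) (T.η i.1 i.2)) (R2_red T b) (mem_support_iff.2 hc)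
    have h2 := (R2_red_supp T b hμ).2
    rw [hd] at h2
    exact h2 h1

theorem R2_red_ev {L : Type u} [Field L] [Algebra K L] {P : A.Pts L} {y : Fin q × Fin p → L}
    (hy : T.On P y) (b : MvPolynomial (Fin q × Fin p) (MvPolynomial (Fin (N + 1)) K)) :
    ev P y (R2_red T b) = ev P y b := by
  choose t ht using fun i => (hy i).2
  have h1 : y = fun i => t i.1 * aeval (A.x P) (T.η i.1 i.2) := by
    funext i
    exact ht i.1 i.2
  rw [h1, ← ev_sp, ← ev_sp, R2_red_sp]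

/-- The reduced polynomial does not vanish on any stratum. -/
theorem R2_red_NZ {ρ : ℕ} {b : MvPolynomial (Fin q × Fin p) (MvPolynomial (Fin (N + 1)) K)}
    (hb : T.WH ρ b) (h0 : R2_red T b ≠ 0) : T.NZ (R2_red T b) := by
  classical
  intro τ L _ _ P hP
  obtain ⟨m, hm⟩ := ne_zero_iff.1 h0
  have h1 : m ∈ supp (fun _ : Fin 1 => R2_red T b) := by
    unfold supp
    exact Finset.mem_biUnion.2 ⟨0, Finset.mem_univ _, mem_support_iff.2 hm⟩
  have : Nonempty (supp (fun _ : Fin 1 => R2_red T b)) := ⟨⟨m, h1⟩⟩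
  obtain ⟨μ, hμ⟩ := exists_eq_ciSup_of_finite
    (f := fun m : supp (fun _ : Fin 1 => R2_red T b) => wt τ (m : Fin q × Fin p →₀ ℕ))
  have h2 : (μ : Fin q × Fin p →₀ ℕ) ∈ (R2_red T b).support := by
    have h3 := μ.2
    unfold supp at h3
    obtain ⟨_, _, h4⟩ := Finset.mem_biUnion.1 h3
    exact h4
  have h5 : wt τ (μ : Fin q × Fin p →₀ ℕ) = maxWt τ (fun _ : Fin 1 => R2_red T b) := hμ
  intro h6
  have h7 : coeff (yd (μ : Fin q × Fin p →₀ ℕ)) (T.sp P (R2_red T b)) = 0 := by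
    rw [← SG.coeff_partWt_eq (h := maxWt τ (fun _ : Fin 1 => R2_red T b)) (by rw [wt_yd, h5]),
      sp_eq, ← spR_partWt, ← sp_eq, h6, coeff_zero]
  rw [R2_red_sp, R2_sp_coeff] at h7
  exact (R2_red_supp T b h2).2 (hP _ _ (R2_pd_hom T hb _) h7)

theorem R2_max (G : Matrix (Fin g) (Fin n) (MvPolynomial (Fin (N + 1)) K))
    (Λ : Matrix (Fin s) (Fin n) (MvPolynomial (Fin q × Fin p) (MvPolynomial (Fin (N + 1)) K)))
    (J : Finset (Fin s)) (e : Fin n ≃ Fin g ⊕ J) (τ : Fin q → ℝ) (hJ : T.Ind G Λ τ J) :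
    R2_red T (R2_M G Λ J e).det ≠ 0 ∧
    maxWt τ (fun _ : Fin 1 => R2_red T (R2_M G Λ J e).det) = ∑ j ∈ J, maxWt τ (Λ j) := by
  classical
  obtain ⟨h1, h2⟩ := R2_lead T G Λ J e τ hJ
  obtain ⟨L, _, _, _, P, hP⟩ := EF.T_gen A
  have h3 := h2 L P hP
  rw [sp_eq, spR_partWt, ← sp_eq, ← R2_red_sp] at h3
  obtain ⟨d, hd⟩ := ne_zero_iff.1 h3
  have h4 : SG.wt τ d = ∑ j ∈ J, maxWt τ (Λ j) := by
    by_contra hc
    rw [SG.coeff_partWt_ne hc] at hd
    exact hd rfl
  rw [SG.coeff_partWt_eq h4] at hd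
  obtain ⟨m, hm, hmd⟩ := spR_support (aeval (A.x P) : MvPolynomial (Fin (N + 1)) K →ₐ[K] L).toRingHom
      (fun i => aeval (A.x P) (T.η i.1 i.2)) (R2_red T (R2_M G Λ J e).det) (mem_support_iff.2 hd)
  have h5 : m ∈ supp (fun _ : Fin 1 => R2_red T (R2_M G Λ J e).det) := by
    unfold supp
    exact Finset.mem_biUnion.2 ⟨0, Finset.mem_univ _, hm⟩
  refine ⟨ne_zero_iff.2 ⟨m, mem_support_iff.1 hm⟩, le_antisymm ?_ ?_⟩
  · have : Nonempty (supp (fun _ : Fin 1 => R2_red T (R2_M G Λ J e).det)) := ⟨⟨m, h5⟩⟩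
    refine ciSup_le fun m' => ?_
    have h6 : (m' : Fin q × Fin p →₀ ℕ) ∈
      supp (fun _ : Fin 1 => R2_red T (R2_M G Λ J e).det) := m'.2
    unfold supp at h6
    obtain ⟨_, _, h7⟩ := Finset.mem_biUnion.1 h6
    exact h1 _ (R2_red_supp T _ h7).1
  · rw [← h4, ← hmd, wt_yd]
    exact R1_le_max τ (fun _ : Fin 1 => R2_red T (R2_M G Λ J e).det) 0 m hm

theorem R_gen {D D' : ℕ} (hgr : g + r = n) (hr : 0 < r)
    (G : Matrix (Fin g) (Fin n) (MvPolynomial (Fin (N + 1)) K))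
    (hG : ∀ i l, (G i l).IsHomogeneous D')
    (Λ : Matrix (Fin s) (Fin n) (MvPolynomial (Fin q × Fin p) (MvPolynomial (Fin (N + 1)) K)))
    (hΛ : ∀ j l, T.WH D (Λ j l)) (J : Finset (Fin s)) (hJc : J.card = r)
    (hJ : ∃ τ, T.Ind G Λ τ J) :
    ∃ (R : MvPolynomial (Fin q × Fin p) (MvPolynomial (Fin (N + 1)) K)) (ρ : ℕ),
      T.WH ρ R ∧ T.NZ R ∧
      ∀ (v : AbsoluteValue K ℝ), ∃ C : ℝ, ∀ (P : A.Pts K) (y : Fin q × Fin p → K), T.On P y →
        T.Ind G Λ (T.tau v P y) J →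
        ∀ Z : Fin n → K, Z ≠ 0 → Z ∈ Fib A G P → ev P y R ≠ 0 →
          ∃ j ∈ J, (∑ l, ev P y (Λ j l) * Z l) ≠ 0 ∧
            T.lam v D (Λ j) P y Z ≤ T.lam v ρ (fun _ : Fin 1 => R) P y (fun _ => 1) + C := by
  classical
  have hcard : Fintype.card (Fin n) = Fintype.card (Fin g ⊕ J) := by
    rw [Fintype.card_fin, Fintype.card_sum, Fintype.card_fin, Fintype.card_coe, hJc, hgr]
  obtain ⟨e⟩ : Nonempty (Fin n ≃ Fin g ⊕ J) := ⟨Fintype.equivOfCardEq hcard⟩
  obtain ⟨dg, hdg⟩ : ∃ dg : Fin n → ℕ, dg = fun i => Sum.elim (fun _ : Fin g => D')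
      (fun _ : J => D) (e i) := ⟨_, rfl⟩
  have hMdg : ∀ i l, T.WH (dg i) (R2_M G Λ J e i l) := by
    intro i l
    rw [hdg]
    unfold R2_M
    rw [Matrix.of_apply]
    show T.WH (Sum.elim (fun _ : Fin g => D') (fun _ : J => D) (e i))
      (Sum.elim (fun (i : Fin g) (l : Fin n) => C (G i l))
      (fun (j : J) (l : Fin n) => Λ j l) (e i) l)
    rcases e i with a | j
    · exact R1_WH_C T (hG a l)
    · exact hΛ j l
  have hWH := R1_WH_det T _ dg hMdg
  obtain ⟨τ₀, hτ₀⟩ := hJ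
  refine ⟨R2_red T (R2_M G Λ J e).det, ∑ i, dg i, R2_red_WH T hWH,
    R2_red_NZ T hWH (R2_max T G Λ J e τ₀ hτ₀).1, ?_⟩
  · intro v
    -- a common bound for the entries
    have hent : ∀ i l, ∃ c : ℝ, 0 ≤ c ∧ ∀ (P : A.Pts K) (y : Fin q × Fin p → K), T.On P y →
        ∀ h : ℝ, (∀ m ∈ (R2_M G Λ J e i l).support,
          wt (T.tau v P y) m ≤ h) →
        v (ev P y (R2_M G Λ J e i l)) ≤ c * (⨆ i, v (A.x P i)) ^ dg i * Real.exp h :=
      fun i l => R1_ev T v _ (hMdg i l)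
    choose c hc0 hc using hent
    obtain ⟨C₀, hC₀⟩ : ∃ C₀ : ℝ, C₀ = 1 + ∑ i, ∑ l, c i l := ⟨_, rfl⟩
    have hC₀c : ∀ i l, c i l ≤ C₀ := by
      intro i l
      have h1 : c i l ≤ ∑ l, c i l :=
        Finset.single_le_sum (f := fun l => c i l) (fun l _ => hc0 i l) (Finset.mem_univ l)
      have h2 : ∑ l, c i l ≤ ∑ i, ∑ l, c i l :=
        Finset.single_le_sum (f := fun i => ∑ l, c i l)
          (fun i _ => Finset.sum_nonneg fun l _ => hc0 i l) (Finset.mem_univ i)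
      rw [hC₀]
      linarith
    have hC₀p : 0 < C₀ := by
      rw [hC₀]
      have h1 : 0 ≤ ∑ i, ∑ l, c i l :=
        Finset.sum_nonneg fun i _ => Finset.sum_nonneg fun l _ => hc0 i l
      linarith
    refine ⟨Real.log ((n.factorial : ℝ) * r) + (n : ℝ) * Real.log C₀ - Real.log C₀, ?_⟩
    intro P y hy hJ Z hZ hZF hR
    obtain ⟨τ, hτ⟩ : ∃ τ : Fin q → ℝ, τ = T.tau v P y := ⟨_, rfl⟩
    rw [← hτ] at hJ
    rw [R2_red_ev T hy] at hR
    obtain ⟨x, hx⟩ : ∃ x, x = ⨆ i, v (A.x P i) := ⟨_, rfl⟩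
    have hx0 : 0 < x := hx ▸ R1_x_pos (A := A) v P
    obtain ⟨h, hh⟩ : ∃ h : Fin n → ℝ, h = fun i => Sum.elim (fun _ : Fin g => (0 : ℝ))
        (fun j : J => maxWt τ (Λ j)) (e i) := ⟨_, rfl⟩
    have hsum : ∑ i, h i = ∑ j ∈ J, maxWt τ (Λ j) := by
      rw [hh, Equiv.sum_comp e (Sum.elim (fun _ : Fin g => (0 : ℝ)) fun j : J => maxWt τ (Λ j)),
        Fintype.sum_sum_type]
      simp only [Sum.elim_inl, Sum.elim_inr, Finset.sum_const_zero, zero_add]
      exact Finset.sum_coe_sort J fun j => maxWt τ (Λ j)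
    have hMh : ∀ i l, ∀ m ∈ (R2_M G Λ J e i l).support, wt τ m ≤ h i := by
      intro i l
      rw [hh]
      unfold R2_M
      rw [Matrix.of_apply]
      show ∀ m ∈ (Sum.elim (fun (i : Fin g) (l : Fin n) => C (G i l))
        (fun (j : J) (l : Fin n) => Λ j l) (e i) l).support, wt τ m ≤
        Sum.elim (fun _ : Fin g => (0 : ℝ)) (fun j : J => maxWt τ (Λ j)) (e i)
      rcases e i with a | j
      · exact (R1_C τ (G a l)).1
      · exact R1_le_max τ (Λ j) l
    obtain ⟨b, hb⟩ : ∃ b : Fin n → ℝ, b = fun i => C₀ * x ^ dg i * Real.exp (h i) := ⟨_, rfl⟩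
    have hb0 : ∀ i, 0 < b i := by
      intro i
      rw [hb]
      positivity
    obtain ⟨M, hM⟩ : ∃ M : Matrix (Fin n) (Fin n) K,
        M = Matrix.of fun i l => ev P y (R2_M G Λ J e i l) := ⟨_, rfl⟩
    have hMb : ∀ i l, v (M i l) ≤ b i := by
      intro i l
      rw [hM, Matrix.of_apply, hb]
      have h1 := hc i l P y hy (h i) (by rw [← hτ]; exact hMh i l)
      rw [← hx] at h1
      refine h1.trans ?_
      exact mul_le_mul_of_nonneg_right (mul_le_mul_of_nonneg_right (hC₀c i l)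
        (pow_nonneg hx0.le _)) (Real.exp_pos _).le
    have hdet : M.det = ev P y (R2_M G Λ J e).det := by
      have h1 : ev P y (R2_M G Λ J e).det = ((eval y).comp (MvPolynomial.map
          (aeval (A.x P) : MvPolynomial (Fin (N + 1)) K →ₐ[K] K).toRingHom))
          (R2_M G Λ J e).det := rfl
      rw [h1, RingHom.map_det, hM]
      rfl
    obtain ⟨l, hl⟩ : ∃ l, v (Z l) = ⨆ l, v (Z l) := by
      obtain ⟨i, _⟩ := Function.ne_iff.1 hZ
      have : Nonempty (Fin n) := ⟨i⟩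
      exact exists_eq_ciSup_of_finite
    have hz0 : 0 < ⨆ l, v (Z l) := R1_z_pos v hZ
    have h1 := R1_cramer v M b hb0 hMb Z l
    rw [hdet, hl] at h1
    -- the values of the rows
    have hrow : ∀ i, ∑ k, M i k * Z k = Sum.elim (fun _ : Fin g => (0 : K))
        (fun j : J => ∑ l, ev P y (Λ j l) * Z l) (e i) := by
      intro i
      rw [hM]
      simp only [Matrix.of_apply]
      unfold R2_M
      simp only [Matrix.of_apply]
      rcases e i with a | j
      · show ∑ k, ev P y (C (G a k)) * Z k = 0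
        have h2 : ∀ k, ev P y (C (G a k)) = aeval (A.x P) (G a k) := by
          intro k
          unfold ev
          rw [map_C, eval_C]
          rfl
        simp only [h2]
        exact hZF a
      · rfl
    have hsum2 : ∑ i, v (∑ k, M i k * Z k) / b i =
        ∑ j : J, v (∑ l, ev P y (Λ j l) * Z l) / (C₀ * x ^ D * Real.exp (maxWt τ (Λ j))) := by
      have h2 : ∀ i, v (∑ k, M i k * Z k) / b i = Sum.elim (fun _ : Fin g => (0 : ℝ))
          (fun j : J => v (∑ l, ev P y (Λ j l) * Z l) /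
            (C₀ * x ^ D * Real.exp (maxWt τ (Λ j)))) (e i) := by
        intro i
        rw [hrow, hb, hdg, hh]
        show v (Sum.elim (fun _ : Fin g => (0 : K))
          (fun j : J => ∑ l, ev P y (Λ j l) * Z l) (e i)) /
          (C₀ * x ^ (Sum.elim (fun _ : Fin g => D') (fun _ : J => D) (e i)) *
            Real.exp (Sum.elim (fun _ : Fin g => (0 : ℝ)) (fun j : J => maxWt τ (Λ j)) (e i))) = _
        rcases e i with a | j
        · show v 0 / _ = 0
          rw [map_zero, zero_div]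
        · rfl
      rw [Finset.sum_congr rfl fun i _ => h2 i, Equiv.sum_comp e
        (Sum.elim (fun _ : Fin g => (0 : ℝ)) (fun j : J => v (∑ l, ev P y (Λ j l) * Z l) /
            (C₀ * x ^ D * Real.exp (maxWt τ (Λ j))))), Fintype.sum_sum_type]
      simp only [Sum.elim_inl, Sum.elim_inr, Finset.sum_const_zero, zero_add]
    rw [hsum2] at h1
    -- the largest term
    have hJne : Nonempty J := by
      have h2 : 0 < J.card := by rw [hJc]; exact hr
      obtain ⟨j, hj⟩ := Finset.card_pos.1 h2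
      exact ⟨⟨j, hj⟩⟩
    obtain ⟨j, hj⟩ := Finite.exists_max fun j : J => v (∑ l, ev P y (Λ j l) * Z l) /
      (C₀ * x ^ D * Real.exp (maxWt τ (Λ j)))
    have h3 : ∑ j : J, v (∑ l, ev P y (Λ j l) * Z l) / (C₀ * x ^ D * Real.exp (maxWt τ (Λ j))) ≤
        r * (v (∑ l, ev P y (Λ j l) * Z l) / (C₀ * x ^ D * Real.exp (maxWt τ (Λ j)))) := by
      refine (Finset.sum_le_sum fun i _ => hj i).trans (le_of_eq ?_)
      rw [Finset.sum_const, Finset.card_univ, Fintype.card_coe, hJc, nsmul_eq_mul]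
    have hprod : ∏ i, b i = C₀ ^ n * x ^ (∑ i, dg i) * Real.exp (∑ j ∈ J, maxWt τ (Λ j)) := by
      rw [hb, Finset.prod_mul_distrib, Finset.prod_mul_distrib, Finset.prod_const,
        Finset.card_univ, Fintype.card_fin, Finset.prod_pow_eq_pow_sum, ← Real.exp_sum, hsum]
    rw [hprod] at h1
    have hvR : 0 < v (ev P y (R2_M G Λ J e).det) := v.pos hR
    have hr0 : (0 : ℝ) < r := Nat.cast_pos.2 hr
    have hf0 : (0 : ℝ) < n.factorial := Nat.cast_pos.2 (Nat.factorial_pos n)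
    have h4 : v (ev P y (R2_M G Λ J e).det) * (⨆ l, v (Z l)) ≤
        ((n.factorial : ℝ) * r) * (C₀ ^ n * x ^ (∑ i, dg i) *
          Real.exp (∑ j ∈ J, maxWt τ (Λ j))) *
          (v (∑ l, ev P y (Λ j l) * Z l) / (C₀ * x ^ D * Real.exp (maxWt τ (Λ j)))) := by
      refine h1.trans ?_
      refine (mul_le_mul_of_nonneg_left h3 (by positivity)).trans (le_of_eq ?_)
      ring
    have hne : (∑ l, ev P y (Λ j l) * Z l) ≠ 0 := by
      intro h0
      rw [h0, map_zero, zero_div, mul_zero] at h4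
      exact absurd h4 (not_le.2 (mul_pos hvR hz0))
    refine ⟨j, j.2, hne, ?_⟩
    have hvj : 0 < v (∑ l, ev P y (Λ j l) * Z l) := v.pos hne
    have h5 := Real.log_le_log (mul_pos hvR hz0) h4
    have hA : (0 : ℝ) < (n.factorial : ℝ) * r := mul_pos hf0 hr0
    have hB : 0 < C₀ ^ n * x ^ (∑ i, dg i) * Real.exp (∑ j ∈ J, maxWt τ (Λ j)) := by positivity
    have hD : 0 < C₀ * x ^ D * Real.exp (maxWt τ (Λ j)) := by positivity
    have e1 : Real.log (C₀ * x ^ D * Real.exp (maxWt τ (Λ j))) =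
        Real.log C₀ + D * Real.log x + maxWt τ (Λ j) := by
      rw [Real.log_mul (mul_pos hC₀p (pow_pos hx0 D)).ne' (Real.exp_pos _).ne',
        Real.log_mul hC₀p.ne' (pow_pos hx0 D).ne', Real.log_exp, Real.log_pow]
    have e2 : Real.log (C₀ ^ n * x ^ (∑ i, dg i) * Real.exp (∑ j ∈ J, maxWt τ (Λ j))) =
        n * Real.log C₀ + ((∑ i, dg i : ℕ) : ℝ) * Real.log x + ∑ j ∈ J, maxWt τ (Λ j) := by
      rw [Real.log_mul (mul_pos (pow_pos hC₀p n) (pow_pos hx0 _)).ne' (Real.exp_pos _).ne',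
        Real.log_mul (pow_pos hC₀p n).ne' (pow_pos hx0 _).ne', Real.log_exp, Real.log_pow,
        Real.log_pow]
    rw [Real.log_mul hvR.ne' hz0.ne', Real.log_mul (mul_pos hA hB).ne' (div_pos hvj hD).ne',
      Real.log_mul hA.ne' hB.ne', Real.log_div hvj.ne' hD.ne', e1, e2] at h5
    unfold Tor.lam
    rw [← hτ, (R2_max T G Λ J e τ hJ).2, ← hx]
    have h6 : (⨆ _ : Fin 1, v (1 : K)) = 1 := by
      rw [map_one, ciSup_const]
    have h7 : ∑ _ : Fin 1, ev P y (R2_red T (R2_M G Λ J e).det) * 1 =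
        ev P y (R2_M G Λ J e).det := by
      rw [Finset.sum_const, Finset.card_univ, Fintype.card_fin, one_smul, mul_one,
        R2_red_ev T hy]
    rw [h6, h7, Real.log_one]
    linarith

theorem R_main [NumberField K] {D D' : ℕ} (hgr : g + r = n) (hr : 0 < r)
    (G : Matrix (Fin g) (Fin n) (MvPolynomial (Fin (N + 1)) K))
    (hG : ∀ i l, (G i l).IsHomogeneous D')
    (Λ : Matrix (Fin s) (Fin n) (MvPolynomial (Fin q × Fin p) (MvPolynomial (Fin (N + 1)) K)))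
    (hΛ : ∀ j l, T.WH D (Λ j l)) (J : Finset (Fin s)) (hJc : J.card = r)
    (hJ : ∀ τ, T.Ind G Λ τ J) :
    ∃ (R : MvPolynomial (Fin q × Fin p) (MvPolynomial (Fin (N + 1)) K)) (ρ : ℕ),
      T.WH ρ R ∧ T.NZ R ∧
      ∀ (v : AbsoluteValue K ℝ), ∃ C : ℝ, ∀ (P : A.Pts K) (y : Fin q × Fin p → K), T.On P y →
        ∀ Z : Fin n → K, Z ≠ 0 → Z ∈ Fib A G P → ev P y R ≠ 0 →
          (∀ j ∈ J, (∑ l, ev P y (Λ j l) * Z l) ≠ 0) →
          ∃ j ∈ J, T.lam v D (Λ j) P y Z ≤ T.lam v ρ (fun _ : Fin 1 => R) P y (fun _ => 1) + C := by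
  obtain ⟨R, ρ, h1, h2, h3⟩ := R_gen T hgr hr G hG Λ hΛ J hJc ⟨0, hJ 0⟩
  refine ⟨R, ρ, h1, h2, fun v => ?_⟩
  obtain ⟨C₀, h4⟩ := h3 v
  refine ⟨C₀, fun P y hy Z hZ hZF hR _ => ?_⟩
  obtain ⟨j, hj, _, h5⟩ := h4 P y hy (hJ _) Z hZ hZF hR
  exact ⟨j, hj, h5⟩

end

end Pool.Agent.Lib.MP_17a322_nt.TB
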