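import Pool.Agent.Lib.MP_17a322_nt.TB.W3
import Pool.Agent.Lib.MP_17a322_nt.TB.W2

/-!
The subspace theorem for twisted spaces: the vectors `w p c * Z p`, `Z` in the kernel of a matrix.
-/

universe u

namespace Pool.Agent.Lib.MP_17a322_nt.TB

open MvPolynomial Height
open Pool.Agent.Lib.MP_17a322_nt.VA
open Pool.Agent.Lib.MP_17a322_nt.SL
open Pool.Agent.Lib.MP_17a322_nt.SG (FibT IndT ExcT lamT rdx S0_gen)

/-- The indices of the rows. -/
abbrev Rt (γ : Type) {ι κ : Type} (c₀ : ι → κ) : Type := {x : ι × κ // x.2 ≠ c₀ x.1} ⊕ γ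

/-- The rows `w p (c₀ p) * Y (p, c) - w p c * Y (p, c₀ p)` and
`∑ p, G i p * (∏ p' ≠ p, w p' (c₀ p')) * Y (p, c₀ p)`, multiplied by powers of the coordinate `a`. -/
noncomputable def rowT {K : Type u} [Field K] {N : ℕ} {γ ι κ : Type} [Fintype ι] [DecidableEq ι]
    [DecidableEq κ] (a : Fin (N + 1)) (E : ℕ) (ρ : γ → ℕ) (δ : ι → ℕ) (c₀ : ι → κ)
    (G : Matrix γ ι (MvPolynomial (Fin (N + 1)) K))
    (w : ι → κ → MvPolynomial (Fin (N + 1)) K) :
    Matrix (Rt γ c₀) (ι × κ) (MvPolynomial (Fin (N + 1)) K)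
  | Sum.inl x, y => X a ^ (E - δ x.1.1) *
      (if y = x.1 then w x.1.1 (c₀ x.1.1) else
        if y = (x.1.1, c₀ x.1.1) then - w x.1.1 x.1.2 else 0)
  | Sum.inr i, y => X a ^ ρ i * (if y.2 = c₀ y.1 then
      G i y.1 * ∏ p ∈ Finset.univ.erase y.1, w p (c₀ p) else 0)

section

variable {K : Type u} [Field K] {N : ℕ} (A : AV K N) {γ ι κ : Type} [Fintype κ]

/-- The linear form `ω` on the vectors `w p c * Z p`, as a linear form in `Z`. -/
noncomputable def redT (w : ι → κ → MvPolynomial (Fin (N + 1)) K)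
    (ω : ι × κ → MvPolynomial (Fin (N + 1)) K) (p : ι) : MvPolynomial (Fin (N + 1)) K :=
  ∑ c, ω (p, c) * w p c

/-- The exceptional forms for the twisted space. -/
def ExcU [Fintype ι] (G : Matrix γ ι (MvPolynomial (Fin (N + 1)) K))
    (w : ι → κ → MvPolynomial (Fin (N + 1)) K)
    (F : MvPolynomial (Fin (N + 1) ⊕ (ι × κ)) K) : Prop :=
  (∃ a b : ℕ, ∀ m ∈ F.support, ∑ i, m (Sum.inl i) = a ∧ ∑ x, m (Sum.inr x) = b) ∧
  ∀ (L : Type u) [Field L] [IsAlgClosed L] [Algebra K L] (P : A.Pts L), Gen A P →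
    ∃ (c : L) (m : ℕ) (y : Fin m → ι × κ → L), c ≠ 0 ∧
      (∀ k, ∃ Z ∈ FibT A G P, ∑ x, y k x * (aeval (A.x P) (w x.1 x.2) * Z x.1) ≠ 0) ∧
      aeval (Sum.elim (fun i => (C (A.x P i) : MvPolynomial (ι × κ) L)) X) F =
        C c * ∏ k, ∑ x, C (y k x) * X x

end

theorem W4_card {γ ι κ : Type} [Fintype γ] [Fintype ι] [DecidableEq ι] [Fintype κ]
    [DecidableEq κ] {r : ℕ} (hgr : Fintype.card γ + r = Fintype.card ι) (c₀ : ι → κ) :
    Fintype.card (Rt γ c₀) + r = Fintype.card (ι × κ) := by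
  classical
  have e : {x : ι × κ // x.2 = c₀ x.1} ≃ ι :=
    { toFun := fun x => x.1.1
      invFun := fun p => ⟨(p, c₀ p), rfl⟩
      left_inv := by
        rintro ⟨⟨b, c⟩, h⟩
        simp only at h
        subst h
        rfl
      right_inv := fun _ => rfl }
  have h1 := Fintype.card_congr (Equiv.sumCompl fun x : ι × κ => x.2 = c₀ x.1)
  rw [Fintype.card_sum, Fintype.card_congr e] at h1
  have h2 : Fintype.card (Rt γ c₀) =
      Fintype.card {x : ι × κ // x.2 ≠ c₀ x.1} + Fintype.card γ := Fintype.card_sum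
  have h3 : Fintype.card {x : ι × κ // x.2 ≠ c₀ x.1} =
      Fintype.card {x : ι × κ // ¬ x.2 = c₀ x.1} := rfl
  omega

section

variable {K : Type u} [Field K] {N : ℕ} {γ ι κ : Type} [Fintype ι] [DecidableEq ι] [Fintype κ]
  [DecidableEq κ] (a : Fin (N + 1)) (E : ℕ) (ρ : γ → ℕ) (δ : ι → ℕ) (c₀ : ι → κ)
  (G : Matrix γ ι (MvPolynomial (Fin (N + 1)) K))
  (w : ι → κ → MvPolynomial (Fin (N + 1)) K)

omit [Fintype κ] in
theorem W4_hom {D' : ℕ} (hE : E = D' + ∑ p, δ p)
    (hG : ∀ i p, G i p = 0 ∨ ∃ m, (G i p).IsHomogeneous m ∧ m + ρ i = D' + δ p)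
    (hw : ∀ p c, (w p c).IsHomogeneous (δ p)) (i : Rt γ c₀) (y : ι × κ) :
    (rowT a E ρ δ c₀ G w i y).IsHomogeneous E := by
  rcases i with x | i
  · have h0 : δ x.1.1 ≤ ∑ p, δ p :=
      Finset.single_le_sum (f := δ) (fun b _ => Nat.zero_le (δ b)) (Finset.mem_univ x.1.1)
    have h1 : E = (E - δ x.1.1) + δ x.1.1 := by omega
    show (X a ^ (E - δ x.1.1) *
      (if y = x.1 then w x.1.1 (c₀ x.1.1) else
        if y = (x.1.1, c₀ x.1.1) then - w x.1.1 x.1.2 else 0)).IsHomogeneous E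
    have h2 : (if y = x.1 then w x.1.1 (c₀ x.1.1) else
        if y = (x.1.1, c₀ x.1.1) then - w x.1.1 x.1.2 else 0).IsHomogeneous
          (δ x.1.1) := by
      split_ifs
      · exact hw _ _
      · exact (hw _ _).neg
      · exact isHomogeneous_zero _ _ _
    have h3 := (isHomogeneous_X_pow (R := K) a (E - δ x.1.1)).mul h2
    rwa [← h1] at h3
  · show (X a ^ ρ i * (if y.2 = c₀ y.1 then
      G i y.1 * ∏ p ∈ Finset.univ.erase y.1, w p (c₀ p) else 0)).IsHomogeneous E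
    by_cases hy : y.2 = c₀ y.1
    · rw [if_pos hy]
      rcases hG i y.1 with h1 | ⟨m, h1, h2⟩
      · rw [h1, zero_mul, mul_zero]
        exact isHomogeneous_zero _ _ _
      · have h3 : (∏ p ∈ Finset.univ.erase y.1, w p (c₀ p)).IsHomogeneous
            (∑ p ∈ Finset.univ.erase y.1, δ p) := IsHomogeneous.prod _ _ _ fun p _ => hw p (c₀ p)
        have h4 := (isHomogeneous_X_pow (R := K) a (ρ i)).mul (h1.mul h3)
        have h5 := Finset.add_sum_erase Finset.univ δ (Finset.mem_univ y.1)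
        have h6 : ρ i + (m + ∑ p ∈ Finset.univ.erase y.1, δ p) = E := by omega
        rwa [h6] at h4
    · rw [if_neg hy, mul_zero]
      exact isHomogeneous_zero _ _ _

variable {A : AV K N} {L : Type u} [Field L] [Algebra K L] (P : A.Pts L)

omit [Fintype κ] in
theorem W4_inl (x : {x : ι × κ // x.2 ≠ c₀ x.1}) (y : ι × κ) :
    aeval (A.x P) (rowT a E ρ δ c₀ G w (Sum.inl x) y) = A.x P a ^ (E - δ x.1.1) *
      (if y = x.1 then aeval (A.x P) (w x.1.1 (c₀ x.1.1)) else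
        if y = (x.1.1, c₀ x.1.1) then - aeval (A.x P) (w x.1.1 x.1.2) else 0) := by
  show aeval (A.x P) (X a ^ (E - δ x.1.1) *
      (if y = x.1 then w x.1.1 (c₀ x.1.1) else
        if y = (x.1.1, c₀ x.1.1) then - w x.1.1 x.1.2 else 0)) = _
  rw [map_mul, map_pow, aeval_X]
  split_ifs
  · rfl
  · rw [map_neg]
  · rw [map_zero]

omit [Fintype κ] in
theorem W4_inr (i : γ) (y : ι × κ) :
    aeval (A.x P) (rowT a E ρ δ c₀ G w (Sum.inr i) y) = A.x P a ^ ρ i *
      (if y.2 = c₀ y.1 then aeval (A.x P) (G i y.1) *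
        ∏ p ∈ Finset.univ.erase y.1, aeval (A.x P) (w p (c₀ p)) else 0) := by
  show aeval (A.x P) (X a ^ ρ i * (if y.2 = c₀ y.1 then
      G i y.1 * ∏ p ∈ Finset.univ.erase y.1, w p (c₀ p) else 0)) = _
  rw [map_mul, map_pow, aeval_X]
  split_ifs
  · rw [map_mul, map_prod]
  · rw [map_zero]

theorem W4_sumL (x : {x : ι × κ // x.2 ≠ c₀ x.1}) (Y : ι × κ → L) :
    ∑ y, aeval (A.x P) (rowT a E ρ δ c₀ G w (Sum.inl x) y) * Y y =
      A.x P a ^ (E - δ x.1.1) * (aeval (A.x P) (w x.1.1 (c₀ x.1.1)) * Y x.1 -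
        aeval (A.x P) (w x.1.1 x.1.2) * Y (x.1.1, c₀ x.1.1)) := by
  have hne : (x.1.1, c₀ x.1.1) ≠ x.1 := fun h =>
    x.2 (congrArg (fun t : ι × κ => t.2) h).symm
  have h1 : ∀ y, aeval (A.x P) (rowT a E ρ δ c₀ G w (Sum.inl x) y) * Y y =
      (if y = x.1 then A.x P a ^ (E - δ x.1.1) * (aeval (A.x P) (w x.1.1 (c₀ x.1.1)) * Y y)
        else 0) +
      (if y = (x.1.1, c₀ x.1.1) then
        A.x P a ^ (E - δ x.1.1) * (- aeval (A.x P) (w x.1.1 x.1.2) * Y y) else 0) := by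
    intro y
    rw [W4_inl]
    by_cases h2 : y = x.1
    · have h3 : y ≠ (x.1.1, c₀ x.1.1) := fun h => hne (h.symm.trans h2)
      rw [if_pos h2, if_pos h2, if_neg h3]
      ring
    · rw [if_neg h2, if_neg h2]
      by_cases h3 : y = (x.1.1, c₀ x.1.1)
      · rw [if_pos h3, if_pos h3]
        ring
      · rw [if_neg h3, if_neg h3]
        ring
  rw [Finset.sum_congr rfl fun y _ => h1 y, Finset.sum_add_distrib, Finset.sum_ite_eq',
    Finset.sum_ite_eq', if_pos (Finset.mem_univ _), if_pos (Finset.mem_univ _)]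
  ring

theorem W4_sumR (i : γ) (Y : ι × κ → L) :
    ∑ y, aeval (A.x P) (rowT a E ρ δ c₀ G w (Sum.inr i) y) * Y y =
      A.x P a ^ ρ i * ∑ p, aeval (A.x P) (G i p) *
        ((∏ p' ∈ Finset.univ.erase p, aeval (A.x P) (w p' (c₀ p'))) * Y (p, c₀ p)) := by
  rw [Fintype.sum_prod_type, Finset.mul_sum]
  refine Finset.sum_congr rfl fun p _ => ?_
  rw [Finset.sum_eq_single (c₀ p)]
  · rw [W4_inr, if_pos rfl]
    ring
  · intro c _ hc
    rw [W4_inr, if_neg fun h => hc h, mul_zero, zero_mul]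
  · intro h
    exact absurd (Finset.mem_univ _) h

/-- The vectors `w p c * Z p` lie in the kernel. -/
theorem W4_mem (Z : ι → L) (hZ : Z ∈ FibT A G P) (Y : ι × κ → L)
    (hY : ∀ x, Y x = aeval (A.x P) (w x.1 x.2) * Z x.1) :
    Y ∈ FibT A (rowT a E ρ δ c₀ G w) P := by
  intro i
  rcases i with x | i
  · rw [W4_sumL, hY, hY]
    ring
  · rw [W4_sumR]
    have h1 : ∑ p, aeval (A.x P) (G i p) *
        ((∏ p' ∈ Finset.univ.erase p, aeval (A.x P) (w p' (c₀ p'))) * Y (p, c₀ p)) =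
        (∏ p, aeval (A.x P) (w p (c₀ p))) * ∑ p, aeval (A.x P) (G i p) * Z p := by
      rw [Finset.mul_sum]
      refine Finset.sum_congr rfl fun p _ => ?_
      rw [hY, ← Finset.mul_prod_erase Finset.univ (fun p => aeval (A.x P) (w p (c₀ p)))
        (Finset.mem_univ p)]
      ring
    rw [h1, show ∑ p, aeval (A.x P) (G i p) * Z p = 0 from hZ i, mul_zero, mul_zero]

/-- All vectors of the kernel are of the form `w p c * Z p`. -/
theorem W4_mem' (ha : A.x P a ≠ 0) (hw : ∀ p, aeval (A.x P) (w p (c₀ p)) ≠ 0)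
    {Y : ι × κ → L} (hY : Y ∈ FibT A (rowT a E ρ δ c₀ G w) P) :
    ∃ Z ∈ FibT A G P, ∀ x, Y x = aeval (A.x P) (w x.1 x.2) * Z x.1 := by
  refine ⟨fun p => (aeval (A.x P) (w p (c₀ p)))⁻¹ * Y (p, c₀ p), fun i => ?_, fun x => ?_⟩
  · have h1 := hY (Sum.inr i)
    rw [W4_sumR] at h1
    have h2 := (mul_eq_zero.1 h1).resolve_left (pow_ne_zero _ ha)
    have h3 : ∑ p, aeval (A.x P) (G i p) *
        ((∏ p' ∈ Finset.univ.erase p, aeval (A.x P) (w p' (c₀ p'))) * Y (p, c₀ p)) =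
        (∏ p, aeval (A.x P) (w p (c₀ p))) * ∑ p, aeval (A.x P) (G i p) *
          ((aeval (A.x P) (w p (c₀ p)))⁻¹ * Y (p, c₀ p)) := by
      rw [Finset.mul_sum]
      refine Finset.sum_congr rfl fun p _ => ?_
      rw [← Finset.mul_prod_erase Finset.univ (fun p => aeval (A.x P) (w p (c₀ p)))
        (Finset.mem_univ p)]
      have h4 := mul_inv_cancel₀ (hw p)
      linear_combination -(aeval (A.x P) (G i p) *
        ((∏ p' ∈ Finset.univ.erase p, aeval (A.x P) (w p' (c₀ p'))) * Y (p, c₀ p))) * h4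
    rw [h3] at h2
    exact (mul_eq_zero.1 h2).resolve_left (Finset.prod_ne_zero_iff.2 fun p _ => hw p)
  · by_cases hx : x.2 = c₀ x.1
    · obtain ⟨p, c⟩ := x
      simp only at hx
      subst hx
      rw [mul_inv_cancel_left₀ (hw p)]
    · have h1 := hY (Sum.inl ⟨x, hx⟩)
      rw [W4_sumL] at h1
      have h2 := (mul_eq_zero.1 h1).resolve_left (pow_ne_zero _ ha)
      have h3 := sub_eq_zero.1 h2
      simp only at h3 ⊢
      have h4 := hw x.1
      field_simp
      linear_combination h3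

/-- The map on linear forms. -/
noncomputable def redM : (ι × κ → L) →ₗ[L] (ι → L) where
  toFun ω p := ∑ c, ω (p, c) * aeval (A.x P) (w p c)
  map_add' ω ω' := by
    funext x
    simp only [Pi.add_apply, add_mul, Finset.sum_add_distrib]
  map_smul' t ω := by
    funext x
    simp only [Pi.smul_apply, smul_eq_mul, RingHom.id_apply, Finset.mul_sum, mul_assoc]

omit [Fintype ι] [DecidableEq ι] [DecidableEq κ] in
theorem redM_apply (ω : ι × κ → L) (p : ι) :
    redM w P ω p = ∑ c, ω (p, c) * aeval (A.x P) (w p c) := rfl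

/-- Independence. -/
theorem W4_ind {σ : Type} (ha : A.x P a ≠ 0) (hw : ∀ p, aeval (A.x P) (w p (c₀ p)) ≠ 0)
    {Λ' : σ → ι × κ → MvPolynomial (Fin (N + 1)) K} {B : Finset σ}
    (h : LinearIndependent L
      (Sum.elim (fun (i : γ) (p : ι) => aeval (A.x P) (G i p))
        fun (j : B) (p : ι) => aeval (A.x P) (redT w (Λ' j) p))) :
    LinearIndependent L (Sum.elim
      (fun (i : Rt γ c₀) (y : ι × κ) => aeval (A.x P) (rowT a E ρ δ c₀ G w i y))
      fun (j : B) (y : ι × κ) => aeval (A.x P) (Λ' j y)) := by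
  have h1 := W2_li (redM w P)
    (fun (x : {x : ι × κ // x.2 ≠ c₀ x.1}) (y : ι × κ) =>
      aeval (A.x P) (rowT a E ρ δ c₀ G w (Sum.inl x) y))
    (Sum.elim (fun (i : γ) (y : ι × κ) =>
      aeval (A.x P) (rowT a E ρ δ c₀ G w (Sum.inr i) y))
      fun (j : B) (y : ι × κ) => aeval (A.x P) (Λ' j y)) ?_ ?_ ?_
  · have h2 := h1.comp (Equiv.sumAssoc {x : ι × κ // x.2 ≠ c₀ x.1} γ B)
      (Equiv.injective _)
    have h3 : (Sum.elim (fun (x : {x : ι × κ // x.2 ≠ c₀ x.1}) (y : ι × κ) =>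
        aeval (A.x P) (rowT a E ρ δ c₀ G w (Sum.inl x) y))
        (Sum.elim (fun (i : γ) (y : ι × κ) =>
          aeval (A.x P) (rowT a E ρ δ c₀ G w (Sum.inr i) y))
          fun (j : B) (y : ι × κ) => aeval (A.x P) (Λ' j y))) ∘
          (Equiv.sumAssoc {x : ι × κ // x.2 ≠ c₀ x.1} γ B) =
        Sum.elim
          (fun (i : Rt γ c₀) (y : ι × κ) => aeval (A.x P) (rowT a E ρ δ c₀ G w i y))
          fun (j : B) (y : ι × κ) => aeval (A.x P) (Λ' j y) := by
      funext i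
      rcases i with (x | z) | j <;> rfl
    rwa [h3] at h2
  · apply LinearIndependent.of_comp (LinearMap.funLeft L L
      (fun x : {x : ι × κ // x.2 ≠ c₀ x.1} => x.1))
    have h2 : LinearIndependent L (fun x : {x : ι × κ // x.2 ≠ c₀ x.1} =>
        (Pi.single x 1 : {x : ι × κ // x.2 ≠ c₀ x.1} → L)) := by
      have h3 := (Pi.basisFun L {x : ι × κ // x.2 ≠ c₀ x.1}).linearIndependent
      have h4 : ⇑(Pi.basisFun L {x : ι × κ // x.2 ≠ c₀ x.1}) = fun x => Pi.single x 1 :=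
        funext fun x => Pi.basisFun_apply L _ x
      rwa [h4] at h3
    refine W2_smul h2 (fun x => A.x P a ^ (E - δ x.1.1) * aeval (A.x P) (w x.1.1 (c₀ x.1.1)))
      (fun x => mul_ne_zero (pow_ne_zero _ ha) (hw _)) fun x => ?_
    funext x'
    rw [Function.comp_apply, LinearMap.funLeft_apply, W4_inl, Pi.smul_apply, smul_eq_mul]
    by_cases hx : x' = x
    · rw [hx, if_pos rfl, Pi.single_eq_same, mul_one]
    · rw [if_neg fun h => hx (Subtype.ext h), Pi.single_eq_of_ne hx, if_neg, mul_zero, mul_zero]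
      intro h5
      apply x'.2
      rw [h5]
  · intro x
    funext y
    rw [redM_apply, Pi.zero_apply]
    by_cases hy : y = x.1.1
    · subst hy
      have h2 : ∀ c, aeval (A.x P) (rowT a E ρ δ c₀ G w (Sum.inl x) (x.1.1, c)) *
          aeval (A.x P) (w x.1.1 c) =
          (if c = x.1.2 then A.x P a ^ (E - δ x.1.1) * (aeval (A.x P) (w x.1.1 (c₀ x.1.1)) *
            aeval (A.x P) (w x.1.1 c)) else 0) +
          (if c = c₀ x.1.1 then - (A.x P a ^ (E - δ x.1.1) * (aeval (A.x P) (w x.1.1 x.1.2) *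
            aeval (A.x P) (w x.1.1 c))) else 0) := by
        intro c
        rw [W4_inl]
        by_cases h3 : c = x.1.2
        · have h4 : c ≠ c₀ x.1.1 := fun h => x.2 (h3.symm.trans h)
          have h5 : ((x.1.1, c) : ι × κ) = x.1 := by rw [h3]
          rw [if_pos h5, if_pos h3, if_neg h4]
          ring
        · have h5 : ((x.1.1, c) : ι × κ) ≠ x.1 := fun h =>
            h3 (congrArg (fun t : ι × κ => t.2) h)
          rw [if_neg h5, if_neg h3]
          by_cases h4 : c = c₀ x.1.1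
          · rw [if_pos h4, if_pos (by rw [h4])]
            ring
          · rw [if_neg h4, if_neg fun h => h4 (congrArg (fun t : ι × κ => t.2) h)]
            ring
      rw [Finset.sum_congr rfl fun c _ => h2 c, Finset.sum_add_distrib, Finset.sum_ite_eq',
        Finset.sum_ite_eq', if_pos (Finset.mem_univ _), if_pos (Finset.mem_univ _)]
      ring
    · refine Finset.sum_eq_zero fun c _ => ?_
      rw [W4_inl, if_neg, if_neg, mul_zero, zero_mul]
      · intro h
        exact hy (congrArg (fun t : ι × κ => t.1) h)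
      · intro h
        exact hy (congrArg (fun t : ι × κ => t.1) h)
  · refine W2_smul h (Sum.elim (fun i => A.x P a ^ ρ i * ∏ p, aeval (A.x P) (w p (c₀ p)))
      fun _ => 1) ?_ ?_
    · rintro (i | j)
      · exact mul_ne_zero (pow_ne_zero _ ha) (Finset.prod_ne_zero_iff.2 fun p _ => hw p)
      · exact one_ne_zero
    · rintro (i | j)
      · funext p
        rw [Function.comp_apply, redM_apply]
        show ∑ c, aeval (A.x P) (rowT a E ρ δ c₀ G w (Sum.inr i) (p, c)) *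
          aeval (A.x P) (w p c) = (A.x P a ^ ρ i * ∏ p, aeval (A.x P) (w p (c₀ p))) *
            aeval (A.x P) (G i p)
        rw [Finset.sum_eq_single (c₀ p)]
        · rw [W4_inr, if_pos rfl, ← Finset.mul_prod_erase Finset.univ
            (fun p => aeval (A.x P) (w p (c₀ p))) (Finset.mem_univ p)]
          ring
        · intro c _ hc
          rw [W4_inr, if_neg fun h => hc h, mul_zero, zero_mul]
        · intro h
          exact absurd (Finset.mem_univ _) h
      · funext p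
        rw [Function.comp_apply, redM_apply]
        show ∑ c, aeval (A.x P) (Λ' j (p, c)) * aeval (A.x P) (w p c) =
          (1 : L) * aeval (A.x P) (redT w (Λ' j) p)
        rw [one_mul]
        unfold redT
        rw [map_sum]
        exact Finset.sum_congr rfl fun c _ => (map_mul _ _ _).symm

end

/-! ### Exceptional forms -/

theorem W4_exc {K : Type u} [Field K] {N : ℕ} {A : AV K N} {γ ι κ : Type} [Fintype ι]
    [DecidableEq ι] [Fintype κ] [DecidableEq κ] {a : Fin (N + 1)} {E : ℕ} {ρ : γ → ℕ}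
    {δ : ι → ℕ} {c₀ : ι → κ} {G : Matrix γ ι (MvPolynomial (Fin (N + 1)) K)}
    {w : ι → κ → MvPolynomial (Fin (N + 1)) K}
    (ha : (X a : MvPolynomial (Fin (N + 1)) K) ∉ A.I) (hw : ∀ p c, (w p c).IsHomogeneous (δ p))
    (hc₀ : ∀ p, w p (c₀ p) ∉ A.I) {F : MvPolynomial (Fin (N + 1) ⊕ (ι × κ)) K}
    (hF : ExcT A (rowT a E ρ δ c₀ G w) F) {f : MvPolynomial (Fin (N + 1)) K} {d : ℕ}
    (hf : f.IsHomogeneous d) (hfA : f ∉ A.I) : ExcU A G w (F * rename Sum.inl f) := by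
  classical
  obtain ⟨⟨p, q, h1⟩, h2⟩ := hF
  refine ⟨⟨p + d, q, fun m hm => ?_⟩, fun L _ _ _ P hP => ?_⟩
  · obtain ⟨m₁, hm₁, m₂, hm₂, rfl⟩ := Finset.mem_add.1 (support_mul _ _ hm)
    rw [support_rename_of_injective Sum.inl_injective] at hm₂
    obtain ⟨m₃, hm₃, rfl⟩ := Finset.mem_image.1 hm₂
    obtain ⟨h3, h4⟩ := h1 m₁ hm₁
    have h5 : ∀ i : Fin (N + 1), (Finsupp.mapDomain (Sum.inl : Fin (N + 1) →
        Fin (N + 1) ⊕ (ι × κ)) m₃) (Sum.inl i) = m₃ i :=
      fun i => Finsupp.mapDomain_apply Sum.inl_injective m₃ i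
    have h6 : ∀ x : ι × κ, (Finsupp.mapDomain (Sum.inl : Fin (N + 1) →
        Fin (N + 1) ⊕ (ι × κ)) m₃) (Sum.inr x) = 0 := fun x =>
      Finsupp.mapDomain_of_notMem_range m₃ _ fun h => by
        obtain ⟨i, hi⟩ := h
        exact Sum.inl_ne_inr hi
    have h7 : ∑ i, m₃ i = d := by
      have h8 := hf (mem_support_iff.1 hm₃)
      rw [← h8, Finsupp.weight_apply, Finsupp.sum_fintype _ _ fun i => by simp]
      refine Finset.sum_congr rfl fun i _ => ?_
      simp
    constructor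
    · simp only [Finsupp.add_apply, h5, Finset.sum_add_distrib]
      rw [h3, h7]
    · simp only [Finsupp.add_apply, h6, add_zero]
      exact h4
  · obtain ⟨c, m, y, h3, h4, h5⟩ := h2 L P hP
    have ha' : A.x P a ≠ 0 := by
      have h6 := W2_gen hP (isHomogeneous_X K a) ha
      rwa [aeval_X] at h6
    refine ⟨c * aeval (A.x P) f, m, y, mul_ne_zero h3 (W2_gen hP hf hfA), fun k => ?_, ?_⟩
    · obtain ⟨z, hz, hz'⟩ := h4 k
      obtain ⟨Z, hZ, hZ'⟩ := W4_mem' a E ρ δ c₀ G w P ha'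
        (fun b => W2_gen hP (hw _ _) (hc₀ b)) hz
      refine ⟨Z, hZ, ?_⟩
      have h6 : ∑ x, y k x * (aeval (A.x P) (w x.1 x.2) * Z x.1) =
          ∑ x, y k x * z x := Finset.sum_congr rfl fun x _ => by rw [hZ' x]
      rw [h6]
      exact hz'
    · rw [map_mul, h5, aeval_rename, Sum.elim_comp_inl]
      have h7 := aeval_algebraMap_apply (B := MvPolynomial (ι × κ) L) (A.x P) f
      rw [algebraMap_eq] at h7
      have h8 : aeval (fun i => (C (A.x P i) : MvPolynomial (ι × κ) L)) f =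
          C (aeval (A.x P) f) := h7
      rw [h8, map_mul]
      ring

/-- A nonzero minor of independent rows. -/
theorem W4_minor {L : Type*} [Field L] {γ ι : Type} [Fintype γ] [DecidableEq γ] [Finite ι]
    (W : γ → ι → L) (h : LinearIndependent L W) :
    ∃ e : γ → ι, (Matrix.of fun i j : γ => W i (e j)).det ≠ 0 := by
  classical
  obtain ⟨a⟩ : Nonempty (γ ≃ Fin (Fintype.card γ)) := ⟨Fintype.equivFin γ⟩
  obtain ⟨e, he⟩ := EF.R0_minor (fun i => W (a.symm i)) (h.comp a.symm a.symm.injective)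
  refine ⟨fun j => e (a j), ?_⟩
  have h1 : (Matrix.of fun i j : γ => W i (e (a j))) =
      (Matrix.of fun i j : Fin (Fintype.card γ) => W (a.symm i) (e j)).submatrix a a := by
    ext i j
    rw [Matrix.submatrix_apply, Matrix.of_apply, Matrix.of_apply, Equiv.symm_apply_apply]
  rw [h1, Matrix.det_submatrix_equiv_self]
  exact he

theorem W4_li_of_minor {L : Type*} [Field L] {γ ι : Type} [Fintype γ] [DecidableEq γ]
    (W : γ → ι → L) (e : γ → ι) (h : (Matrix.of fun i j : γ => W i (e j)).det ≠ 0) :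
    LinearIndependent L W := by
  have h1 := Matrix.linearIndependent_rows_of_det_ne_zero h
  have h2 : (fun i => (Matrix.of fun a b => W a (e b)) i) = (LinearMap.funLeft L L e) ∘ W := by
    funext a b
    rfl
  rw [h2] at h1
  exact LinearIndependent.of_comp _ h1

theorem W4_det {R : Type*} [CommRing R] {σ γ : Type*} [Fintype γ] [DecidableEq γ]
    (M : Matrix γ γ (MvPolynomial σ R)) (D : γ → ℕ)
    (h : ∀ i j, (M i j).IsHomogeneous (D j)) : M.det.IsHomogeneous (∑ i, D i) := by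
  rw [Matrix.det_apply]
  refine IsHomogeneous.sum _ _ _ fun τ _ => ?_
  have h1 := IsHomogeneous.prod Finset.univ (fun i => M (τ i) i) (fun i => D i)
    fun i _ => h (τ i) i
  rcases Int.units_eq_one_or (Equiv.Perm.sign τ) with h2 | h2
  · rw [h2, one_smul]
    exact h1
  · rw [h2, Units.neg_smul, one_smul]
    exact h1.neg

/-! ### The theorem -/

/-- The subspace theorem for the vectors `w p c * Z p`, `Z` in the kernel of `G`. -/
theorem W_tw {K : Type u} [Field K] [NumberField K] {N : ℕ} (A : AV K N)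
    (Γ : AddSubgroup (A.Pts K)) (hΓ : Γ.FG) {γ ι κ σ : Type} [Fintype γ] [DecidableEq γ]
    [Fintype ι] [DecidableEq ι] [Fintype κ] [Fintype σ] {r : ℕ}
    (hgr : Fintype.card γ + r = Fintype.card ι) (hr : 0 < r) (D D' : ℕ) (ρ : γ → ℕ) (δ : ι → ℕ)
    (G : Matrix γ ι (MvPolynomial (Fin (N + 1)) K))
    (hG : ∀ i p, G i p = 0 ∨ ∃ m, (G i p).IsHomogeneous m ∧ m + ρ i = D' + δ p)
    (hGi : ∃ (L : Type u) (_ : Field L) (_ : Algebra K L) (P : A.Pts L), Gen A P ∧
      LinearIndependent L (fun i p => aeval (A.x P) (G i p)))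
    (w : ι → κ → MvPolynomial (Fin (N + 1)) K)
    (hw : ∀ p c, (w p c).IsHomogeneous (δ p)) (hw0 : ∀ p, ∃ c, w p c ∉ A.I)
    (Λ' : σ → ι × κ → MvPolynomial (Fin (N + 1)) K)
    (hΛ' : ∀ j x, (Λ' j x).IsHomogeneous D) (S : Finset (NumberField.FinitePlace K)) (ε : ℝ)
    (hε : 0 < ε) :
    ∃ (C : ℝ) (F : MvPolynomial (Fin (N + 1) ⊕ (ι × κ)) K), ExcU A G w F ∧
      ∀ P ∈ Γ, ∀ Z ∈ FibT A G P, ∀ Y : ι × κ → K, Y ≠ 0 →
        (∀ x, Y x = aeval (A.x P) (w x.1 x.2) * Z x.1) →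
        aeval (Sum.elim (A.x P) Y) F ≠ 0 →
        (∀ p, ∃ c, aeval (A.x P) (w p c) ≠ 0) ∧
        LinearIndependent K (fun i p => aeval (A.x P) (G i p)) ∧
        ∀ (Bi : NumberField.InfinitePlace K → Finset σ)
          (Bf : NumberField.FinitePlace K → Finset σ),
          (∀ v, IndT A G (fun j => redT w (Λ' j)) (Bi v)) →
          (∀ v ∈ S, IndT A G (fun j => redT w (Λ' j)) (Bf v)) →
          (∀ j, (∃ v, j ∈ Bi v) ∨ (∃ v ∈ S, j ∈ Bf v) →
            (∑ x, aeval (A.x P) (Λ' j x) * Y x) ≠ 0) ∧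
          (∑ v : NumberField.InfinitePlace K, (v.mult : ℝ) *
              ∑ j ∈ Bi v, lamT A v.val D (Λ' j) P Y) +
            (∑ v ∈ S, ∑ j ∈ Bf v, lamT A v.val D (Λ' j) P Y) +
            logHeight (fun x : (γ ↪ ι) × (ι → κ) =>
              (Matrix.of fun a b => aeval (A.x P) (G a (x.1 b))).det *
                ∏ p ∈ (Finset.univ.map x.1)ᶜ, aeval (A.x P) (w p (x.2 p))) ≤
            r * logHeight Y + ε * (logHeight Y + logHeight (A.x P)) + C := by
  classical
  choose c₀ hc₀ using hw0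
  have hIp : A.I.IsPrime := Z_prime A
  obtain ⟨L₀, _, _, P₀, hP₀, hli⟩ := hGi
  obtain ⟨a, ha⟩ : ∃ a, (X a : MvPolynomial (Fin (N + 1)) K) ∉ A.I := by
    by_contra hcon
    push Not at hcon
    obtain ⟨i, hi⟩ := Function.ne_iff.1 (A.x_ne P₀)
    have h1 := P₀.2 _ (hcon i)
    rw [aeval_X] at h1
    exact hi h1
  obtain ⟨e, he⟩ := W4_minor _ hli
  obtain ⟨m, hm⟩ : ∃ m : MvPolynomial (Fin (N + 1)) K, m =
    (Matrix.of fun i j : γ => X a ^ ρ i * G i (e j)).det := ⟨_, rfl⟩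
  have hmv : ∀ {L : Type u} [Field L] [Algebra K L] (P : A.Pts L), aeval (A.x P) m =
      (∏ i, A.x P a ^ ρ i) * (Matrix.of fun i j : γ => aeval (A.x P) (G i (e j))).det := by
    intro L _ _ P
    rw [hm, AlgHom.map_det, ← Matrix.det_mul_column]
    refine congrArg Matrix.det ?_
    ext i j
    show aeval (A.x P) (X a ^ ρ i * G i (e j)) = A.x P a ^ ρ i * aeval (A.x P) (G i (e j))
    rw [map_mul, map_pow, aeval_X]
  have hxa₀ : A.x P₀ a ≠ 0 := by
    have h6 := W2_gen hP₀ (isHomogeneous_X K a) ha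
    rwa [aeval_X] at h6
  have hm0 : m ∉ A.I := by
    intro h
    have h1 : aeval (A.x P₀) m = 0 := P₀.2 m h
    rw [hmv] at h1
    rcases mul_eq_zero.1 h1 with h2 | h2
    · exact Finset.prod_ne_zero_iff.2 (fun i _ => pow_ne_zero _ hxa₀) h2
    · exact he h2
  have hmh : m.IsHomogeneous (∑ j, (D' + δ (e j))) := by
    rw [hm]
    refine W4_det _ _ fun i j => ?_
    show (X a ^ ρ i * G i (e j)).IsHomogeneous (D' + δ (e j))
    rcases hG i (e j) with h1 | ⟨k, h1, h2⟩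
    · rw [h1, mul_zero]
      exact isHomogeneous_zero _ _ _
    · have h3 := (isHomogeneous_X_pow (R := K) a (ρ i)).mul h1
      have h4 : ρ i + k = D' + δ (e j) := by omega
      rwa [h4] at h3
  obtain ⟨E, hE⟩ : ∃ E, E = D' + ∑ p, δ p := ⟨_, rfl⟩
  obtain ⟨f, hf⟩ : ∃ f : MvPolynomial (Fin (N + 1)) K, f = X a * ((∏ p, w p (c₀ p)) * m) :=
    ⟨_, rfl⟩
  have hfh : f.IsHomogeneous (1 + ((∑ p, δ p) + ∑ j, (D' + δ (e j)))) := by
    rw [hf]
    exact (isHomogeneous_X K a).mul ((IsHomogeneous.prod _ _ _ fun b _ => hw b (c₀ b)).mul hmh)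
  have hf0 : f ∉ A.I := by
    rw [hf]
    intro h
    rcases hIp.mem_or_mem h with h | h
    · exact ha h
    · rcases hIp.mem_or_mem h with h | h
      · obtain ⟨b, -, hb⟩ := hIp.prod_mem_iff.1 h
        exact hc₀ b hb
      · exact hm0 h
  obtain ⟨C, F, hF, h⟩ := S0_gen A Γ hΓ (Fintype.equivFin (Rt γ c₀))
    (Fintype.equivFin (ι × κ)) (r := r) (W4_card hgr c₀)
    hr D E (rowT a E ρ δ c₀ G w) (W4_hom a E ρ δ c₀ G w hE hG hw)
    Λ' hΛ' S ε hε
  refine ⟨C, F * rename Sum.inl f, W4_exc ha hw hc₀ hF hfh hf0, ?_⟩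
  intro P hP Z hZ Y hY hYZ hne
  rw [map_mul, aeval_rename, Sum.elim_comp_inl] at hne
  have hne1 := left_ne_zero_of_mul hne
  have hne2 := right_ne_zero_of_mul hne
  rw [hf, map_mul, map_mul, map_prod, aeval_X] at hne2
  have hxa := left_ne_zero_of_mul hne2
  have hne3 := right_ne_zero_of_mul hne2
  have hwP : ∀ b, aeval (A.x P) (w b (c₀ b)) ≠ 0 := fun b =>
    Finset.prod_ne_zero_iff.1 (left_ne_zero_of_mul hne3) b (Finset.mem_univ b)
  have hmP := right_ne_zero_of_mul hne3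
  rw [hmv] at hmP
  have hliP := W4_li_of_minor (fun i l => aeval (A.x P) (G i l)) e (right_ne_zero_of_mul hmP)
  refine ⟨fun b => ⟨c₀ b, hwP b⟩, hliP, fun Bi Bf hBi hBf => ?_⟩
  have hin : ∀ B : Finset σ, IndT A G (fun j => redT w (Λ' j)) B →
      IndT A (rowT a E ρ δ c₀ G w) Λ' B := by
    intro B hB L _ _ Q hQ
    have hQa : A.x Q a ≠ 0 := by
      have h6 := W2_gen hQ (isHomogeneous_X K a) ha
      rwa [aeval_X] at h6
    exact W4_ind a E ρ δ c₀ G w Q hQa (fun b => W2_gen hQ (hw _ _) (hc₀ b)) (hB L Q hQ)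
  obtain ⟨h1, h2⟩ := h P hP Y hY (W4_mem a E ρ δ c₀ G w P Z hZ Y hYZ) hne1 Bi Bf
    (fun v => hin _ (hBi v)) fun v hv => hin _ (hBf v hv)
  refine ⟨h1, ?_⟩
  have h3 := (W3_hE (fun i l => aeval (A.x P) (G i l)) hliP (fun p c => aeval (A.x P) (w p c)) c₀
    hwP (fun x => A.x P a ^ (E - δ x.1.1)) (fun x => pow_ne_zero _ hxa) (fun i => A.x P a ^ ρ i)
    (fun i => pow_ne_zero _ hxa)
    (fun i y => aeval (A.x P) (rowT a E ρ δ c₀ G w i y))
    (fun x y => W4_inl a E ρ δ c₀ G w P x y) (fun i y => W4_inr a E ρ δ c₀ G w P i y)).2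
  have h4 := hET_le (Fintype.equivFin (Rt γ c₀)) (Fintype.equivFin (ι × κ))
    (rowT a E ρ δ c₀ G w) P
  unfold hET at h4
  linarith

end Pool.Agent.Lib.MP_17a322_nt.TB
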