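import Pool.Agent.Lib.MP_17a322_nt.SL.FDefs

/-!
Moving hyperplanes over principal torus bundles over `A`: definitions of the final statement.
-/

universe u

namespace Pool.Agent.Lib.MP_17a322_nt.TB

open MvPolynomial Height
open Pool.Agent.Lib.MP_17a322_nt.VA
open Pool.Agent.Lib.MP_17a322_nt.SL

section

variable {q p n : ℕ} {R : Type*} [CommRing R]

/-- The weight in the direction `τ` of a monomial in the coordinates `y_(i,c)`. -/
noncomputable def wt (τ : Fin q → ℝ) (m : Fin q × Fin p →₀ ℕ) : ℝ :=
  ∑ i, (m i : ℝ) * τ i.1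

/-- The monomials that occur in the coefficients of the linear form `Λ`. -/
noncomputable def supp (Λ : Fin n → MvPolynomial (Fin q × Fin p) R) :
    Finset (Fin q × Fin p →₀ ℕ) := by
  classical
  exact Finset.univ.biUnion fun l => (Λ l).support

/-- The largest weight of the monomials that occur in the coefficients of `Λ`. -/
noncomputable def maxWt (τ : Fin q → ℝ) (Λ : Fin n → MvPolynomial (Fin q × Fin p) R) : ℝ :=
  ⨆ m : supp Λ, wt τ (m : Fin q × Fin p →₀ ℕ)

/-- The part of weight `h` of a polynomial. -/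
noncomputable def partWt (τ : Fin q → ℝ) (h : ℝ) (b : MvPolynomial (Fin q × Fin p) R) :
    MvPolynomial (Fin q × Fin p) R := by
  classical
  exact ∑ m ∈ b.support.filter fun m => wt τ m = h, monomial m (coeff m b)

end

/-- A principal bundle over `A` for the group `𝔾_m ^ q`. For `i < q` let `η i` be a vector of forms of
degree `e i` in the coordinates of `A`, not all zero on `A`, and `k i` an integer. A point of the bundle
over the point of `A` with the coordinates `x` is given by nonzero multiples `y i` of the vectors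
`η i (x)`; for `c ≠ 0` the points `(x, y)` and `(c * x, c ^ k i * y i)` are the same. -/
structure Tor {K : Type u} [Field K] {N : ℕ} (A : AV K N) (q p : ℕ) where
  /-- the forms -/
  η : Fin q → Fin p → MvPolynomial (Fin (N + 1)) K
  /-- their degrees -/
  e : Fin q → ℕ
  /-- the twists -/
  k : Fin q → ℕ
  hom : ∀ i c, (η i c).IsHomogeneous (e i)
  ne : ∀ i, ∃ c, η i c ∉ A.I

section

variable {K : Type u} [Field K] {N q p : ℕ} {A : AV K N} (T : Tor A q p) {g n s : ℕ}

/-- `y` is a point of the bundle over `P`. -/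
def Tor.On {L : Type u} [Field L] [Algebra K L] (P : A.Pts L) (y : Fin q × Fin p → L) : Prop :=
  ∀ i, (∃ c, y (i, c) ≠ 0) ∧ ∃ t : L, ∀ c, y (i, c) = t * aeval (A.x P) (T.η i c)

/-- `b` is weighted homogeneous of degree `D`: the coordinates `x_j` of `A` have the weight one, the
coordinates `y_(i,c)` have the weight `k i`. -/
def Tor.WH (D : ℕ) (b : MvPolynomial (Fin q × Fin p) (MvPolynomial (Fin (N + 1)) K)) : Prop :=
  ∀ m, coeff m b ≠ 0 → ∃ δ : ℕ, (coeff m b).IsHomogeneous δ ∧ δ + ∑ i, T.k i.1 * m i = D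

/-- The polynomial `b` at the points `(P, (t_i η_i(P)))`, a polynomial in `t_1, ..., t_q`. -/
noncomputable def Tor.sp {L : Type u} [Field L] [Algebra K L] (P : A.Pts L)
    (b : MvPolynomial (Fin q × Fin p) (MvPolynomial (Fin (N + 1)) K)) : MvPolynomial (Fin q) L :=
  eval₂ ((C : L →+* MvPolynomial (Fin q) L).comp
      (aeval (A.x P) : MvPolynomial (Fin (N + 1)) K →ₐ[K] L).toRingHom)
    (fun i => C (aeval (A.x P) (T.η i.1 i.2)) * X i.1) b

/-- The rows of `G` and the leading parts in the direction `τ` of the linear forms `Λ j`, `j ∈ J`, are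
linearly independent over the function field of the bundle. -/
def Tor.Ind (G : Matrix (Fin g) (Fin n) (MvPolynomial (Fin (N + 1)) K))
    (Λ : Matrix (Fin s) (Fin n) (MvPolynomial (Fin q × Fin p) (MvPolynomial (Fin (N + 1)) K)))
    (τ : Fin q → ℝ) (J : Finset (Fin s)) : Prop :=
  ∀ (L : Type u) [Field L] [Algebra K L] (P : A.Pts L), Gen A P →
    LinearIndependent (MvPolynomial (Fin q) L)
      (Sum.elim (fun (i : Fin g) (l : Fin n) => C (aeval (A.x P) (G i l)))
        fun (j : J) (l : Fin n) => T.sp P (partWt τ (maxWt τ (Λ j)) (Λ j l)))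

/-- `f` does not vanish on any stratum of the boundary of the bundle. -/
def Tor.NZ (f : MvPolynomial (Fin q × Fin p) (MvPolynomial (Fin (N + 1)) K)) : Prop :=
  ∀ (τ : Fin q → ℝ) (L : Type u) [Field L] [Algebra K L] (P : A.Pts L), Gen A P →
    T.sp P (partWt τ (maxWt τ fun _ : Fin 1 => f) f) ≠ 0

/-- The value of `b` at the point `(P, y)`. -/
noncomputable def ev {L : Type u} [Field L] [Algebra K L] (P : A.Pts L) (y : Fin q × Fin p → L)
    (b : MvPolynomial (Fin q × Fin p) (MvPolynomial (Fin (N + 1)) K)) : L :=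
  eval y (MvPolynomial.map (aeval (A.x P) : MvPolynomial (Fin (N + 1)) K →ₐ[K] L).toRingHom b)

/-- The logarithm of the norm of `y i`. -/
noncomputable def Tor.tau {L : Type u} [Field L] [Algebra K L] (v : AbsoluteValue L ℝ)
    (P : A.Pts L) (y : Fin q × Fin p → L) (i : Fin q) : ℝ :=
  Real.log (⨆ c, v (y (i, c))) - T.k i * Real.log (⨆ j, v (A.x P j))

/-- The local height of the point `(P, y, X)` with respect to the closure of the relative hyperplane
`Λ = 0`, `Λ` a linear form with coefficients of weighted degree `D`. -/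
noncomputable def Tor.lam {L : Type u} [Field L] [Algebra K L] (v : AbsoluteValue L ℝ) (D : ℕ)
    (Λ : Fin n → MvPolynomial (Fin q × Fin p) (MvPolynomial (Fin (N + 1)) K)) (P : A.Pts L)
    (y : Fin q × Fin p → L) (X : Fin n → L) : ℝ :=
  Real.log (⨆ l, v (X l)) + D * Real.log (⨆ i, v (A.x P i)) + maxWt (T.tau v P y) Λ -
    Real.log (v (∑ l, ev P y (Λ l) * X l))

/-- The polynomials `F` in the coordinates of `A`, of the bundle and `X_1, ..., X_n`, bihomogeneous (with
weights), that are over the generic point of `A` products of a function that is not zero on the bundle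
and linear forms in `X_1, ..., X_n` that do not vanish identically on `E`. -/
def Tor.Exc (G : Matrix (Fin g) (Fin n) (MvPolynomial (Fin (N + 1)) K))
    (F : MvPolynomial (Fin (N + 1) ⊕ (Fin q × Fin p) ⊕ Fin n) K) : Prop :=
  (∃ a b : ℕ, ∀ m ∈ F.support,
    ∑ i, m (Sum.inl i) + ∑ i, T.k i.1 * m (Sum.inr (Sum.inl i)) = a ∧
    ∑ l, m (Sum.inr (Sum.inr l)) = b) ∧
  ∀ (L : Type u) [Field L] [IsAlgClosed L] [Algebra K L] (P : A.Pts L), Gen A P →
    ∃ (c : MvPolynomial (Fin q) L) (m : ℕ) (z : Fin m → Fin n → MvPolynomial (Fin q) L), c ≠ 0 ∧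
      (∀ k, ∃ w ∈ Fib A G P, ∑ l, z k l * C (w l) ≠ 0) ∧
      aeval (Sum.elim (fun i => (C (C (A.x P i)) : MvPolynomial (Fin n) (MvPolynomial (Fin q) L)))
        (Sum.elim (fun i => C (C (aeval (A.x P) (T.η i.1 i.2)) * X i.1)) X)) F =
        C c * ∏ k, ∑ l, C (z k l) * X l

/-- The height of `y i`. -/
noncomputable def Tor.ht [NumberField K] (P : A.Pts K) (y : Fin q × Fin p → K) (i : Fin q) : ℝ :=
  logHeight (Sum.elim (fun j => A.x P j ^ T.k i) fun c => y (i, c))

/-- The part outside `S` of the height of a point of the bundle with respect to the boundary. -/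
noncomputable def Tor.NS [NumberField K] (S : Finset (NumberField.FinitePlace K)) (P : A.Pts K)
    (y : Fin q × Fin p → K) : ℝ :=
  ∑ i, ∑ᶠ v : {v : NumberField.FinitePlace K // v ∉ S}, |T.tau v.1.val P y i|

end

end Pool.Agent.Lib.MP_17a322_nt.TB
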