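import Pool.Agent.Lib.MP_17a322_nt.TB.Defs
import Pool.Agent.Lib.MP_17a322_nt.SG.Defs2

/-!
Moving hyperplanes over principal torus bundles over `A`: definitions used in the proof.
-/

universe u

namespace Pool.Agent.Lib.MP_17a322_nt.TB

open MvPolynomial Height
open Pool.Agent.Lib.MP_17a322_nt.VA
open Pool.Agent.Lib.MP_17a322_nt.SL
open Pool.Agent.Lib.MP_17a322_nt.SG (Bx toF Ix IndB)

/-- The coordinates of the lines: a coordinate of `A` and an exponent of `y`. -/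
abbrev Kp (N q p M : ℕ) : Type := Fin (N + 1) × (Fin q × Fin p → Fin (M + 1))

/-- The columns. -/
abbrev Cx (N q p M n : ℕ) : Type := Bx q M × Kp N q p M × Fin n

/-- The exponent of the coordinate of `A` in the block `b`. -/
def ex {q M : ℕ} (k : Fin q → ℕ) (b : Bx q M) : ℕ := ∑ i, k i * (M - b i)

/-- `μ` has the multidegree `b`. -/
def Mt {q p M : ℕ} (b : Bx q M) (μ : Fin q × Fin p → Fin (M + 1)) : Prop :=
  ∀ i, ∑ c, (μ (i, c) : ℕ) = b i

/-- The exponent `μ`. -/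
noncomputable def toK {q p M : ℕ} (μ : Fin q × Fin p → Fin (M + 1)) : Fin q × Fin p →₀ ℕ :=
  Finsupp.equivFunOnFinite.symm fun i => (μ i : ℕ)

/-- The exponent of `∏ i, y (i, ch i) ^ m i`. -/
noncomputable def mch {q p M : ℕ} (ch : Fin q → Fin p) (m : Bx q M) : Fin q × Fin p →₀ ℕ :=
  Finsupp.equivFunOnFinite.symm fun i => if i.2 = ch i.1 then (m i.1 : ℕ) else 0

/-- The vector of the `x_j ^ ex y ^ μ X_l`. -/
noncomputable def phi {N q p n : ℕ} {R : Type*} [CommRing R] (k : Fin q → ℕ) (M : ℕ)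
    (x : Fin (N + 1) → R) (y : Fin q × Fin p → R) (Z : Fin n → R) (c : Cx N q p M n) : R :=
  open Classical in
  if Mt c.1 c.2.1.2 then
    x c.2.1.1 ^ ex k c.1 * (∏ i, y i ^ (c.2.1.2 i : ℕ)) * Z c.2.2 else 0

section

variable {K : Type u} [Field K] {N q p : ℕ} {A : AV K N} (T : Tor A q p) {g n s : ℕ}

/-- The forms that define the line in the block `b`. -/
noncomputable def wB (M : ℕ) (b : Bx q M) (κ : Kp N q p M) : MvPolynomial (Fin (N + 1)) K :=
  open Classical in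
  if Mt b κ.2 then X κ.1 ^ ex T.k b * ∏ i, T.η i.1 i.2 ^ (κ.2 i : ℕ) else 0

/-- The linear forms `x_a ^ (ex m) y_ch ^ m Λ_j` and the coordinates `x_a ^ D x_a ^ ex y_ch ^ m X_l`. -/
noncomputable def LamT {M d : ℕ} (k : Fin q → ℕ) (a : Fin (N + 1)) (ch : Fin q → Fin p) (D : ℕ)
    (Λ : Matrix (Fin s) (Fin n) (MvPolynomial (Fin q × Fin p) (MvPolynomial (Fin (N + 1)) K))) :
    Ix q M d n s → Cx N q p M n → MvPolynomial (Fin (N + 1)) K
  | Sum.inl z, x => open Classical in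
      if x.2.1.1 = a ∧ Mt x.1 x.2.1.2 then
        coeff (toK x.2.1.2) (monomial (mch ch z.2) 1 * Λ z.1 x.2.2) *
          X a ^ (∑ i, k i * (x.1 i - z.2 i)) else 0
  | Sum.inr z, x => open Classical in
      if x.2.1.1 = a ∧ x.1 = z.1 ∧ toK x.2.1.2 = mch ch z.1 ∧ x.2.2 = z.2 then X a ^ D else 0

end

section

variable {K : Type u} [Field K] {N : ℕ} (A : AV K N) {g n : ℕ}

/-- The linear form `Λ'` on the vectors `w b κ * Z b l`, as a linear form in `Z`. -/
noncomputable def red {β κ : Type} [Fintype κ] (w : β → κ → MvPolynomial (Fin (N + 1)) K)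
    (Λ' : β × κ × Fin n → MvPolynomial (Fin (N + 1)) K) (x : β × Fin n) :
    MvPolynomial (Fin (N + 1)) K :=
  ∑ c, Λ' (x.1, c, x.2) * w x.1 c

/-- The local height for arbitrary columns. -/
noncomputable def lamF {χ : Type} [Fintype χ] {L : Type u} [Field L] [Algebra K L]
    (v : AbsoluteValue L ℝ) (D : ℕ) (Λ' : χ → MvPolynomial (Fin (N + 1)) K) (P : A.Pts L)
    (Y : χ → L) : ℝ :=
  Real.log (⨆ x, v (Y x)) + D * Real.log (⨆ i, v (A.x P i)) -
    Real.log (v (∑ x, aeval (A.x P) (Λ' x) * Y x))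

/-- The exceptional forms for the columns `β × κ × Fin n`. -/
def ExcW {β κ : Type} [Fintype β] [Fintype κ]
    (G : Matrix (Fin g) (Fin n) (MvPolynomial (Fin (N + 1)) K))
    (w : β → κ → MvPolynomial (Fin (N + 1)) K)
    (F : MvPolynomial (Fin (N + 1) ⊕ (β × κ × Fin n)) K) : Prop :=
  (∃ a b : ℕ, ∀ m ∈ F.support, ∑ i, m (Sum.inl i) = a ∧ ∑ x, m (Sum.inr x) = b) ∧
  ∀ (L : Type u) [Field L] [IsAlgClosed L] [Algebra K L] (P : A.Pts L), Gen A P →
    ∃ (c : L) (m : ℕ) (y : Fin m → β × κ × Fin n → L), c ≠ 0 ∧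
      (∀ k, ∃ Z : β × Fin n → L, (∀ b, (fun l => Z (b, l)) ∈ Fib A G P) ∧
        ∑ x, y k x * (aeval (A.x P) (w x.1 x.2.1) * Z (x.1, x.2.2)) ≠ 0) ∧
      aeval (Sum.elim (fun i => (C (A.x P i) : MvPolynomial (β × κ × Fin n) L)) X) F =
        C c * ∏ k, ∑ x, C (y k x) * X x

/-- The pullback of a form under `(x, y, X) ↦ phi`. -/
noncomputable def pullF {q p M : ℕ} (k : Fin q → ℕ)
    (F : MvPolynomial (Fin (N + 1) ⊕ Cx N q p M n) K) :
    MvPolynomial (Fin (N + 1) ⊕ (Fin q × Fin p) ⊕ Fin n) K :=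
  aeval (Sum.elim (fun i => X (Sum.inl i))
    (phi k M (fun i => X (Sum.inl i)) (fun i => X (Sum.inr (Sum.inl i)))
      fun l => X (Sum.inr (Sum.inr l)))) F

end

end Pool.Agent.Lib.MP_17a322_nt.TB
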