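import Pool.Agent.Lib.MP_17a322_nt.VA.Mu
import Pool.Agent.Lib.MP_17a322_nt.SG.H1
import Pool.Agent.Lib.MP_17a322_nt.TB.Defs2

/-!
Heights of the vectors of the products of monomials and coordinates.
-/

universe u

namespace Pool.Agent.Lib.MP_17a322_nt.TB

open MvPolynomial Height
open Pool.Agent.Lib.MP_17a322_nt.VJ
open Pool.Agent.Lib.MP_17a322_nt.VA
open Pool.Agent.Lib.MP_17a322_nt.SL
open Pool.Agent.Lib.MP_17a322_nt.SG (Bx toF Ix IndB H_gs)

section

variable {K : Type*} [Field K] {N q p n : ℕ}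

/-- the largest absolute value of the entries -/
theorem H_att {ι : Type*} [Finite ι] (v : AbsoluteValue K ℝ) {z : ι → K} (hz : ∃ i, z i ≠ 0) :
    ∃ i, v (z i) = ⨆ j, v (z j) ∧ 0 < v (z i) := by
  obtain ⟨i₁, h₁⟩ := hz
  have hι : Nonempty ι := ⟨i₁⟩
  obtain ⟨i₀, h₀⟩ := Finite.exists_max fun i => v (z i)
  exact ⟨i₀, le_antisymm (le_ciSup (f := fun i => v (z i)) (Set.finite_range _).bddAbove i₀)
    (ciSup_le h₀), (v.pos h₁).trans_le (h₀ i₁)⟩

theorem H_le {ι : Type*} [Finite ι] (v : AbsoluteValue K ℝ) (z : ι → K) (i : ι) :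
    v (z i) ≤ ⨆ j, v (z j) :=
  le_ciSup (f := fun i => v (z i)) (Set.finite_range _).bddAbove i

/-- the two kinds of entries -/
theorem H_max (v : AbsoluteValue K ℝ) {x : Fin (N + 1) → K} (hx : ∃ j, x j ≠ 0) (k : ℕ)
    (y : Fin p → K) :
    ⨆ z, v (Sum.elim (fun j => x j ^ k) y z) = max ((⨆ j, v (x j)) ^ k) (⨆ c, v (y c)) := by
  obtain ⟨j₀, h₀, h₁⟩ := H_att v hx
  refine le_antisymm (ciSup_le fun z => ?_) (max_le ?_ (Real.iSup_le (fun c => ?_) ?_))
  · rcases z with j | c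
    · simp only [Sum.elim_inl, map_pow]
      exact (pow_le_pow_left₀ (v.nonneg _) (H_le v x j) k).trans (le_max_left _ _)
    · exact (H_le v y c).trans (le_max_right _ _)
  · rw [← h₀, ← map_pow]
    exact H_le v (Sum.elim (fun j => x j ^ k) y) (Sum.inl j₀)
  · exact H_le v (Sum.elim (fun j => x j ^ k) y) (Sum.inr c)
  · exact Real.iSup_nonneg fun z => v.nonneg _

/-- the largest value of the monomials of one multidegree: upper bound -/
theorem H_mono_le {M : ℕ} (v : AbsoluteValue K ℝ) (y : Fin q × Fin p → K) {b : Bx q M}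
    {μ : Fin q × Fin p → Fin (M + 1)} (hμ : Mt b μ) :
    v (∏ i, y i ^ (μ i : ℕ)) ≤ ∏ i, (⨆ c, v (y (i, c))) ^ (b i : ℕ) := by
  rw [map_prod, Fintype.prod_prod_type]
  refine Finset.prod_le_prod (fun i _ => Finset.prod_nonneg fun c _ => v.nonneg _) fun i _ => ?_
  rw [← hμ i, ← Finset.prod_pow_eq_pow_sum]
  refine Finset.prod_le_prod (fun c _ => v.nonneg _) fun c _ => ?_
  rw [map_pow]
  exact pow_le_pow_left₀ (v.nonneg _) (H_le v (fun c => y (i, c)) c) _

/-- the exponent of the largest monomial -/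
def H_mu {M : ℕ} (ch : Fin q → Fin p) (b : Bx q M) (x : Fin q × Fin p) : Fin (M + 1) :=
  if x.2 = ch x.1 then b x.1 else 0

theorem H_mu_mt {M : ℕ} (ch : Fin q → Fin p) (b : Bx q M) : Mt b (H_mu ch b) := by
  intro i
  have h : ∀ c, ((H_mu ch b (i, c) : Fin (M + 1)) : ℕ) = if c = ch i then (b i : ℕ) else 0 := by
    intro c
    unfold H_mu
    split_ifs <;> rfl
  simp only [h, Finset.sum_ite_eq', Finset.mem_univ, if_true]

theorem H_mu_prod {R : Type*} [CommMonoid R] {M : ℕ} (ch : Fin q → Fin p) (b : Bx q M)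
    (y : Fin q × Fin p → R) :
    ∏ x, y x ^ (H_mu ch b x : ℕ) = ∏ i, y (i, ch i) ^ (b i : ℕ) := by
  rw [Fintype.prod_prod_type]
  refine Finset.prod_congr rfl fun i _ => ?_
  rw [Finset.prod_eq_single (ch i)]
  · simp [H_mu]
  · intro c _ hc
    simp [H_mu, hc]
  · intro h
    exact absurd (Finset.mem_univ _) h

/-- the local height of the line in the block `b` -/
theorem H_line {M : ℕ} (v : AbsoluteValue K ℝ) {x : Fin (N + 1) → K} (hx : ∃ j, x j ≠ 0) (e : ℕ)
    {y : Fin q × Fin p → K} (hy : ∀ i, ∃ c, y (i, c) ≠ 0) (b : Bx q M) :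
    (open Classical in ⨆ κ : Kp N q p M, v (if Mt b κ.2 then x κ.1 ^ e * ∏ i, y i ^ (κ.2 i : ℕ) else 0)) =
      (⨆ j, v (x j)) ^ e * ∏ i, (⨆ c, v (y (i, c))) ^ (b i : ℕ) := by
  classical
  obtain ⟨j₀, h₀, h₁⟩ := H_att v hx
  choose ch hch hch' using fun i => H_att v (z := fun c => y (i, c)) (hy i)
  have hX : 0 ≤ ⨆ j, v (x j) := Real.iSup_nonneg fun z => v.nonneg _
  have hP : 0 ≤ ∏ i, (⨆ c, v (y (i, c))) ^ (b i : ℕ) :=
    Finset.prod_nonneg fun i _ => pow_nonneg (Real.iSup_nonneg fun z => v.nonneg _) _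
  refine le_antisymm (Real.iSup_le (fun κ => ?_) (mul_nonneg (pow_nonneg hX _) hP)) ?_
  · split_ifs with h
    · rw [map_mul, map_pow]
      exact mul_le_mul (pow_le_pow_left₀ (v.nonneg _) (H_le v x _) _) (H_mono_le v y h)
        (v.nonneg _) (pow_nonneg hX _)
    · rw [map_zero]
      exact mul_nonneg (pow_nonneg hX _) hP
  · have h2 := H_le v (fun κ : Kp N q p M =>
      if Mt b κ.2 then x κ.1 ^ e * ∏ i, y i ^ (κ.2 i : ℕ) else 0) (j₀, H_mu ch b)
    refine le_trans (le_of_eq ?_) h2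
    simp only [if_pos (H_mu_mt ch b)]
    rw [map_mul, map_pow, h₀, H_mu_prod, map_prod]
    congr 1
    refine Finset.prod_congr rfl fun i _ => ?_
    rw [map_pow, hch]

/-- the local height of the vector of the products -/
theorem H_sup (M : ℕ) (v : AbsoluteValue K ℝ) (k : Fin q → ℕ) {x : Fin (N + 1) → K}
    (hx : ∃ j, x j ≠ 0) {y : Fin q × Fin p → K} (hy : ∀ i, ∃ c, y (i, c) ≠ 0) {Z : Fin n → K}
    (hZ : ∃ l, Z l ≠ 0) : ⨆ c, v (phi k M x y Z c) =
      (∏ i, max ((⨆ j, v (x j)) ^ k i) (⨆ c, v (y (i, c))) ^ M) * ⨆ l, v (Z l) := by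
  classical
  obtain ⟨j₀, h₀, h₁⟩ := H_att v hx
  obtain ⟨l₀, hl₀, hl₁⟩ := H_att v hZ
  choose ch hch hch' using fun i => H_att v (z := fun c => y (i, c)) (hy i)
  set X := ⨆ j, v (x j) with hXdef
  set s : Fin q → ℝ := fun i => ⨆ c, v (y (i, c)) with hs
  have hX : 0 < X := h₀ ▸ h₁
  have hs0 : ∀ i, 0 < s i := fun i => (hch' i).trans_eq (hch i)
  set m : Fin q → ℝ := fun i => max (X ^ k i) (s i) with hm
  have hm0 : ∀ i, 0 < m i := fun i => lt_max_of_lt_right (hs0 i)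
  have hP : 0 < ∏ i, m i ^ M := Finset.prod_pos fun i _ => pow_pos (hm0 i) M
  have hZ0 : 0 < ⨆ l, v (Z l) := hl₀ ▸ hl₁
  have hex : ∀ b : Bx q M, X ^ ex k b * ∏ i, s i ^ (b i : ℕ) =
      ∏ i, (X ^ k i) ^ (M - b i) * s i ^ (b i : ℕ) := by
    intro b
    rw [Finset.prod_mul_distrib, ex, ← Finset.prod_pow_eq_pow_sum]
    congr 1
    exact Finset.prod_congr rfl fun i _ => by rw [pow_mul]
  refine le_antisymm (Real.iSup_le (fun c => ?_) (mul_nonneg hP.le hZ0.le)) ?_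
  · unfold phi
    split_ifs with h
    · rw [map_mul, map_mul, map_pow]
      refine mul_le_mul ?_ (H_le v Z _) (v.nonneg _) hP.le
      refine (mul_le_mul (pow_le_pow_left₀ (v.nonneg _) (H_le v x _) _) (H_mono_le v y h)
        (v.nonneg _) (pow_nonneg hX.le _)).trans ?_
      rw [hex]
      refine Finset.prod_le_prod (fun i _ => mul_nonneg (pow_nonneg (pow_nonneg hX.le _) _)
        (pow_nonneg (hs0 i).le _)) fun i _ => ?_
      have hb : (M - c.1 i : ℕ) + (c.1 i : ℕ) = M := Nat.sub_add_cancel (Nat.lt_succ_iff.mp (c.1 i).2)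
      calc (X ^ k i) ^ (M - c.1 i : ℕ) * s i ^ (c.1 i : ℕ)
          ≤ m i ^ (M - c.1 i : ℕ) * m i ^ (c.1 i : ℕ) :=
            mul_le_mul (pow_le_pow_left₀ (pow_nonneg hX.le _) (le_max_left _ _) _)
              (pow_le_pow_left₀ (hs0 i).le (le_max_right _ _) _) (pow_nonneg (hs0 i).le _)
              (pow_nonneg (hm0 i).le _)
        _ = m i ^ M := by rw [← pow_add, hb]
    · rw [map_zero]
      exact mul_nonneg hP.le hZ0.le
  · set b : Bx q M := fun i => if X ^ k i ≤ s i then Fin.last M else 0 with hb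
    refine le_trans (le_of_eq ?_) (H_le v (phi k M x y Z) (b, (j₀, H_mu ch b), l₀))
    unfold phi
    simp only [if_pos (H_mu_mt ch b)]
    rw [map_mul, map_mul, map_pow, h₀, hl₀, H_mu_prod, map_prod]
    congr 1
    have h3 : ∏ i, v (y (i, ch i) ^ (b i : ℕ)) = ∏ i, s i ^ (b i : ℕ) :=
      Finset.prod_congr rfl fun i _ => by rw [map_pow, hch]
    rw [h3, hex]
    refine Finset.prod_congr rfl fun i _ => ?_
    by_cases h4 : X ^ k i ≤ s i
    · have h5 : b i = Fin.last M := by rw [hb]; simp [h4]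
      rw [h5, Fin.val_last, Nat.sub_self, pow_zero, one_mul]
      congr 1
      exact max_eq_right h4
    · have h5 : b i = 0 := by rw [hb]; simp [h4]
      rw [h5]
      simp only [Fin.val_zero, Nat.sub_zero, pow_zero, mul_one]
      congr 1
      exact max_eq_left (le_of_not_ge h4)

end

section

variable {K : Type u} [Field K] {N q p : ℕ} {A : AV K N} (T : Tor A q p) {n : ℕ}

theorem H_phi_ne (M : ℕ) {P : A.Pts K} {y : Fin q × Fin p → K} (hy : T.On P y) {Z : Fin n → K}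
    (hZ : Z ≠ 0) : phi T.k M (A.x P) y Z ≠ 0 := by
  classical
  obtain ⟨j, hj⟩ := Function.ne_iff.mp (A.x_ne P)
  obtain ⟨l, hl⟩ := Function.ne_iff.mp hZ
  choose ch hch using fun i => (hy i).1
  refine Function.ne_iff.mpr ⟨(0, (j, H_mu ch 0), l), ?_⟩
  unfold phi
  simp only [if_pos (H_mu_mt ch (0 : Bx q M))]
  refine mul_ne_zero (mul_ne_zero (pow_ne_zero _ hj) ?_) hl
  rw [H_mu_prod]
  exact Finset.prod_ne_zero_iff.mpr fun i _ => pow_ne_zero _ (hch i)

theorem H_elim_ne (k : ℕ) (P : A.Pts K) (y : Fin p → K) (hy : ∃ c, y c ≠ 0) :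
    (Sum.elim (fun j => A.x P j ^ k) y : Fin (N + 1) ⊕ Fin p → K) ≠ 0 := by
  obtain ⟨c, hc⟩ := hy
  exact Function.ne_iff.mpr ⟨Sum.inr c, hc⟩

theorem H_log_max (P : A.Pts K) {y : Fin q × Fin p → K} (v : AbsoluteValue K ℝ) (i : Fin q) :
    Real.log (⨆ z, v ((Sum.elim (fun j => A.x P j ^ T.k i) fun c => y (i, c) :
      Fin (N + 1) ⊕ Fin p → K) z)) =
      Real.log (max ((⨆ j, v (A.x P j)) ^ T.k i) (⨆ c, v (y (i, c)))) := by
  rw [H_max v (Function.ne_iff.mp (A.x_ne P))]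

theorem H_phi [NumberField K] (M : ℕ) {P : A.Pts K} {y : Fin q × Fin p → K} (hy : T.On P y)
    {Z : Fin n → K} (hZ : Z ≠ 0) :
    logHeight (phi T.k M (A.x P) y Z) = logHeight Z + M * ∑ i, T.ht P y i := by
  have hx := Function.ne_iff.mp (A.x_ne P)
  have h0 : ∀ i, FS fun v : AbsoluteValue K ℝ => Real.log (⨆ z, v ((Sum.elim
      (fun j => A.x P j ^ T.k i) fun c => y (i, c) : Fin (N + 1) ⊕ Fin p → K) z)) :=
    fun i => FS_log_iSup (H_elim_ne (T.k i) P _ (hy i).1)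
  have h1 := FS_sum (L := K) Finset.univ fun i _ => h0 i
  have h2 : gs (fun v : AbsoluteValue K ℝ => (M : ℝ) * ∑ i, Real.log (⨆ z, v ((Sum.elim
      (fun j => A.x P j ^ T.k i) fun c => y (i, c) : Fin (N + 1) ⊕ Fin p → K) z))) =
      M * ∑ i, T.ht P y i := by
    rw [gs_const_mul, gs_sum Finset.univ fun i _ => h0 i]
    congr 1
    exact Finset.sum_congr rfl fun i _ => gs_log_iSup (H_elim_ne (T.k i) P _ (hy i).1)
  rw [← gs_log_iSup (H_phi_ne T M hy hZ), ← gs_log_iSup hZ, ← h2,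
    ← gs_add (FS_log_iSup hZ) (FS_const_mul _ h1)]
  congr 1
  funext v
  have hZ' := Function.ne_iff.mp hZ
  rw [H_sup M v T.k hx (fun i => (hy i).1) hZ']
  obtain ⟨l₀, hl₀, hl₁⟩ := H_att v hZ'
  have h3 : ∀ i, 0 < max ((⨆ j, v (A.x P j)) ^ T.k i) (⨆ c, v (y (i, c))) := by
    intro i
    obtain ⟨c, hc, hc'⟩ := H_att v (z := fun c => y (i, c)) (hy i).1
    exact lt_max_of_lt_right (hc ▸ hc')
  rw [Real.log_mul (Finset.prod_pos fun i _ => pow_pos (h3 i) M).ne' (hl₀ ▸ hl₁).ne',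
    Real.log_prod fun i _ => (pow_pos (h3 i) M).ne', add_comm, Finset.mul_sum]
  congr 1
  refine Finset.sum_congr rfl fun i _ => ?_
  rw [Real.log_pow, H_log_max]

theorem H_w [NumberField K] (M : ℕ) {P : A.Pts K} {y : Fin q × Fin p → K} (hy : T.On P y)
    (b : Bx q M) :
    logHeight (fun κ => aeval (A.x P) (wB T M b κ)) =
      ∑ i, ((T.k i * (M - b i : ℝ)) * logHeight (A.x P) +
        b i * logHeight (fun c => y (i, c))) := by
  classical
  have hx := Function.ne_iff.mp (A.x_ne P)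
  choose t ht using fun i => (hy i).2
  have ht0 : ∀ i, t i ≠ 0 := by
    intro i h0
    obtain ⟨c, hc⟩ := (hy i).1
    exact hc (by rw [ht i c, h0, zero_mul])
  set w : Kp N q p M → K := fun κ =>
    if Mt b κ.2 then A.x P κ.1 ^ ex T.k b * ∏ i, y i ^ (κ.2 i : ℕ) else 0 with hw
  have h1 : (fun κ => aeval (A.x P) (wB T M b κ)) = (∏ i, t i ^ (b i : ℕ))⁻¹ • w := by
    funext κ
    simp only [hw, Pi.smul_apply, smul_eq_mul]
    unfold wB
    split_ifs with h
    · have h2 : ∏ i, y i ^ (κ.2 i : ℕ) = (∏ i, t i ^ (b i : ℕ)) *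
          ∏ i, (aeval (A.x P) (T.η i.1 i.2)) ^ (κ.2 i : ℕ) := by
        have h3 : ∀ i : Fin q × Fin p, y i ^ (κ.2 i : ℕ) =
            t i.1 ^ (κ.2 i : ℕ) * (aeval (A.x P) (T.η i.1 i.2)) ^ (κ.2 i : ℕ) := by
          intro i
          rw [show y i = t i.1 * aeval (A.x P) (T.η i.1 i.2) from ht i.1 i.2, mul_pow]
        rw [Finset.prod_congr rfl fun i _ => h3 i, Finset.prod_mul_distrib]
        congr 1
        rw [Fintype.prod_prod_type]
        refine Finset.prod_congr rfl fun i _ => ?_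
        rw [← h i, ← Finset.prod_pow_eq_pow_sum]
      have h4 : ∏ i, t i ^ (b i : ℕ) ≠ 0 := Finset.prod_ne_zero_iff.mpr fun i _ => pow_ne_zero _ (ht0 i)
      rw [h2, map_mul, map_pow, aeval_X, map_prod]
      simp only [map_pow]
      field_simp
    · rw [map_zero, mul_zero]
  have h4 : ∏ i, t i ^ (b i : ℕ) ≠ 0 := Finset.prod_ne_zero_iff.mpr fun i _ => pow_ne_zero _ (ht0 i)
  have hwne : w ≠ 0 := by
    obtain ⟨j, hj⟩ := hx
    choose ch hch using fun i => (hy i).1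
    refine Function.ne_iff.mpr ⟨(j, H_mu ch b), ?_⟩
    simp only [hw, if_pos (H_mu_mt ch b)]
    refine mul_ne_zero (pow_ne_zero _ hj) ?_
    rw [H_mu_prod]
    exact Finset.prod_ne_zero_iff.mpr fun i _ => pow_ne_zero _ (hch i)
  have hyi : ∀ i, (fun c => y (i, c)) ≠ 0 := fun i => Function.ne_iff.mpr (hy i).1
  rw [h1, logHeight_smul_eq_logHeight _ (inv_ne_zero h4), ← gs_log_iSup hwne]
  have h5 : (fun v : AbsoluteValue K ℝ => Real.log (⨆ κ, v (w κ))) = fun v =>
      ∑ i, ((T.k i * (M - b i : ℝ)) * Real.log (⨆ j, v (A.x P j)) +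
        b i * Real.log (⨆ c, v (y (i, c)))) := by
    funext v
    obtain ⟨j₀, h₀, h₁⟩ := H_att v hx
    have h6 : ∀ i, 0 < ⨆ c, v (y (i, c)) := by
      intro i
      obtain ⟨c, hc, hc'⟩ := H_att v (z := fun c => y (i, c)) (hy i).1
      exact hc ▸ hc'
    rw [show (⨆ κ, v (w κ)) = _ from H_line v hx (ex T.k b) (fun i => (hy i).1) b,
      Real.log_mul (pow_pos (h₀ ▸ h₁) _).ne' (Finset.prod_pos fun i _ => pow_pos (h6 i) _).ne',
      Real.log_pow, Real.log_prod fun i _ => (pow_pos (h6 i) _).ne', Finset.sum_add_distrib,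
      ← Finset.sum_mul]
    congr 1
    · congr 1
      rw [ex]
      push_cast
      refine Finset.sum_congr rfl fun i _ => ?_
      rw [Nat.cast_sub (Nat.lt_succ_iff.mp (b i).2)]
    · exact Finset.sum_congr rfl fun i _ => by rw [Real.log_pow]
  have h7 : FS fun v : AbsoluteValue K ℝ => Real.log (⨆ j, v (A.x P j)) := FS_log_iSup (A.x_ne P)
  rw [h5, gs_sum Finset.univ fun i _ => FS_add (FS_const_mul _ h7) (FS_const_mul _ (FS_log_iSup (hyi i)))]
  refine Finset.sum_congr rfl fun i _ => ?_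
  rw [gs_add (FS_const_mul _ h7) (FS_const_mul _ (FS_log_iSup (hyi i))), gs_const_mul, gs_const_mul,
    gs_log_iSup (A.x_ne P), gs_log_iSup (hyi i)]

theorem H_two [NumberField K] (S : Finset (NumberField.FinitePlace K)) {P : A.Pts K}
    {y : Fin q × Fin p → K} (hy : T.On P y) (i : Fin q) :
    2 * (T.ht P y i - T.k i * logHeight (A.x P)) =
      ∑ v : NumberField.InfinitePlace K, (v.mult : ℝ) * |T.tau v.val P y i| +
      (∑ v ∈ S, |T.tau v.val P y i| +
        ∑ᶠ v : {v : NumberField.FinitePlace K // v ∉ S}, |T.tau v.1.val P y i|) +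
      (logHeight (fun c => y (i, c)) - T.k i * logHeight (A.x P)) := by
  have hx := Function.ne_iff.mp (A.x_ne P)
  have hyi : (fun c => y (i, c)) ≠ 0 := Function.ne_iff.mpr (hy i).1
  have h7 : FS fun v : AbsoluteValue K ℝ => Real.log (⨆ j, v (A.x P j)) := FS_log_iSup (A.x_ne P)
  have h8 : FS fun v : AbsoluteValue K ℝ => Real.log (⨆ c, v (y (i, c))) := FS_log_iSup hyi
  have h9 : FS fun v : AbsoluteValue K ℝ => T.tau v P y i := FS_sub h8 (FS_const_mul _ h7)
  have h0 : FS fun v : AbsoluteValue K ℝ => |T.tau v P y i| := by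
    refine h9.subset fun v hv => ?_
    intro h
    exact hv (by simp only [h, abs_zero])
  have h1 : FS fun v : AbsoluteValue K ℝ => Real.log (⨆ z, v ((Sum.elim
      (fun j => A.x P j ^ T.k i) fun c => y (i, c) : Fin (N + 1) ⊕ Fin p → K) z)) :=
    FS_log_iSup (H_elim_ne (T.k i) P _ (hy i).1)
  have h2 : ∀ v : AbsoluteValue K ℝ, |T.tau v P y i| =
      2 * (Real.log (⨆ z, v ((Sum.elim (fun j => A.x P j ^ T.k i) fun c => y (i, c) :
        Fin (N + 1) ⊕ Fin p → K) z)) - T.k i * Real.log (⨆ j, v (A.x P j))) - T.tau v P y i := by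
    intro v
    obtain ⟨j₀, h₀, h₁⟩ := H_att v hx
    obtain ⟨c, hc, hc'⟩ := H_att v (z := fun c => y (i, c)) (hy i).1
    have hX : 0 < (⨆ j, v (A.x P j)) ^ T.k i := pow_pos (h₀ ▸ h₁) _
    have hs : 0 < ⨆ c, v (y (i, c)) := hc ▸ hc'
    rw [H_log_max]
    unfold Tor.tau
    have hlog : Real.log ((⨆ j, v (A.x P j)) ^ T.k i) = T.k i * Real.log (⨆ j, v (A.x P j)) :=
      Real.log_pow _ _
    rcases le_total ((⨆ j, v (A.x P j)) ^ T.k i) (⨆ c, v (y (i, c))) with h | h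
    · have h3 := Real.log_le_log hX h
      rw [max_eq_right h, abs_of_nonneg (by linarith)]
      ring
    · have h3 := Real.log_le_log hs h
      rw [max_eq_left h, abs_of_nonpos (by linarith), hlog]
      ring
  have h3 : gs (fun v : AbsoluteValue K ℝ => |T.tau v P y i|) =
      2 * (T.ht P y i - T.k i * logHeight (A.x P)) -
        (logHeight (fun c => y (i, c)) - T.k i * logHeight (A.x P)) := by
    simp only [h2]
    rw [gs_sub (FS_const_mul 2 (FS_sub h1 (FS_const_mul _ h7))) h9, gs_const_mul,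
      gs_sub h1 (FS_const_mul _ h7), gs_const_mul, gs_log_iSup (A.x_ne P),
      gs_log_iSup (H_elim_ne (T.k i) P _ (hy i).1)]
    congr 1
    unfold Tor.tau
    rw [gs_sub h8 (FS_const_mul _ h7), gs_const_mul, gs_log_iSup (A.x_ne P), gs_log_iSup hyi]
  have h4 := H_gs S h0
  rw [h3] at h4
  linarith

end

end Pool.Agent.Lib.MP_17a322_nt.TB
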