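import Pool.Agent.Lib.MP_17a322_nt.TB.Defs2
import Pool.Agent.Lib.MP_17a322_nt.SG.V1

/-!
Moving hyperplanes over principal torus bundles over `A`: computations at one place.
-/

universe u

namespace Pool.Agent.Lib.MP_17a322_nt.TB

open MvPolynomial Height
open Pool.Agent.Lib.MP_17a322_nt.VA
open Pool.Agent.Lib.MP_17a322_nt.SL
open Pool.Agent.Lib.MP_17a322_nt.SG (Bx toF Ix IndB)

section

variable {q p M : ℕ}

theorem V_toK_apply (μ : Fin q × Fin p → Fin (M + 1)) (i : Fin q × Fin p) :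
    toK μ i = (μ i : ℕ) := rfl

theorem V_toK_inj : Function.Injective (toK : (Fin q × Fin p → Fin (M + 1)) → _) := by
  intro m m' h
  funext i
  have h1 := DFunLike.congr_fun h i
  exact Fin.ext h1

theorem V_mch_apply (ch : Fin q → Fin p) (m : Bx q M) (i : Fin q × Fin p) :
    mch ch m i = if i.2 = ch i.1 then (m i.1 : ℕ) else 0 := rfl

theorem V_mch_sum (ch : Fin q → Fin p) (m : Bx q M) (i : Fin q) :
    ∑ c, mch ch m (i, c) = m i := by
  simp only [V_mch_apply]
  rw [Finset.sum_ite_eq' Finset.univ (ch i) fun _ => ((m i : Fin (M + 1)) : ℕ),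
    if_pos (Finset.mem_univ _)]

/-- The value of a polynomial with support in the box. -/
theorem V_box_sum {R S : Type*} [CommRing R] [CommRing S] (φ : R →+* S) (y : Fin q × Fin p → S)
    (b : MvPolynomial (Fin q × Fin p) R) (hb : ∀ m ∈ b.support, ∀ i, m i ≤ M) :
    ∑ μ : Fin q × Fin p → Fin (M + 1), φ (coeff (toK μ) b) * ∏ i, y i ^ (μ i : ℕ) =
      eval y (map φ b) := by
  classical
  rw [eval_map, eval₂_eq']
  have h1 : b.support ⊆ Finset.univ.image
      (toK : (Fin q × Fin p → Fin (M + 1)) → (Fin q × Fin p →₀ ℕ)) := by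
    intro m hm
    refine Finset.mem_image.2 ⟨fun i => ⟨m i, Nat.lt_succ_of_le (hb m hm i)⟩,
      Finset.mem_univ _, ?_⟩
    ext i
    rfl
  rw [Finset.sum_subset h1, Finset.sum_image fun _ _ _ _ h => V_toK_inj h]
  · rfl
  · intro m _ hm
    rw [notMem_support_iff.1 hm, map_zero, zero_mul]

theorem V_mch_prod {S : Type*} [CommRing S] (y : Fin q × Fin p → S) (ch : Fin q → Fin p)
    (m : Bx q M) : ∏ i, y i ^ mch ch m i = ∏ i, y (i, ch i) ^ (m i : ℕ) := by
  rw [Fintype.prod_prod_type]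
  refine Finset.prod_congr rfl fun i _ => ?_
  rw [Finset.prod_eq_single (ch i)]
  · rw [V_mch_apply, if_pos rfl]
  · intro c _ hc
    rw [V_mch_apply, if_neg hc, pow_zero]
  · intro h
    exact absurd (Finset.mem_univ _) h

end

section

variable {K : Type u} [Field K] {N q p : ℕ} {A : AV K N} (T : Tor A q p) {g n r s : ℕ}

theorem V_inl {D M d : ℕ} (k : Fin q → ℕ) (a : Fin (N + 1)) (ch : Fin q → Fin p)
    (Λ : Matrix (Fin s) (Fin n) (MvPolynomial (Fin q × Fin p) (MvPolynomial (Fin (N + 1)) K)))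
    (z : Fin s × Bx q (M - d)) (x : Cx N q p M n) :
    LamT (M := M) (d := d) k a ch D Λ (Sum.inl z) x = (open Classical in
      if x.2.1.1 = a ∧ Mt x.1 x.2.1.2 then
        coeff (toK x.2.1.2) (monomial (mch ch z.2) 1 * Λ z.1 x.2.2) *
          X a ^ (∑ i, k i * (x.1 i - z.2 i)) else 0) := rfl

theorem V_inr {D M d : ℕ} (k : Fin q → ℕ) (a : Fin (N + 1)) (ch : Fin q → Fin p)
    (Λ : Matrix (Fin s) (Fin n) (MvPolynomial (Fin q × Fin p) (MvPolynomial (Fin (N + 1)) K)))
    (z : Bx q M × Fin n) (x : Cx N q p M n) :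
    LamT (M := M) (d := d) k a ch D Λ (Sum.inr z) x = (open Classical in
      if x.2.1.1 = a ∧ x.1 = z.1 ∧ toK x.2.1.2 = mch ch z.1 ∧ x.2.2 = z.2 then X a ^ D else 0) :=
  rfl

theorem V_val {D M d : ℕ} (hdM : d ≤ M) (a : Fin (N + 1)) (ch : Fin q → Fin p)
    (Λ : Matrix (Fin s) (Fin n) (MvPolynomial (Fin q × Fin p) (MvPolynomial (Fin (N + 1)) K)))
    (hd : ∀ j l, ∀ m ∈ (Λ j l).support, ∀ i, ∑ c, m (i, c) ≤ d) (P : A.Pts K)
    (y : Fin q × Fin p → K) (Z : Fin n → K) (j : Fin s) (m : Bx q (M - d)) :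
    ∑ x, aeval (A.x P) (LamT (M := M) (d := d) T.k a ch D Λ (Sum.inl (j, m)) x) *
        phi T.k M (A.x P) y Z x =
      A.x P a ^ (∑ i, T.k i * (M - m i)) * (∏ i, y (i, ch i) ^ (m i : ℕ)) *
        ∑ l, ev P y (Λ j l) * Z l := by
  classical
  obtain ⟨φ, hφ⟩ : ∃ φ : MvPolynomial (Fin (N + 1)) K →+* K,
    φ = (aeval (A.x P) : MvPolynomial (Fin (N + 1)) K →ₐ[K] K).toRingHom := ⟨_, rfl⟩
  have hφ' : ∀ b, aeval (A.x P) b = φ b := fun b => by rw [hφ]; rfl
  have hsupp : ∀ l, ∀ μ ∈ (monomial (mch ch m) 1 * Λ j l).support,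
      ∀ i, (m i : ℕ) ≤ ∑ c, μ (i, c) ∧ ∑ c, μ (i, c) ≤ M := by
    intro l μ hμ i
    have h1 := support_mul _ _ hμ
    rw [Finset.mem_add] at h1
    obtain ⟨α, hα, β, hβ, rfl⟩ := h1
    have h2 : α = mch ch m := Finset.mem_singleton.1 (support_monomial_subset hα)
    have h3 := hd j l β hβ i
    have h4 := (m i).2
    have h5 : ∑ c, (α + β) (i, c) = m i + ∑ c, β (i, c) := by
      simp only [Finsupp.add_apply]
      rw [Finset.sum_add_distrib, h2, V_mch_sum]
    rw [h5]
    omega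
  have key : ∀ (l : Fin n) (μ : Fin q × Fin p → Fin (M + 1)),
      ∑ b : Bx q M, aeval (A.x P) (LamT (M := M) (d := d) T.k a ch D Λ (Sum.inl (j, m))
        (b, (a, μ), l)) * phi T.k M (A.x P) y Z (b, (a, μ), l) =
      A.x P a ^ (∑ i, T.k i * (M - m i)) *
        (φ (coeff (toK μ) (monomial (mch ch m) 1 * Λ j l)) * ∏ i, y i ^ (μ i : ℕ)) * Z l := by
    intro l μ
    by_cases h0 : coeff (toK μ) (monomial (mch ch m) 1 * Λ j l) = 0
    · rw [h0, map_zero, zero_mul, mul_zero, zero_mul]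
      refine Finset.sum_eq_zero fun b _ => ?_
      rw [V_inl]
      simp only
      rw [h0, zero_mul, ite_self, map_zero, zero_mul]
    · have h1 := hsupp l (toK μ) (mem_support_iff.2 h0)
      simp only [V_toK_apply] at h1
      obtain ⟨b₀, hb₀⟩ : ∃ b₀ : Bx q M, ∀ i, (b₀ i : ℕ) = ∑ c, (μ (i, c) : ℕ) :=
        ⟨fun i => ⟨∑ c, (μ (i, c) : ℕ), Nat.lt_succ_of_le (h1 i).2⟩, fun i => rfl⟩
      have hMt : Mt b₀ μ := fun i => (hb₀ i).symm
      rw [Finset.sum_eq_single b₀]
      · rw [V_inl]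
        unfold phi
        simp only
        rw [if_pos ⟨trivial, hMt⟩, if_pos hMt, map_mul, map_pow, aeval_X, hφ']
        have h2 : ∑ i, T.k i * (M - m i) =
            (∑ i, T.k i * ((b₀ i : ℕ) - m i)) + ex T.k b₀ := by
          unfold ex
          rw [← Finset.sum_add_distrib]
          refine Finset.sum_congr rfl fun i _ => ?_
          rw [← mul_add]
          congr 1
          have h3 := h1 i
          have h4 := hb₀ i
          omega
        rw [h2, pow_add]
        ring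
      · intro b _ hb
        rw [V_inl]
        simp only
        rw [if_neg, map_zero, zero_mul]
        rintro ⟨-, h2⟩
        refine hb (funext fun i => Fin.ext ?_)
        rw [hb₀ i, h2 i]
      · intro h
        exact absurd (Finset.mem_univ _) h
  have hzero : ∀ (l : Fin n) (b : Bx q M) (κ : Kp N q p M), κ.1 ≠ a →
      aeval (A.x P) (LamT (M := M) (d := d) T.k a ch D Λ (Sum.inl (j, m)) (b, κ, l)) *
        phi T.k M (A.x P) y Z (b, κ, l) = 0 := by
    intro l b κ hκ
    rw [V_inl]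
    simp only
    rw [if_neg fun h => hκ h.1, map_zero, zero_mul]
  have hl : ∀ l : Fin n, ∑ b : Bx q M, ∑ κ : Kp N q p M,
      aeval (A.x P) (LamT (M := M) (d := d) T.k a ch D Λ (Sum.inl (j, m)) (b, κ, l)) *
        phi T.k M (A.x P) y Z (b, κ, l) =
      A.x P a ^ (∑ i, T.k i * (M - m i)) * (∏ i, y (i, ch i) ^ (m i : ℕ)) *
        (ev P y (Λ j l) * Z l) := by
    intro l
    have h1 : ∀ b : Bx q M, ∑ κ : Kp N q p M,
        aeval (A.x P) (LamT (M := M) (d := d) T.k a ch D Λ (Sum.inl (j, m)) (b, κ, l)) *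
          phi T.k M (A.x P) y Z (b, κ, l) =
        ∑ μ : Fin q × Fin p → Fin (M + 1),
          aeval (A.x P) (LamT (M := M) (d := d) T.k a ch D Λ (Sum.inl (j, m)) (b, (a, μ), l)) *
            phi T.k M (A.x P) y Z (b, (a, μ), l) := by
      intro b
      rw [Fintype.sum_prod_type, Finset.sum_eq_single a]
      · intro a' _ ha'
        exact Finset.sum_eq_zero fun μ _ => hzero l b (a', μ) ha'
      · intro h
        exact absurd (Finset.mem_univ _) h
    rw [Finset.sum_congr rfl fun b _ => h1 b, Finset.sum_comm,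
      Finset.sum_congr rfl fun μ _ => key l μ, ← Finset.sum_mul, ← Finset.mul_sum]
    have h2 := V_box_sum (M := M) φ y (monomial (mch ch m) 1 * Λ j l) (by
      intro μ hμ i
      have h3 := (hsupp l μ hμ i.1).2
      have h4 : μ i ≤ ∑ c, μ (i.1, c) :=
        Finset.single_le_sum (f := fun c => μ (i.1, c)) (fun _ _ => Nat.zero_le _)
          (Finset.mem_univ i.2)
      exact h4.trans h3)
    rw [h2, map_mul, map_monomial, map_one, eval_mul]
    have h3 : eval y (monomial (mch ch m) (1 : K)) = ∏ i, y (i, ch i) ^ (m i : ℕ) := by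
      rw [eval_monomial, one_mul, Finsupp.prod_fintype _ _ fun i => pow_zero _]
      exact V_mch_prod y ch m
    rw [h3, hφ]
    unfold ev
    ring
  have hsum : ∑ x : Cx N q p M n,
      aeval (A.x P) (LamT (M := M) (d := d) T.k a ch D Λ (Sum.inl (j, m)) x) *
        phi T.k M (A.x P) y Z x =
      ∑ l, ∑ b : Bx q M, ∑ κ : Kp N q p M,
        aeval (A.x P) (LamT (M := M) (d := d) T.k a ch D Λ (Sum.inl (j, m)) (b, κ, l)) *
          phi T.k M (A.x P) y Z (b, κ, l) := by
    rw [Fintype.sum_prod_type, Finset.sum_comm (s := (Finset.univ : Finset (Fin n)))]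
    refine Finset.sum_congr rfl fun b _ => ?_
    rw [Fintype.sum_prod_type, Finset.sum_comm]
  rw [hsum, Finset.sum_congr rfl fun l _ => hl l, ← Finset.mul_sum]

theorem V_val' {D M d : ℕ} (a : Fin (N + 1)) (ch : Fin q → Fin p)
    (Λ : Matrix (Fin s) (Fin n) (MvPolynomial (Fin q × Fin p) (MvPolynomial (Fin (N + 1)) K)))
    (P : A.Pts K) (y : Fin q × Fin p → K) (Z : Fin n → K) (m : Bx q M) (l : Fin n) :
    ∑ x, aeval (A.x P) (LamT (M := M) (d := d) T.k a ch D Λ (Sum.inr (m, l)) x) *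
        phi T.k M (A.x P) y Z x =
      A.x P a ^ D * (A.x P a ^ ex T.k m * (∏ i, y (i, ch i) ^ (m i : ℕ)) * Z l) := by
  classical
  obtain ⟨μ, hμ⟩ : ∃ μ : Fin q × Fin p → Fin (M + 1), toK μ = mch ch m := by
    refine ⟨fun i => if i.2 = ch i.1 then m i.1 else 0, ?_⟩
    ext i
    rw [V_toK_apply, V_mch_apply]
    split_ifs <;> rfl
  have hMt : Mt m μ := by
    intro i
    have h1 := V_mch_sum ch m i
    rw [← hμ] at h1
    exact h1
  rw [Finset.sum_eq_single (m, (a, μ), l)]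
  · rw [V_inr]
    unfold phi
    simp only
    rw [if_pos ⟨trivial, trivial, hμ, trivial⟩, if_pos hMt, map_pow, aeval_X]
    have h1 : ∏ i, y i ^ (μ i : ℕ) = ∏ i, y (i, ch i) ^ (m i : ℕ) := by
      rw [← V_mch_prod, ← hμ]
      rfl
    rw [h1]
  · intro x _ hx
    rw [V_inr, if_neg, map_zero, zero_mul]
    rintro ⟨h1, h2, h3, h4⟩
    refine hx ?_
    have h5 : x.2.1.2 = μ := V_toK_inj (h3.trans hμ.symm)
    refine Prod.ext h2 (Prod.ext (Prod.ext h1 h5) h4)
  · intro h
    exact absurd (Finset.mem_univ _) h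

end

end Pool.Agent.Lib.MP_17a322_nt.TB
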