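import Pool.Agent.Lib.MP_17a322_nt.TB.Defs2
import Pool.Agent.Lib.MP_17a322_nt.SG.B1
import Pool.Agent.Lib.MP_17a322_nt.SG.S0

/-!
The rows that define the twisted block bundle.
-/

universe u

namespace Pool.Agent.Lib.MP_17a322_nt.TB

open MvPolynomial Height
open Pool.Agent.Lib.MP_17a322_nt.VA
open Pool.Agent.Lib.MP_17a322_nt.SL

/-- The indices of the rows. -/
abbrev Rx {β κ : Type} (g n : ℕ) (c₀ : β → κ) : Type :=
  {x : β × κ × Fin n // x.2.1 ≠ c₀ x.1} ⊕ (β × Fin g)

/-- The rows `w b (c₀ b) * Y b c l - w b c * Y b (c₀ b) l` and `∑ l, G i l * Y b (c₀ b) l`, multiplied by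
powers of the coordinate `a` in order to have the degree `E`. -/
noncomputable def rowW {K : Type u} [Field K] {N g n : ℕ} {β κ : Type} [DecidableEq β]
    [DecidableEq κ] (a : Fin (N + 1)) (E D' : ℕ) (δ : β → ℕ) (c₀ : β → κ)
    (G : Matrix (Fin g) (Fin n) (MvPolynomial (Fin (N + 1)) K))
    (w : β → κ → MvPolynomial (Fin (N + 1)) K) :
    Matrix (Rx g n c₀) (β × κ × Fin n) (MvPolynomial (Fin (N + 1)) K)
  | Sum.inl x, y => X a ^ (E - δ x.1.1) *
      (if y = x.1 then w x.1.1 (c₀ x.1.1) else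
        if y = (x.1.1, c₀ x.1.1, x.1.2.2) then - w x.1.1 x.1.2.1 else 0)
  | Sum.inr z, y => X a ^ (E - D') * (if y.1 = z.1 ∧ y.2.1 = c₀ z.1 then G z.2 y.2.2 else 0)

/-- The height of the space given by the rows `G`. -/
noncomputable def hET {K : Type u} [Field K] [NumberField K] {N : ℕ} (A : AV K N) {γ ι : Type}
    [Fintype ι] [Fintype γ] [DecidableEq γ] (G : Matrix γ ι (MvPolynomial (Fin (N + 1)) K))
    (P : A.Pts K) : ℝ :=
  logHeight fun e : γ ↪ ι => (Matrix.of fun a b => aeval (A.x P) (G a (e b))).det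

theorem hET_le {K : Type u} [Field K] [NumberField K] {N : ℕ} {A : AV K N} {γ ι : Type}
    [Fintype ι] [Fintype γ] [DecidableEq γ] {g n : ℕ} (a : γ ≃ Fin g) (b : ι ≃ Fin n)
    (G : Matrix γ ι (MvPolynomial (Fin (N + 1)) K)) (P : A.Pts K) :
    hET A G P ≤ hE A (SG.rdx a b G) P := by
  classical
  unfold hET hE
  rw [show (logHeight fun e : Fin g ↪o Fin n =>
      (Matrix.of fun i j => aeval (A.x P) (SG.rdx a b G i (e j))).det) = _ from
    SG.B_ht fun i l => aeval (A.x P) (SG.rdx a b G i l)]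
  have h1 : (fun e : γ ↪ ι => (Matrix.of fun i j => aeval (A.x P) (G i (e j))).det) =
      (fun f : Fin g → Fin n => (Matrix.of fun i j => aeval (A.x P) (SG.rdx a b G i (f j))).det) ∘
        fun (e : γ ↪ ι) (j : Fin g) => b (e (a.symm j)) := by
    funext e
    rw [Function.comp_apply]
    have h2 : (Matrix.of fun i j : Fin g => aeval (A.x P) (SG.rdx a b G i (b (e (a.symm j))))) =
        (Matrix.of fun i j : γ => aeval (A.x P) (G i (e j))).submatrix a.symm a.symm := by
      ext i j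
      rw [Matrix.of_apply, Matrix.submatrix_apply, Matrix.of_apply]
      unfold SG.rdx
      rw [Equiv.symm_apply_apply]
    rw [h2, Matrix.det_submatrix_equiv_self]
  rw [h1]
  exact logHeight_comp_le _ _

end Pool.Agent.Lib.MP_17a322_nt.TB
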