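import Pool.Agent.Lib.MP_17a322_nt.TB.W0
import Pool.Agent.Lib.MP_17a322_nt.EF.D4

/-!
The height of the twisted block bundle.
-/

universe u

namespace Pool.Agent.Lib.MP_17a322_nt.TB

open MvPolynomial Height
open Pool.Agent.Lib.MP_17a322_nt.VA
open Pool.Agent.Lib.MP_17a322_nt.SL

/-- The height of a space is the height of its equations: arbitrary indices. -/
theorem W1_dual {K : Type*} [Field K] [NumberField K] {γ ι ρ : Type} [Fintype γ] [Fintype ι]
    [Fintype ρ] [DecidableEq γ] [DecidableEq ρ]
    (hc : Fintype.card γ + Fintype.card ρ = Fintype.card ι) (M : γ → ι → K)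
    (hM : LinearIndependent K M) (B : ρ → ι → K) (hB : LinearIndependent K B)
    (hMB : ∀ a b, ∑ l, M a l * B b l = 0) :
    logHeight (fun f : ρ → ι => (Matrix.of fun a b => B a (f b)).det) ≤
      logHeight (fun e : γ ↪ ι => (Matrix.of fun a b => M a (e b)).det) := by
  classical
  obtain ⟨a, -⟩ : ∃ a : γ ≃ Fin (Fintype.card γ), True := ⟨Fintype.equivFin γ, trivial⟩
  obtain ⟨b, -⟩ : ∃ b : ι ≃ Fin (Fintype.card ι), True := ⟨Fintype.equivFin ι, trivial⟩
  obtain ⟨c, -⟩ : ∃ c : ρ ≃ Fin (Fintype.card ρ), True := ⟨Fintype.equivFin ρ, trivial⟩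
  obtain ⟨G', hG'⟩ : ∃ G' : Fin (Fintype.card γ) → Fin (Fintype.card ι) → K,
    G' = fun i l => M (a.symm i) (b.symm l) := ⟨_, rfl⟩
  obtain ⟨Y', hY'⟩ : ∃ Y' : Fin (Fintype.card ρ) → Fin (Fintype.card ι) → K,
    Y' = fun i l => B (c.symm i) (b.symm l) := ⟨_, rfl⟩
  have hli : ∀ {k : ℕ} {δ : Type} (e : Fin k ≃ δ) (f : δ → ι → K), LinearIndependent K f →
      LinearIndependent K (fun (i : Fin k) (l : Fin (Fintype.card ι)) => f (e i) (b.symm l)) := by
    intro k δ e f hf
    have h1 := hf.comp e e.injective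
    exact h1.map' (LinearMap.funLeft K K b.symm)
      (LinearMap.ker_eq_bot.2 (LinearMap.funLeft_injective_of_surjective K K _ b.symm.surjective))
  have h1 := EF.D_dual' hc G' (by rw [hG']; exact hli a.symm M hM) Y'
    (by rw [hY']; exact hli c.symm B hB) (fun i j => by
      rw [hG', hY']
      have h2 := Equiv.sum_comp b.symm fun l => M (a.symm i) l * B (c.symm j) l
      rw [hMB] at h2
      exact h2)
  have h2 : logHeight (fun f : ρ → ι => (Matrix.of fun a b => B a (f b)).det) ≤
      logHeight (fun f : Fin (Fintype.card ρ) → Fin (Fintype.card ι) =>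
        (Matrix.of fun a b => Y' a (f b)).det) := by
    have h3 : (fun f : ρ → ι => (Matrix.of fun a b => B a (f b)).det) =
        (fun f : Fin (Fintype.card ρ) → Fin (Fintype.card ι) =>
          (Matrix.of fun a b => Y' a (f b)).det) ∘
          fun (f : ρ → ι) (i : Fin (Fintype.card ρ)) => b (f (c.symm i)) := by
      funext f
      rw [Function.comp_apply]
      have h4 : (Matrix.of fun i j : Fin (Fintype.card ρ) => Y' i (b (f (c.symm j)))) =
          (Matrix.of fun i j : ρ => B i (f j)).submatrix c.symm c.symm := by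
        ext i j
        rw [Matrix.of_apply, Matrix.submatrix_apply, Matrix.of_apply, hY']
        show B (c.symm i) (b.symm (b (f (c.symm j)))) = _
        rw [Equiv.symm_apply_apply]
      rw [h4, Matrix.det_submatrix_equiv_self]
    rw [h3]
    exact logHeight_comp_le _ _
  have h3 : logHeight (fun e : Fin (Fintype.card γ) ↪o Fin (Fintype.card ι) =>
        (Matrix.of fun a b => G' a (e b)).det) ≤
      logHeight (fun e : γ ↪ ι => (Matrix.of fun a b => M a (e b)).det) := by
    have h3 : (fun e : Fin (Fintype.card γ) ↪o Fin (Fintype.card ι) =>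
        (Matrix.of fun a b => G' a (e b)).det) =
        (fun e : γ ↪ ι => (Matrix.of fun a b => M a (e b)).det) ∘
          fun e : Fin (Fintype.card γ) ↪o Fin (Fintype.card ι) =>
            (a.toEmbedding.trans e.toEmbedding).trans b.symm.toEmbedding := by
      funext e
      rw [Function.comp_apply]
      have h4 : (Matrix.of fun i j : Fin (Fintype.card γ) => G' i (e j)) =
          (Matrix.of fun i j : γ =>
            M i (((a.toEmbedding.trans e.toEmbedding).trans b.symm.toEmbedding) j)).submatrix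
            a.symm a.symm := by
        ext i j
        rw [Matrix.of_apply, Matrix.submatrix_apply, Matrix.of_apply, hG']
        show M (a.symm i) (b.symm (e j)) = M (a.symm i) (b.symm (e (a (a.symm j))))
        rw [Equiv.apply_symm_apply]
      rw [h4, Matrix.det_submatrix_equiv_self]
    rw [h3]
    exact logHeight_comp_le _ _
  rw [h1] at h3
  exact h2.trans h3

/-- The height of the space of the vectors `w b c * Z b l`, `Z b` in a fixed space. -/
theorem W1_low {K : Type*} [Field K] [NumberField K] {β κ : Type} [Fintype β] [DecidableEq β]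
    [Fintype κ] {r n : ℕ} (w : β → κ → K) (hw : ∀ b, w b ≠ 0) (Y : Fin r → Fin n → K)
    (hY : (fun f : Fin r → Fin n => (Matrix.of fun a b => Y a (f b)).det) ≠ 0) :
    ∑ b, (r * logHeight (w b) +
        logHeight (fun f : Fin r → Fin n => (Matrix.of fun a b => Y a (f b)).det)) ≤
      logHeight (fun f : β × Fin r → β × κ × Fin n =>
        (Matrix.of fun (a b : β × Fin r) =>
          if a.1 = (f b).1 then w a.1 (f b).2.1 * Y a.2 (f b).2.2 else 0).det) := by
  classical
  obtain ⟨D, hD⟩ : ∃ D : (Fin r → Fin n) → K,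
    D = fun f : Fin r → Fin n => (Matrix.of fun a b => Y a (f b)).det := ⟨_, rfl⟩
  rw [← hD] at hY ⊢
  have h1 : ∀ b, logHeight (fun p : κ × (Fin r → Fin n) => (w b ^ r) p.1 * D p.2) =
      r * logHeight (w b) + logHeight D := by
    intro b
    have hwr : w b ^ r ≠ 0 := pow_ne_zero r (hw b)
    rw [logHeight_fun_mul_eq hwr hY, logHeight_pow]
  have h2 : ∀ b, (fun p : κ × (Fin r → Fin n) => (w b ^ r) p.1 * D p.2) ≠ 0 := by
    intro b
    obtain ⟨c, hc⟩ := Function.ne_iff.1 (hw b)
    obtain ⟨f, hf⟩ := Function.ne_iff.1 hY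
    refine Function.ne_iff.2 ⟨(c, f), ?_⟩
    exact mul_ne_zero (pow_ne_zero r hc) hf
  have h3 := logHeight_fun_prod_eq (K := K) h2
  rw [Finset.sum_congr rfl fun b _ => h1 b] at h3
  rw [← h3]
  have h4 : (fun J : β → κ × (Fin r → Fin n) => ∏ b, (w b ^ r) (J b).1 * D (J b).2) =
      (fun f : β × Fin r → β × κ × Fin n =>
        (Matrix.of fun (a b : β × Fin r) =>
          if a.1 = (f b).1 then w a.1 (f b).2.1 * Y a.2 (f b).2.2 else 0).det) ∘
        fun (J : β → κ × (Fin r → Fin n)) (x : β × Fin r) =>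
          (x.1, (J x.1).1, (J x.1).2 x.2) := by
    funext J
    rw [Function.comp_apply]
    have h5 : (Matrix.of fun (a b : β × Fin r) =>
        if a.1 = b.1 then w a.1 (J b.1).1 * Y a.2 ((J b.1).2 b.2) else 0) =
        (Matrix.blockDiagonal fun b : β =>
          (w b (J b).1) • Matrix.of fun i j : Fin r => Y i ((J b).2 j)).submatrix
          (Equiv.prodComm β (Fin r)) (Equiv.prodComm β (Fin r)) := by
      ext a b
      rw [Matrix.of_apply, Matrix.submatrix_apply, Equiv.prodComm_apply, Equiv.prodComm_apply,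
        Matrix.blockDiagonal_apply]
      show _ = if a.1 = b.1 then _ else _
      by_cases h : a.1 = b.1
      · rw [if_pos h, if_pos h, Matrix.smul_apply, Matrix.of_apply, ← h]
        rfl
      · rw [if_neg h, if_neg h]
    show _ = (Matrix.of fun (a b : β × Fin r) =>
        if a.1 = b.1 then w a.1 (J b.1).1 * Y a.2 ((J b.1).2 b.2) else 0).det
    rw [h5, Matrix.det_submatrix_equiv_self, Matrix.det_blockDiagonal]
    refine Finset.prod_congr rfl fun b _ => ?_
    rw [Matrix.det_smul, Fintype.card_fin, hD]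
    rfl
  rw [h4]
  exact logHeight_comp_le _ _

section

variable {K : Type u} [Field K] {N : ℕ} (A : AV K N) {g n r : ℕ} {β κ : Type} [DecidableEq β]
  [DecidableEq κ]

theorem W1_row_inl (a : Fin (N + 1)) (E D' : ℕ) (δ : β → ℕ) (c₀ : β → κ)
    (G : Matrix (Fin g) (Fin n) (MvPolynomial (Fin (N + 1)) K))
    (w : β → κ → MvPolynomial (Fin (N + 1)) K) (P : A.Pts K)
    (x : {x : β × κ × Fin n // x.2.1 ≠ c₀ x.1}) (y : β × κ × Fin n) :
    aeval (A.x P) (rowW a E D' δ c₀ G w (Sum.inl x) y) = A.x P a ^ (E - δ x.1.1) *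
      (if y = x.1 then aeval (A.x P) (w x.1.1 (c₀ x.1.1)) else
        if y = (x.1.1, c₀ x.1.1, x.1.2.2) then - aeval (A.x P) (w x.1.1 x.1.2.1) else 0) := by
  show aeval (A.x P) (X a ^ (E - δ x.1.1) *
      (if y = x.1 then w x.1.1 (c₀ x.1.1) else
        if y = (x.1.1, c₀ x.1.1, x.1.2.2) then - w x.1.1 x.1.2.1 else 0)) = _
  rw [map_mul, map_pow, aeval_X]
  congr 1
  split_ifs
  · rfl
  · rw [map_neg]
  · rw [map_zero]

theorem W1_row_inr (a : Fin (N + 1)) (E D' : ℕ) (δ : β → ℕ) (c₀ : β → κ)
    (G : Matrix (Fin g) (Fin n) (MvPolynomial (Fin (N + 1)) K))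
    (w : β → κ → MvPolynomial (Fin (N + 1)) K) (P : A.Pts K)
    (z : β × Fin g) (y : β × κ × Fin n) :
    aeval (A.x P) (rowW a E D' δ c₀ G w (Sum.inr z) y) = A.x P a ^ (E - D') *
      (if y.1 = z.1 ∧ y.2.1 = c₀ z.1 then aeval (A.x P) (G z.2 y.2.2) else 0) := by
  show aeval (A.x P) (X a ^ (E - D') *
    (if y.1 = z.1 ∧ y.2.1 = c₀ z.1 then G z.2 y.2.2 else 0)) = _
  rw [map_mul, map_pow, aeval_X]
  congr 1
  split_ifs
  · rfl
  · rw [map_zero]

/-- The rows are independent. -/
theorem W1_li [Fintype β] [Fintype κ] (a : Fin (N + 1)) (E D' : ℕ) (δ : β → ℕ) (c₀ : β → κ)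
    (G : Matrix (Fin g) (Fin n) (MvPolynomial (Fin (N + 1)) K))
    (w : β → κ → MvPolynomial (Fin (N + 1)) K) (P : A.Pts K) (ha : A.x P a ≠ 0)
    (hw : ∀ b, aeval (A.x P) (w b (c₀ b)) ≠ 0)
    (hG : LinearIndependent K fun i l => aeval (A.x P) (G i l)) :
    LinearIndependent K (fun (i : Rx g n c₀) (y : β × κ × Fin n) =>
      aeval (A.x P) (rowW a E D' δ c₀ G w i y)) := by
  rw [Fintype.linearIndependent_iff]
  intro t ht
  have h0 : ∀ y : β × κ × Fin n, ∑ i : Rx g n c₀,
      t i * aeval (A.x P) (rowW a E D' δ c₀ G w i y) = 0 := by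
    intro y
    have h1 := congrFun ht y
    rw [Finset.sum_apply] at h1
    exact h1
  have hl : ∀ x : {x : β × κ × Fin n // x.2.1 ≠ c₀ x.1}, t (Sum.inl x) = 0 := by
    intro x
    have h1 := h0 x.1
    rw [Fintype.sum_sum_type] at h1
    have h2 : ∑ z : β × Fin g, t (Sum.inr z) *
        aeval (A.x P) (rowW a E D' δ c₀ G w (Sum.inr z) x.1) = 0 := by
      refine Finset.sum_eq_zero fun z _ => ?_
      rw [W1_row_inr, if_neg, mul_zero, mul_zero]
      rintro ⟨h3, h4⟩
      exact x.2 (by rw [h4, h3])
    rw [h2, add_zero, Finset.sum_eq_single x] at h1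
    · rw [W1_row_inl, if_pos rfl] at h1
      rcases mul_eq_zero.1 h1 with h3 | h3
      · exact h3
      · exact absurd h3 (mul_ne_zero (pow_ne_zero _ ha) (hw _))
    · intro x' _ hx'
      rw [W1_row_inl, if_neg fun h => hx' (Subtype.ext h.symm), if_neg, mul_zero, mul_zero]
      intro h
      apply x.2
      rw [h]
    · intro h
      exact absurd (Finset.mem_univ _) h
  intro i
  rcases i with x | ⟨b, i⟩
  · exact hl x
  · have h1 : ∀ l, ∑ i : Fin g, t (Sum.inr (b, i)) * aeval (A.x P) (G i l) = 0 := by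
      intro l
      have h2 := h0 (b, c₀ b, l)
      rw [Fintype.sum_sum_type, Finset.sum_eq_zero fun x _ => by rw [hl x, zero_mul], zero_add,
        Fintype.sum_prod_type, Finset.sum_eq_single b] at h2
      · have h3 : ∑ i : Fin g, t (Sum.inr (b, i)) *
            aeval (A.x P) (rowW a E D' δ c₀ G w (Sum.inr (b, i)) (b, c₀ b, l)) =
            A.x P a ^ (E - D') * ∑ i : Fin g, t (Sum.inr (b, i)) * aeval (A.x P) (G i l) := by
          rw [Finset.mul_sum]
          refine Finset.sum_congr rfl fun i _ => ?_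
          rw [W1_row_inr, if_pos ⟨rfl, rfl⟩]
          ring
        rw [h3] at h2
        rcases mul_eq_zero.1 h2 with h4 | h4
        · exact absurd h4 (pow_ne_zero _ ha)
        · exact h4
      · intro b' _ hb'
        refine Finset.sum_eq_zero fun i _ => ?_
        rw [W1_row_inr, if_neg fun h => hb' h.1.symm, mul_zero, mul_zero]
      · intro h
        exact absurd (Finset.mem_univ _) h
    refine Fintype.linearIndependent_iff.1 hG (fun i => t (Sum.inr (b, i))) ?_ i
    funext l
    rw [Finset.sum_apply]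
    exact h1 l

/-- The height of the twisted block bundle. -/
theorem W_hE [NumberField K] [Fintype β] [Fintype κ] (hgr : g + r = n) (a : Fin (N + 1))
    (E D' : ℕ) (δ : β → ℕ) (c₀ : β → κ)
    (G : Matrix (Fin g) (Fin n) (MvPolynomial (Fin (N + 1)) K))
    (w : β → κ → MvPolynomial (Fin (N + 1)) K) (P : A.Pts K) (ha : A.x P a ≠ 0)
    (hw : ∀ b, aeval (A.x P) (w b (c₀ b)) ≠ 0)
    (hG : LinearIndependent K fun i l => aeval (A.x P) (G i l)) :
    ∑ b, (r * logHeight (fun c => aeval (A.x P) (w b c)) + hE A G P) ≤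
      hET A (rowW a E D' δ c₀ G w) P := by
  classical
  obtain ⟨Y, hY, hGY, -, -⟩ := EF.D_ker hgr (fun i l => aeval (A.x P) (G i l)) hG
  have hE1 : hE A G P = logHeight (fun f : Fin r → Fin n =>
      (Matrix.of fun a b => Y a (f b)).det) :=
    EF.D_dual' hgr (fun i l => aeval (A.x P) (G i l)) hG Y hY hGY
  -- a nonzero minor
  have hYne : (fun f : Fin r → Fin n => (Matrix.of fun a b => Y a (f b)).det) ≠ 0 := by
    obtain ⟨f, hf⟩ := Z_minor Y hY
    exact Function.ne_iff.2 ⟨f, hf⟩
  have h1 := W1_low (fun b c => aeval (A.x P) (w b c))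
    (fun b => Function.ne_iff.2 ⟨c₀ b, hw b⟩) Y hYne
  rw [hE1]
  refine h1.trans ?_
  refine W1_dual ?_ (fun (i : Rx g n c₀) (y : β × κ × Fin n) =>
      aeval (A.x P) (rowW a E D' δ c₀ G w i y)) (W1_li A a E D' δ c₀ G w P ha hw hG)
    (fun (p : β × Fin r) (y : β × κ × Fin n) =>
      if p.1 = y.1 then aeval (A.x P) (w p.1 y.2.1) * Y p.2 y.2.2 else 0) ?_ ?_
  · -- the number of rows
    have h2 : Fintype.card {x : β × κ × Fin n // x.2.1 ≠ c₀ x.1} + Fintype.card β * n =
        Fintype.card β * (Fintype.card κ * n) := by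
      have h3 := Fintype.card_subtype_compl (fun x : β × κ × Fin n => x.2.1 = c₀ x.1)
      have h4 : Fintype.card {x : β × κ × Fin n // x.2.1 = c₀ x.1} = Fintype.card β * n := by
        rw [Fintype.card_congr (β := β × Fin n)]
        · rw [Fintype.card_prod, Fintype.card_fin]
        · exact
            { toFun := fun x => (x.1.1, x.1.2.2)
              invFun := fun z => ⟨(z.1, c₀ z.1, z.2), rfl⟩
              left_inv := fun x => by
                apply Subtype.ext
                show (x.1.1, c₀ x.1.1, x.1.2.2) = x.1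
                rw [← x.2]
              right_inv := fun z => rfl }
      have h5 : Fintype.card {x : β × κ × Fin n // x.2.1 = c₀ x.1} ≤
        Fintype.card (β × κ × Fin n) := Fintype.card_subtype_le _
      have h6 : Fintype.card (β × κ × Fin n) = Fintype.card β * (Fintype.card κ * n) := by
        rw [Fintype.card_prod, Fintype.card_prod, Fintype.card_fin]
      have h7 : Fintype.card {x : β × κ × Fin n // x.2.1 ≠ c₀ x.1} =
          Fintype.card (β × κ × Fin n) - Fintype.card {x : β × κ × Fin n // x.2.1 = c₀ x.1} := h3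
      omega
    have h3 : Fintype.card (Rx g n c₀) = Fintype.card {x : β × κ × Fin n // x.2.1 ≠ c₀ x.1} +
        Fintype.card β * g := by
      rw [Fintype.card_sum, Fintype.card_prod, Fintype.card_fin]
    rw [h3, Fintype.card_prod, Fintype.card_prod, Fintype.card_prod, Fintype.card_fin,
      Fintype.card_fin, ← h2, ← hgr]
    ring
  · -- the basis is independent
    rw [Fintype.linearIndependent_iff]
    intro t ht
    rintro ⟨b, j⟩
    have h2 : ∀ l, ∑ j : Fin r, t (b, j) * Y j l = 0 := by
      intro l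
      have h3 := congrFun ht (b, c₀ b, l)
      rw [Finset.sum_apply, Fintype.sum_prod_type, Finset.sum_eq_single b] at h3
      · have h4 : ∑ j : Fin r, (t (b, j) • fun (y : β × κ × Fin n) =>
            if b = y.1 then aeval (A.x P) (w b y.2.1) * Y j y.2.2 else 0) (b, c₀ b, l) =
            aeval (A.x P) (w b (c₀ b)) * ∑ j : Fin r, t (b, j) * Y j l := by
          rw [Finset.mul_sum]
          refine Finset.sum_congr rfl fun j _ => ?_
          rw [Pi.smul_apply, if_pos rfl, smul_eq_mul]
          ring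
        rw [h4, Pi.zero_apply] at h3
        rcases mul_eq_zero.1 h3 with h5 | h5
        · exact absurd h5 (hw b)
        · exact h5
      · intro b' _ hb'
        refine Finset.sum_eq_zero fun j _ => ?_
        rw [Pi.smul_apply, if_neg hb', smul_zero]
      · intro h
        exact absurd (Finset.mem_univ _) h
    refine Fintype.linearIndependent_iff.1 hY (fun j => t (b, j)) ?_ j
    funext l
    rw [Finset.sum_apply]
    exact h2 l
  · -- the equations
    rintro i ⟨b, j⟩
    show ∑ y, aeval (A.x P) (rowW a E D' δ c₀ G w i y) *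
      (if b = y.1 then aeval (A.x P) (w b y.2.1) * Y j y.2.2 else 0) = 0
    rcases i with x | z
    · have h2 : ∀ y : β × κ × Fin n, aeval (A.x P) (rowW a E D' δ c₀ G w (Sum.inl x) y) *
          (if b = y.1 then aeval (A.x P) (w b y.2.1) * Y j y.2.2 else 0) =
          (if y = x.1 then A.x P a ^ (E - δ x.1.1) * (aeval (A.x P) (w x.1.1 (c₀ x.1.1)) *
            (if b = x.1.1 then aeval (A.x P) (w b x.1.2.1) * Y j x.1.2.2 else 0)) else 0) +
          (if y = (x.1.1, c₀ x.1.1, x.1.2.2) then
            - (A.x P a ^ (E - δ x.1.1) * (aeval (A.x P) (w x.1.1 x.1.2.1) *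
            (if b = x.1.1 then aeval (A.x P) (w b (c₀ x.1.1)) * Y j x.1.2.2 else 0))) else 0) := by
        intro y
        rw [W1_row_inl]
        by_cases h3 : y = x.1
        · have h4 : ¬ y = (x.1.1, c₀ x.1.1, x.1.2.2) := by
            rw [h3]
            intro h4
            apply x.2
            have h5 := congrArg (fun y : β × κ × Fin n => y.2.1) h4
            exact h5
          rw [if_pos h3, if_pos h3, if_neg h4, add_zero, h3]
          ring
        · rw [if_neg h3, if_neg h3, zero_add]
          by_cases h4 : y = (x.1.1, c₀ x.1.1, x.1.2.2)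
          · rw [if_pos h4, if_pos h4, h4]
            ring
          · rw [if_neg h4, if_neg h4, mul_zero, zero_mul]
      rw [Finset.sum_congr rfl fun y _ => h2 y, Finset.sum_add_distrib, Finset.sum_ite_eq',
        if_pos (Finset.mem_univ _), Finset.sum_ite_eq', if_pos (Finset.mem_univ _)]
      by_cases h3 : b = x.1.1
      · rw [if_pos h3, if_pos h3, ← h3]
        ring
      · rw [if_neg h3, if_neg h3]
        ring
    · rw [Fintype.sum_prod_type, Finset.sum_eq_single z.1]
      · rw [Fintype.sum_prod_type, Finset.sum_eq_single (c₀ z.1)]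
        · have h2 : ∀ l, aeval (A.x P) (rowW a E D' δ c₀ G w (Sum.inr z) (z.1, c₀ z.1, l)) *
              (if b = z.1 then aeval (A.x P) (w b (c₀ z.1)) * Y j l else 0) =
              (A.x P a ^ (E - D') * (if b = z.1 then aeval (A.x P) (w b (c₀ z.1)) else 0)) *
                (aeval (A.x P) (G z.2 l) * Y j l) := by
            intro l
            rw [W1_row_inr, if_pos ⟨rfl, rfl⟩]
            split_ifs
            · ring
            · ring
          rw [Finset.sum_congr rfl fun l _ => h2 l, ← Finset.mul_sum, hGY, mul_zero]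
        · intro c _ hc
          refine Finset.sum_eq_zero fun l _ => ?_
          rw [W1_row_inr, if_neg fun h => hc h.2, mul_zero, zero_mul]
        · intro h
          exact absurd (Finset.mem_univ _) h
      · intro b' _ hb'
        refine Finset.sum_eq_zero fun y _ => ?_
        rw [W1_row_inr, if_neg fun h => hb' h.1, mul_zero, zero_mul]
      · intro h
        exact absurd (Finset.mem_univ _) h

end

end Pool.Agent.Lib.MP_17a322_nt.TB
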