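import Pool.Agent.Lib.MP_17a322_nt.TB.W1

/-!
The height of a twisted space: the vectors `w p c * Z p`, `Z` in the kernel of a matrix.
-/

universe u

namespace Pool.Agent.Lib.MP_17a322_nt.TB

open MvPolynomial Height
open Pool.Agent.Lib.MP_17a322_nt.RO
open Pool.Agent.Lib.MP_17a322_nt.VJ
open Pool.Agent.Lib.MP_17a322_nt.VA
open Pool.Agent.Lib.MP_17a322_nt.SL

/-- Proportional vectors up to signs. -/
theorem W3_prop {K : Type*} [Field K] [NumberField K] {ι : Type*} [Finite ι] (x x' : ι → K) {t : K}
    (ht : t ≠ 0) (h : ∀ (v : AbsoluteValue K ℝ) i, v (x' i) = v t * v (x i)) :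
    logHeight x' = logHeight x := by
  obtain ⟨v₀⟩ := (inferInstance : Nonempty (NumberField.InfinitePlace K))
  by_cases hx : x = 0
  · have hx' : x' = 0 := by
      funext i
      have h1 := h v₀.val i
      rw [hx, Pi.zero_apply, map_zero, mul_zero] at h1
      exact (map_eq_zero v₀.val).1 h1
    rw [hx, hx']
  · have hx' : x' ≠ 0 := by
      obtain ⟨i, hi⟩ := Function.ne_iff.1 hx
      intro h0
      have h1 := h v₀.val i
      rw [congrFun h0 i, Pi.zero_apply, map_zero] at h1
      exact (mul_pos (v₀.val.pos ht) (v₀.val.pos hi)).ne h1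
    rw [← gs_log_iSup hx, ← gs_log_iSup hx']
    have f1 : FS fun v : AbsoluteValue K ℝ => Real.log (v t) := FS_log_abv ht
    have f2 : FS fun v : AbsoluteValue K ℝ => Real.log (⨆ i, v (x i)) := FS_log_iSup hx
    have h1 : (fun v : AbsoluteValue K ℝ => Real.log (⨆ i, v (x' i))) = fun v => Real.log (v t) +
        Real.log (⨆ i, v (x i)) := by
      funext v
      have h2 : 0 < ⨆ i, v (x i) := vm_pos v hx
      have h3 : (⨆ i, v (x' i)) = v t * ⨆ i, v (x i) := by
        rw [Real.mul_iSup_of_nonneg (v.nonneg t)]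
        congr 1
        funext i
        exact h v i
      rw [h3, Real.log_mul (v.pos ht).ne' h2.ne']
    rw [h1, gs_add f1 f2, gs_log_abv ht, zero_add]

/-- Complementary minors for arbitrary indices. -/
theorem W3_comp {K : Type*} [Field K] {γ ι ρ : Type} [Fintype γ] [Fintype ι]
    [Fintype ρ] [DecidableEq γ] [DecidableEq ρ]
    (hc : Fintype.card γ + Fintype.card ρ = Fintype.card ι) (M : γ → ι → K)
    (hM : LinearIndependent K M) (Z : ρ → ι → K) (hZ : LinearIndependent K Z)
    (hMZ : ∀ a b, ∑ l, M a l * Z b l = 0) :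
    ∃ t : K, t ≠ 0 ∧ ∀ (v : AbsoluteValue K ℝ) (e : γ → ι) (f : ρ → ι),
      Function.Bijective (Sum.elim f e) →
      v (Matrix.of fun a b => Z a (f b)).det = v t * v (Matrix.of fun a b => M a (e b)).det := by
  classical
  obtain ⟨a, -⟩ : ∃ a : γ ≃ Fin (Fintype.card γ), True := ⟨Fintype.equivFin γ, trivial⟩
  obtain ⟨c, -⟩ : ∃ c : ρ ≃ Fin (Fintype.card ρ), True := ⟨Fintype.equivFin ρ, trivial⟩
  obtain ⟨b, -⟩ : ∃ b : ι ≃ Fin (Fintype.card ρ + Fintype.card γ), True :=
    ⟨Fintype.equivFinOfCardEq (by omega), trivial⟩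
  obtain ⟨G', hG'⟩ : ∃ G' : Fin (Fintype.card γ) → Fin (Fintype.card ρ + Fintype.card γ) → K,
    G' = fun i l => M (a.symm i) (b.symm l) := ⟨_, rfl⟩
  obtain ⟨Y', hY'⟩ : ∃ Y' : Fin (Fintype.card ρ) → Fin (Fintype.card ρ + Fintype.card γ) → K,
    Y' = fun i l => Z (c.symm i) (b.symm l) := ⟨_, rfl⟩
  have hli : ∀ {k : ℕ} {δ : Type} (e : Fin k ≃ δ) (f : δ → ι → K), LinearIndependent K f →
      LinearIndependent K (fun (i : Fin k) (l : Fin (Fintype.card ρ + Fintype.card γ)) =>
        f (e i) (b.symm l)) := by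
    intro k δ e f hf
    have h1 := hf.comp e e.injective
    exact h1.map' (LinearMap.funLeft K K b.symm)
      (LinearMap.ker_eq_bot.2 (LinearMap.funLeft_injective_of_surjective K K _ b.symm.surjective))
  obtain ⟨t, ht0, ht⟩ := Z_lam G' (by rw [hG']; exact hli a.symm M hM) Y'
    (by rw [hY']; exact hli c.symm Z hZ) (fun i j => by
      rw [hG', hY']
      have h2 := Equiv.sum_comp b.symm fun l => M (a.symm i) l * Z (c.symm j) l
      rw [hMZ] at h2
      exact h2)
  refine ⟨t, ht0, fun v e f hbij => ?_⟩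
  have h1 := EF.D_comp v G' Y' ht (fun i => b (f (c.symm i))) (fun i => b (e (a.symm i))) (by
    have h2 : Sum.elim (fun i => b (f (c.symm i))) (fun i => b (e (a.symm i))) =
        b ∘ Sum.elim f e ∘ Sum.map c.symm a.symm := by
      funext x
      rcases x with x | x <;> rfl
    rw [h2]
    exact b.bijective.comp (hbij.comp ((Equiv.sumCongr c.symm a.symm).bijective)))
  have h2 : (Matrix.of fun i j : Fin (Fintype.card ρ) => Y' i (b (f (c.symm j)))) =
      (Matrix.of fun i j : ρ => Z i (f j)).submatrix c.symm c.symm := by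
    ext i j
    rw [Matrix.of_apply, Matrix.submatrix_apply, Matrix.of_apply, hY']
    show Z (c.symm i) (b.symm (b (f (c.symm j)))) = _
    rw [Equiv.symm_apply_apply]
  have h3 : (Matrix.of fun i j : Fin (Fintype.card γ) => G' i (b (e (a.symm j)))) =
      (Matrix.of fun i j : γ => M i (e j)).submatrix a.symm a.symm := by
    ext i j
    rw [Matrix.of_apply, Matrix.submatrix_apply, Matrix.of_apply, hG']
    show M (a.symm i) (b.symm (b (e (a.symm j)))) = _
    rw [Equiv.symm_apply_apply]
  rw [h2, Matrix.det_submatrix_equiv_self, h3, Matrix.det_submatrix_equiv_self] at h1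
  exact h1

/-- The height of the twisted space in terms of the minors of the equations. -/
theorem W3_low {K : Type*} [Field K] [NumberField K] {γ ι κ ρ : Type} [Fintype γ] [Fintype ι]
    [Fintype κ] [Fintype ρ] [DecidableEq γ] [DecidableEq ρ] [DecidableEq ι]
    (hc : Fintype.card γ + Fintype.card ρ = Fintype.card ι) (M : γ → ι → K)
    (hM : LinearIndependent K M) (Z : ρ → ι → K) (hZ : LinearIndependent K Z)
    (hMZ : ∀ a b, ∑ l, M a l * Z b l = 0) (w : ι → κ → K) :
    logHeight (fun x : (γ ↪ ι) × (ι → κ) => (Matrix.of fun a b => M a (x.1 b)).det *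
        ∏ p ∈ (Finset.univ.map x.1)ᶜ, w p (x.2 p)) ≤
      logHeight (fun f : ρ → ι × κ =>
        (Matrix.of fun a b => w (f b).1 (f b).2 * Z a (f b).1).det) := by
  classical
  obtain ⟨t, ht0, ht⟩ := W3_comp hc M hM Z hZ hMZ
  -- an enumeration of the complement
  have hen : ∀ e : γ ↪ ι, ∃ f : ρ → ι, Function.Injective f ∧
      Finset.univ.image f = (Finset.univ.map e)ᶜ := by
    intro e
    have h1 : Fintype.card ρ = ((Finset.univ.map e)ᶜ : Finset ι).card := by
      rw [Finset.card_compl, Finset.card_map, Finset.card_univ]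
      omega
    obtain ⟨σ⟩ : Nonempty (ρ ≃ ((Finset.univ.map e)ᶜ : Finset ι)) :=
      ⟨Fintype.equivOfCardEq (by rw [h1, Fintype.card_coe])⟩
    refine ⟨fun s => (σ s : ι), fun s s' h => σ.injective (Subtype.ext h), ?_⟩
    ext p
    rw [Finset.mem_image]
    constructor
    · rintro ⟨s, -, rfl⟩
      exact (σ s).2
    · intro hp
      refine ⟨σ.symm ⟨p, hp⟩, Finset.mem_univ _, ?_⟩
      rw [Equiv.apply_symm_apply]
  choose f hf1 hf2 using hen
  have hbij : ∀ e : γ ↪ ι, Function.Bijective (Sum.elim (f e) e) := by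
    intro e
    rw [Fintype.bijective_iff_injective_and_card]
    refine ⟨?_, by rw [Fintype.card_sum]; omega⟩
    have hne : ∀ s a, f e s ≠ e a := by
      intro s a h
      have h1 : f e s ∈ (Finset.univ.map e)ᶜ := by
        rw [← hf2 e]
        exact Finset.mem_image_of_mem _ (Finset.mem_univ s)
      rw [h, Finset.mem_compl] at h1
      exact h1 (Finset.mem_map_of_mem e (Finset.mem_univ a))
    rintro (x | x) (y | y) h
    · rw [hf1 e h]
    · exact absurd h (hne x y)
    · exact absurd h.symm (hne y x)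
    · rw [e.injective h]
  have h1 : logHeight (fun x : (γ ↪ ι) × (ι → κ) => (Matrix.of fun a b => Z a (f x.1 b)).det *
        ∏ s, w (f x.1 s) (x.2 (f x.1 s))) =
      logHeight (fun x : (γ ↪ ι) × (ι → κ) => (Matrix.of fun a b => M a (x.1 b)).det *
        ∏ p ∈ (Finset.univ.map x.1)ᶜ, w p (x.2 p)) := by
    refine W3_prop _ _ ht0 fun v x => ?_
    rw [map_mul, map_mul, ht v x.1 (f x.1) (hbij x.1), ← hf2 x.1,
      Finset.prod_image fun s _ s' _ h => hf1 x.1 h]
    ring
  rw [← h1]
  have h2 : (fun x : (γ ↪ ι) × (ι → κ) => (Matrix.of fun a b => Z a (f x.1 b)).det *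
        ∏ s, w (f x.1 s) (x.2 (f x.1 s))) =
      (fun f : ρ → ι × κ => (Matrix.of fun a b => w (f b).1 (f b).2 * Z a (f b).1).det) ∘
        fun (x : (γ ↪ ι) × (ι → κ)) (s : ρ) => (f x.1 s, x.2 (f x.1 s)) := by
    funext x
    rw [Function.comp_apply]
    have h3 : (Matrix.of fun (a b : ρ) => w (f x.1 b) (x.2 (f x.1 b)) * Z a (f x.1 b)) =
        Matrix.of fun a b => (fun b => w (f x.1 b) (x.2 (f x.1 b))) b *
          (Matrix.of fun a b => Z a (f x.1 b)) a b := rfl
    rw [h3, Matrix.det_mul_row, mul_comm]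
  rw [h2]
  exact logHeight_comp_le _ _

/-- The equations of the twisted space are independent, and their minors have the height of the
twisted space. -/
theorem W3_hE {K : Type*} [Field K] [NumberField K] {γ ι κ : Type} [Fintype γ] [Fintype ι]
    [Fintype κ] [DecidableEq γ] [DecidableEq ι] [DecidableEq κ]
    (M : γ → ι → K) (hM : LinearIndependent K M) (w : ι → κ → K) (c₀ : ι → κ)
    (hw : ∀ p, w p (c₀ p) ≠ 0) (s : {x : ι × κ // x.2 ≠ c₀ x.1} → K) (hs : ∀ x, s x ≠ 0)
    (t : γ → K) (ht : ∀ i, t i ≠ 0) (B : {x : ι × κ // x.2 ≠ c₀ x.1} ⊕ γ → ι × κ → K)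
    (hB1 : ∀ x y, B (Sum.inl x) y = s x * (if y = x.1 then w x.1.1 (c₀ x.1.1) else
      if y = (x.1.1, c₀ x.1.1) then - w x.1.1 x.1.2 else 0))
    (hB2 : ∀ i y, B (Sum.inr i) y = t i * (if y.2 = c₀ y.1 then
      M i y.1 * ∏ p ∈ Finset.univ.erase y.1, w p (c₀ p) else 0)) :
    LinearIndependent K B ∧
    logHeight (fun x : (γ ↪ ι) × (ι → κ) => (Matrix.of fun a b => M a (x.1 b)).det *
        ∏ p ∈ (Finset.univ.map x.1)ᶜ, w p (x.2 p)) ≤
      logHeight (fun e : {x : ι × κ // x.2 ≠ c₀ x.1} ⊕ γ ↪ ι × κ =>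
        (Matrix.of fun a b => B a (e b)).det) := by
  classical
  have hli : LinearIndependent K B := by
    rw [Fintype.linearIndependent_iff]
    intro r hr
    have h0 : ∀ y : ι × κ, ∑ i, r i * B i y = 0 := by
      intro y
      have h1 := congrFun hr y
      rw [Finset.sum_apply] at h1
      exact h1
    have hl : ∀ x, r (Sum.inl x) = 0 := by
      intro x
      have h1 := h0 x.1
      rw [Fintype.sum_sum_type] at h1
      have h2 : ∑ z, r (Sum.inr z) * B (Sum.inr z) x.1 = 0 := by
        refine Finset.sum_eq_zero fun z _ => ?_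
        rw [hB2, if_neg x.2, mul_zero, mul_zero]
      rw [h2, add_zero, Finset.sum_eq_single x] at h1
      · rw [hB1, if_pos rfl] at h1
        rcases mul_eq_zero.1 h1 with h3 | h3
        · exact h3
        · exact absurd h3 (mul_ne_zero (hs x) (hw _))
      · intro x' _ hx'
        rw [hB1, if_neg fun h => hx' (Subtype.ext h.symm), if_neg, mul_zero, mul_zero]
        intro h
        apply x.2
        rw [h]
      · intro h
        exact absurd (Finset.mem_univ _) h
    rintro (x | i)
    · exact hl x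
    · have h1 : ∀ p, ∑ i, (r (Sum.inr i) * t i) * M i p = 0 := by
        intro p
        have h2 := h0 (p, c₀ p)
        rw [Fintype.sum_sum_type, Finset.sum_eq_zero fun x _ => by rw [hl x, zero_mul],
          zero_add] at h2
        have h3 : ∑ i, r (Sum.inr i) * B (Sum.inr i) (p, c₀ p) =
            (∏ p' ∈ Finset.univ.erase p, w p' (c₀ p')) *
              ∑ i, (r (Sum.inr i) * t i) * M i p := by
          rw [Finset.mul_sum]
          refine Finset.sum_congr rfl fun i _ => ?_
          rw [hB2, if_pos rfl]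
          ring
        rw [h3] at h2
        rcases mul_eq_zero.1 h2 with h4 | h4
        · exact absurd h4 (Finset.prod_ne_zero_iff.2 fun p' _ => hw p')
        · exact h4
      have h2 := Fintype.linearIndependent_iff.1 hM (fun i => r (Sum.inr i) * t i) (by
        funext p
        rw [Finset.sum_apply]
        exact h1 p) i
      rcases mul_eq_zero.1 h2 with h3 | h3
      · exact h3
      · exact absurd h3 (ht i)
  refine ⟨hli, ?_⟩
  -- a basis of the kernel
  have hcard : Fintype.card γ ≤ Fintype.card ι := by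
    have h1 := hM.fintype_card_le_finrank
    rwa [Module.finrank_fintype_fun_eq_card] at h1
  obtain ⟨k, hk⟩ : ∃ k, Fintype.card γ + k = Fintype.card ι := ⟨_, Nat.add_sub_cancel' hcard⟩
  obtain ⟨a, -⟩ : ∃ a : γ ≃ Fin (Fintype.card γ), True := ⟨Fintype.equivFin γ, trivial⟩
  obtain ⟨b, -⟩ : ∃ b : ι ≃ Fin (Fintype.card ι), True := ⟨Fintype.equivFin ι, trivial⟩
  obtain ⟨Y, hY, hGY, -, -⟩ := EF.D_ker hk (fun i l => M (a.symm i) (b.symm l)) (by
    have h1 := hM.comp a.symm a.symm.injective
    exact h1.map' (LinearMap.funLeft K K b.symm)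
      (LinearMap.ker_eq_bot.2 (LinearMap.funLeft_injective_of_surjective K K _
        b.symm.surjective)))
  obtain ⟨Z, hZ⟩ : ∃ Z : Fin k → ι → K, Z = fun j l => Y j (b l) := ⟨_, rfl⟩
  have hZl : LinearIndependent K Z := by
    rw [hZ]
    exact hY.map' (LinearMap.funLeft K K b)
      (LinearMap.ker_eq_bot.2 (LinearMap.funLeft_injective_of_surjective K K _ b.surjective))
  have hMZ : ∀ i j, ∑ l, M i l * Z j l = 0 := by
    intro i j
    have h1 := hGY (a i) j
    simp only [Equiv.symm_apply_apply] at h1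
    have h2 := Equiv.sum_comp b.symm fun l => M i l * Y j (b l)
    simp only [Equiv.apply_symm_apply] at h2
    rw [hZ, ← h2]
    exact h1
  refine (W3_low (ρ := Fin k) (by rw [Fintype.card_fin]; exact hk) M hM Z hZl hMZ w).trans ?_
  refine W1_dual ?_ B hli (fun (j : Fin k) (y : ι × κ) => w y.1 y.2 * Z j y.1) ?_ ?_
  · -- the number of rows
    have h2 : Fintype.card {x : ι × κ // x.2 ≠ c₀ x.1} + Fintype.card ι =
        Fintype.card ι * Fintype.card κ := by
      have h3 := Fintype.card_subtype_compl (fun x : ι × κ => x.2 = c₀ x.1)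
      have h4 : Fintype.card {x : ι × κ // x.2 = c₀ x.1} = Fintype.card ι := by
        refine Fintype.card_congr
          { toFun := fun x => x.1.1
            invFun := fun z => ⟨(z, c₀ z), rfl⟩
            left_inv := fun x => by
              apply Subtype.ext
              show (x.1.1, c₀ x.1.1) = x.1
              rw [← x.2]
            right_inv := fun z => rfl }
      have h5 : Fintype.card {x : ι × κ // x.2 = c₀ x.1} ≤
        Fintype.card (ι × κ) := Fintype.card_subtype_le _
      have h6 : Fintype.card (ι × κ) = Fintype.card ι * Fintype.card κ := Fintype.card_prod _ _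
      have h7 : Fintype.card {x : ι × κ // x.2 ≠ c₀ x.1} =
          Fintype.card (ι × κ) - Fintype.card {x : ι × κ // x.2 = c₀ x.1} := h3
      omega
    rw [Fintype.card_sum, Fintype.card_fin, Fintype.card_prod]
    omega
  · -- the basis is independent
    rw [Fintype.linearIndependent_iff]
    intro r hr
    refine Fintype.linearIndependent_iff.1 hZl r ?_
    funext p
    have h3 := congrFun hr (p, c₀ p)
    rw [Finset.sum_apply] at h3
    have h4 : ∑ j, (r j • fun (y : ι × κ) => w y.1 y.2 * Z j y.1) (p, c₀ p) =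
        w p (c₀ p) * ∑ j, r j * Z j p := by
      rw [Finset.mul_sum]
      refine Finset.sum_congr rfl fun j _ => ?_
      rw [Pi.smul_apply, smul_eq_mul]
      ring
    rw [h4, Pi.zero_apply] at h3
    rw [Finset.sum_apply]
    rcases mul_eq_zero.1 h3 with h5 | h5
    · exact absurd h5 (hw p)
    · exact h5
  · -- the equations
    rintro (x | i) j
    · have h2 : ∀ y : ι × κ, B (Sum.inl x) y * (w y.1 y.2 * Z j y.1) =
          (if y = x.1 then s x * (w x.1.1 (c₀ x.1.1) * (w x.1.1 x.1.2 * Z j x.1.1)) else 0) +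
          (if y = (x.1.1, c₀ x.1.1) then
            - (s x * (w x.1.1 x.1.2 * (w x.1.1 (c₀ x.1.1) * Z j x.1.1))) else 0) := by
        intro y
        rw [hB1]
        by_cases h3 : y = x.1
        · have h4 : ¬ y = (x.1.1, c₀ x.1.1) := by
            rw [h3]
            intro h4
            apply x.2
            exact congrArg (fun y : ι × κ => y.2) h4
          rw [if_pos h3, if_pos h3, if_neg h4, add_zero, h3]
          ring
        · rw [if_neg h3, if_neg h3, zero_add]
          by_cases h4 : y = (x.1.1, c₀ x.1.1)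
          · rw [if_pos h4, if_pos h4, h4]
            ring
          · rw [if_neg h4, if_neg h4, mul_zero, zero_mul]
      rw [Finset.sum_congr rfl fun y _ => h2 y, Finset.sum_add_distrib, Finset.sum_ite_eq',
        if_pos (Finset.mem_univ _), Finset.sum_ite_eq', if_pos (Finset.mem_univ _)]
      ring
    · rw [Fintype.sum_prod_type]
      have h2 : ∀ p, ∑ c, B (Sum.inr i) (p, c) * (w (p, c).1 (p, c).2 * Z j (p, c).1) =
          (t i * ∏ p, w p (c₀ p)) * (M i p * Z j p) := by
        intro p
        rw [Finset.sum_eq_single (c₀ p)]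
        · rw [hB2, if_pos rfl, ← Finset.mul_prod_erase Finset.univ (fun p => w p (c₀ p))
            (Finset.mem_univ p)]
          ring
        · intro c _ hc
          rw [hB2, if_neg hc, mul_zero, zero_mul]
        · intro h
          exact absurd (Finset.mem_univ _) h
      rw [Finset.sum_congr rfl fun p _ => h2 p, ← Finset.mul_sum, hMZ, mul_zero]

end Pool.Agent.Lib.MP_17a322_nt.TB
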